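import Mathlib

/-!
# Vertex-induced triangulations of a simplex and their local face modules: definitions

`Γ` is a finite abstract simplicial complex with the vertex set `Fin n`, and `σ j`, the carrier of
the vertex `j`, is a nonempty set of vertices of the simplex with the vertex set `Fin d`. The
carrier of a face is the union of the carriers of its vertices. For a set `U` of vertices of the
simplex, `Γ_U` is the subcomplex of the faces with carrier inside `U`.
-/

set_option autoImplicit false

open Finset

namespace Pool.Agent.Lib.MP_fd6ff4_co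

variable {d n : ℕ}

/-- the carrier of a set of vertices -/
def car (σ : Fin n → Finset (Fin d)) (F : Finset (Fin n)) : Finset (Fin d) := F.biUnion σ

/-- the link of `F` in `Γ_U` -/
def link (Γ : Finset (Finset (Fin n))) (σ : Fin n → Finset (Fin d)) (U : Finset (Fin d))
    (F : Finset (Fin n)) : Finset (Finset (Fin n)) :=
  Γ.filter fun G => Disjoint G F ∧ G ∪ F ∈ Γ ∧ car σ (G ∪ F) ⊆ U

/-- `C` is a cycle with coefficients `Z/2` of the complex `X`: a set of faces of `X` with `s`
vertices such that every set of `s - 1` vertices lies in an even number of members of `C` (the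
homological dimension is `s - 1`; for `s = 1` the number of members is even, for `s = 0` there is
no condition) -/
def IsCycle (X : Finset (Finset (Fin n))) (s : ℕ) (C : Finset (Finset (Fin n))) : Prop :=
  C ⊆ X ∧ (∀ G ∈ C, #G = s) ∧ ∀ E : Finset (Fin n), #E + 1 = s → Even #{G ∈ C | E ⊆ G}

/-- `C`, a set of faces with `s` vertices, is the boundary with coefficients `Z/2` of a set `D` of
faces of `X` with `s + 1` vertices -/
def IsBd (X : Finset (Finset (Fin n))) (s : ℕ) (C : Finset (Finset (Fin n))) : Prop :=
  ∃ D : Finset (Finset (Fin n)), D ⊆ X ∧ (∀ G ∈ D, #G = s + 1) ∧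
    ∀ E : Finset (Fin n), #E = s → (E ∈ C ↔ Odd #{G ∈ D | E ⊆ G})

/-- `Γ_U` is near its face `F` a ball of dimension `#U - 1` for the homology with coefficients
`Z/2`: the link of `F` in `Γ_U` has dimension at most `#U - #F - 1`, no reduced homology below this
dimension, and in this dimension it has the homology `Z/2` if the carrier of `F` is `U` (an
interior face) and `0` if it is not (a boundary face) -/
structure BallAt (Γ : Finset (Finset (Fin n))) (σ : Fin n → Finset (Fin d))
    (U : Finset (Fin d)) (F : Finset (Fin n)) : Prop where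
  dim : ∀ G ∈ link Γ σ U F, #G + #F ≤ #U
  low : ∀ s : ℕ, s + #F < #U → ∀ C, IsCycle (link Γ σ U F) s C → IsBd (link Γ σ U F) s C
  interior : car σ F = U → ∃! C : Finset (Finset (Fin n)),
    C.Nonempty ∧ IsCycle (link Γ σ U F) (#U - #F) C
  boundary : car σ F ≠ U → ∀ C, IsCycle (link Γ σ U F) (#U - #F) C → C = ∅

/-- A vertex-induced triangulation of the simplex with the vertex set `Fin d`, where only the faces
of dimension at most `3` of the simplex are required to be subdivided in the right way: for every
`U` with at most four elements `Γ_U` is a `Z/2`-homology ball of dimension `#U - 1` whose interior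
faces are exactly those with carrier `U`. -/
structure Tri (Γ : Finset (Finset (Fin n))) (σ : Fin n → Finset (Fin d)) : Prop where
  empty_mem : ∅ ∈ Γ
  down : ∀ F ∈ Γ, ∀ G, G ⊆ F → G ∈ Γ
  vertex : ∀ j, {j} ∈ Γ
  nonempty : ∀ j, (σ j).Nonempty
  ball : ∀ U : Finset (Fin d), #U ≤ 4 → ∀ F ∈ Γ, car σ F ⊆ U → BallAt Γ σ U F

/-! ### The face ring and the local face module

`K` is the field of coefficients and `a i j` is the coefficient of `x_j` in `θ_i`. -/

/-- the pairs `(i, j)` with `i ∈ σ j` -/
abbrev Idx (σ : Fin n → Finset (Fin d)) : Type := {p : Fin d × Fin n // p.1 ∈ σ p.2}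

section

variable (K : Type*) [Field K]

/-- the square-free monomial of a set of vertices -/
noncomputable def mon (F : Finset (Fin n)) : MvPolynomial (Fin n) K :=
  ∏ j ∈ F, MvPolynomial.X j

/-- the Stanley-Reisner ideal -/
noncomputable def srIdeal (Γ : Finset (Finset (Fin n))) : Ideal (MvPolynomial (Fin n) K) :=
  Ideal.span {f | ∃ F : Finset (Fin n), F ∉ Γ ∧ f = mon K F}

/-- the ideal of the polynomial ring generated by the monomials of the interior faces -/
noncomputable def interiorIdeal (σ : Fin n → Finset (Fin d)) (Γ : Finset (Finset (Fin n))) :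
    Ideal (MvPolynomial (Fin n) K) :=
  Ideal.span {f | ∃ G ∈ Γ, car σ G = Finset.univ ∧ f = mon K G}

end

variable {K : Type*} [Field K] (a : Fin d → Fin n → K) (σ : Fin n → Finset (Fin d))
  (Γ : Finset (Finset (Fin n)))

/-- the linear form `θ_i = ∑ a_{i,j} x_j` -/
noncomputable def theta (i : Fin d) : MvPolynomial (Fin n) K :=
  ∑ j : Fin n, MvPolynomial.C (a i j) * MvPolynomial.X j

/-- the ideal generated by the Stanley-Reisner ideal and `θ_1, ..., θ_d`; the quotient of the
polynomial ring by it is `K[Γ]/(θ_1, ..., θ_d)` -/
noncomputable def relIdeal : Ideal (MvPolynomial (Fin n) K) :=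
  srIdeal K Γ ⊔ Ideal.span (Set.range (theta a))

/-- the ring `K[Γ]/(θ_1, ..., θ_d)` -/
abbrev QuotRing : Type _ := MvPolynomial (Fin n) K ⧸ relIdeal a Γ

/-- the local face module `L(Γ)`: the image of the ideal of the interior faces in
`K[Γ]/(θ_1, ..., θ_d)` -/
noncomputable def localModule : Ideal (QuotRing a Γ) :=
  (interiorIdeal K σ Γ).map (Ideal.Quotient.mk (relIdeal a Γ))

/-- the homogeneous elements of degree at most `N` of `L(Γ)`: the images of the homogeneous
polynomials of degree at most `N` in the ideal of the interior faces -/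
def lowElements (N : ℕ) : Set (QuotRing a Γ) :=
  {y | ∃ s ≤ N, ∃ f ∈ interiorIdeal K σ Γ, f.IsHomogeneous s ∧
    y = Ideal.Quotient.mk (relIdeal a Γ) f}

/-- `L(Γ)` is generated, as a module over `K[Γ]`, by its homogeneous elements of degree at most
`N` -/
def GeneratedLE (N : ℕ) : Prop :=
  localModule a σ Γ = Ideal.span (lowElements a σ Γ N)

end Pool.Agent.Lib.MP_fd6ff4_co
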