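import Mathlib
import Pool.Agent.Lib.MP_fd6ff4_co.Defs

/-!
# Extensions of a face: pseudomanifold properties
-/

set_option autoImplicit false

open Finset

namespace Pool.Agent.Lib.MP_fd6ff4_co

variable {d n : ℕ}

/-- the vertices by which the face `F` of `Γ_U` can be extended inside `Γ_U` -/
def ext (Γ : Finset (Finset (Fin n))) (σ : Fin n → Finset (Fin d)) (U : Finset (Fin d))
    (F : Finset (Fin n)) : Finset (Fin n) :=
  Finset.univ.filter fun x => x ∉ F ∧ insert x F ∈ Γ ∧ car σ (insert x F) ⊆ U

variable {Γ : Finset (Finset (Fin n))} {σ : Fin n → Finset (Fin d)} {U : Finset (Fin d)}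
  {F : Finset (Fin n)}

theorem car_insert (x : Fin n) (F : Finset (Fin n)) : car σ (insert x F) = σ x ∪ car σ F := by
  unfold car
  exact Finset.biUnion_insert

theorem car_union (F G : Finset (Fin n)) : car σ (F ∪ G) = car σ F ∪ car σ G := by
  unfold car
  exact Finset.union_biUnion

theorem car_mono {F G : Finset (Fin n)} (h : F ⊆ G) : car σ F ⊆ car σ G := by
  unfold car
  exact Finset.biUnion_subset_biUnion_of_subset_left σ h

theorem mem_link {G : Finset (Fin n)} (h : Tri Γ σ) :
    G ∈ link Γ σ U F ↔ Disjoint G F ∧ G ∪ F ∈ Γ ∧ car σ (G ∪ F) ⊆ U := by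
  unfold link
  rw [Finset.mem_filter]
  exact ⟨fun h1 => h1.2, fun h1 => ⟨h.down _ h1.2.1 _ Finset.subset_union_left, h1⟩⟩

/-- The link is closed under taking subsets. -/
theorem link_down (h : Tri Γ σ) {G G' : Finset (Fin n)} (hG : G ∈ link Γ σ U F) (hs : G' ⊆ G) :
    G' ∈ link Γ σ U F := by
  rw [mem_link h] at hG ⊢
  have h1 : G' ∪ F ⊆ G ∪ F := Finset.union_subset_union_left hs
  exact ⟨hG.1.mono_left hs, h.down _ hG.2.1 _ h1, (car_mono h1).trans hG.2.2⟩

theorem singleton_mem_link (h : Tri Γ σ) {x : Fin n} :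
    {x} ∈ link Γ σ U F ↔ x ∈ ext Γ σ U F := by
  rw [mem_link h]
  unfold ext
  rw [Finset.mem_filter, Finset.disjoint_singleton_left, ← Finset.insert_eq]
  simp

/-- For `x ≠ y`: `{x,y}` is in the link of `F` iff `y` extends the face `insert x F` and `x` is not
in `F`. -/
theorem pair_mem_link (h : Tri Γ σ) {x y : Fin n} (hxy : x ≠ y) :
    {x, y} ∈ link Γ σ U F ↔ x ∉ F ∧ y ∈ ext Γ σ U (insert x F) := by
  rw [mem_link h]
  unfold ext
  have h1 : ({x, y} : Finset (Fin n)) ∪ F = insert y (insert x F) := by
    ext z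
    simp only [Finset.mem_union, Finset.mem_insert, Finset.mem_singleton]
    tauto
  rw [h1, Finset.mem_filter, Finset.disjoint_insert_left, Finset.disjoint_singleton_left,
    Finset.mem_insert]
  simp only [Finset.mem_univ, true_and]
  have h2 : y ≠ x := hxy.symm
  tauto

/-- Triangles of the link of `F` with the vertex `x` are the edges of the link of `insert x F`,
more generally: for `x ∉ G`, `insert x G` is in the link of `F` iff `x ∉ F` and `G` is in the link
of `insert x F`. -/
theorem insert_mem_link (h : Tri Γ σ) {x : Fin n} {G : Finset (Fin n)} (hx : x ∉ G) :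
    insert x G ∈ link Γ σ U F ↔ x ∉ F ∧ G ∈ link Γ σ U (insert x F) := by
  rw [mem_link h, mem_link h]
  have h1 : insert x G ∪ F = G ∪ insert x F := by
    ext z
    simp only [Finset.mem_union, Finset.mem_insert]
    tauto
  rw [h1, Finset.disjoint_insert_left, Finset.disjoint_insert_right]
  tauto

/-- Proof. `{∅}` is a cycle for `s = 0` (`∅` is in the link), so it is a boundary: there is a set
`D` of one-element members of the link with an odd number of elements (`E = ∅`), so `D` is not
empty. -/
theorem ext_nonempty (h : Tri Γ σ) (hU : #U ≤ 4) (hF : F ∈ Γ) (hc : car σ F ⊆ U)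
    (hlt : #F < #U) : (ext Γ σ U F).Nonempty := by
  have hb := h.ball U hU F hF hc
  have hcyc : IsCycle (link Γ σ U F) 0 {∅} := by
    refine ⟨?_, ?_, ?_⟩
    · intro G hG
      rw [Finset.mem_singleton] at hG
      subst hG
      rw [mem_link h]
      refine ⟨Finset.disjoint_empty_left F, ?_, ?_⟩
      · rw [Finset.empty_union]
        exact hF
      · rw [Finset.empty_union]
        exact hc
    · intro G hG
      rw [Finset.mem_singleton] at hG
      rw [hG, Finset.card_empty]
    · intro E hE
      omega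
  obtain ⟨D, hD, h1, h2⟩ := hb.low 0 (by omega) {∅} hcyc
  have h3 := (h2 ∅ Finset.card_empty).1 (Finset.mem_singleton_self _)
  have h4 : (D.filter fun G => ∅ ⊆ G).Nonempty := by
    rw [← Finset.card_pos]
    exact h3.pos
  obtain ⟨G, hG⟩ := h4
  rw [Finset.mem_filter] at hG
  have h5 := h1 G hG.1
  rw [zero_add, Finset.card_eq_one] at h5
  obtain ⟨x, hx⟩ := h5
  refine ⟨x, (singleton_mem_link h).1 ?_⟩
  rw [← hx]
  exact hD hG.1

private theorem ext_pair_cycle (h : Tri Γ σ) {x y : Fin n} (hx : x ∈ ext Γ σ U F)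
    (hy : y ∈ ext Γ σ U F) (hxy : x ≠ y) : IsCycle (link Γ σ U F) 1 {{x}, {y}} := by
  refine ⟨?_, ?_, ?_⟩
  · intro G hG
    rw [Finset.mem_insert, Finset.mem_singleton] at hG
    rcases hG with rfl | rfl
    · exact (singleton_mem_link h).2 hx
    · exact (singleton_mem_link h).2 hy
  · intro G hG
    rw [Finset.mem_insert, Finset.mem_singleton] at hG
    rcases hG with rfl | rfl
    · exact Finset.card_singleton x
    · exact Finset.card_singleton y
  · intro E hE
    have hE0 : E = ∅ := by
      rw [← Finset.card_eq_zero]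
      omega
    subst hE0
    rw [Finset.filter_true_of_mem fun G _ => Finset.empty_subset G]
    rw [Finset.card_pair (by simpa using hxy)]
    exact even_two

/-- Proof. The sets `{{x} | x ∈ A}` with `A ⊆ ext Γ σ U F` and `#A` even are the cycles of the
link for `s = 1 = #U - #F`. As `car σ F ≠ U`, only `A = ∅` is possible (`BallAt.boundary`); so
`ext` has at most one element, and it is not empty by `ext_nonempty`. -/
theorem ext_card_boundary (h : Tri Γ σ) (hU : #U ≤ 4) (hF : F ∈ Γ) (hc : car σ F ⊆ U)
    (hne : car σ F ≠ U) (hcard : #F + 1 = #U) : #(ext Γ σ U F) = 1 := by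
  have hb := h.ball U hU F hF hc
  have h0 := ext_nonempty h hU hF hc (by omega)
  have h1 : #(ext Γ σ U F) ≤ 1 := by
    rw [Finset.card_le_one]
    intro x hx y hy
    by_contra hxy
    have h2 := ext_pair_cycle h hx hy hxy
    have h3 : #U - #F = 1 := by omega
    have h4 := hb.boundary hne {{x}, {y}} (by rw [h3]; exact h2)
    exact absurd h4 (Finset.insert_ne_empty _ _)
  have h5 := Finset.card_pos.2 h0
  omega

/-- Proof. As before, now there is exactly one nonempty `A ⊆ ext Γ σ U F` with `#A` even
(`BallAt.interior`), so `ext` has exactly two elements (if it had three elements `x, y, z` then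
`{x,y}` and `{x,z}` would be two such sets). -/
theorem ext_card_interior (h : Tri Γ σ) (hU : #U ≤ 4) (hF : F ∈ Γ) (hc : car σ F = U)
    (hcard : #F + 1 = #U) : #(ext Γ σ U F) = 2 := by
  have hb := h.ball U hU F hF hc.le
  have h3 : #U - #F = 1 := by omega
  obtain ⟨C, ⟨hne, hC⟩, huniq⟩ := hb.interior hc
  rw [h3] at hC huniq
  obtain ⟨hC1, hC2, hC3⟩ := hC
  have h4 := hC3 ∅ (by simp)
  rw [Finset.filter_true_of_mem fun G _ => Finset.empty_subset G] at h4
  have h5 := Finset.card_pos.2 hne
  have h6 : 1 < #C := by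
    obtain ⟨k, hk⟩ := h4
    omega
  obtain ⟨G, hG, G', hG', hGG⟩ := Finset.one_lt_card.1 h6
  obtain ⟨x, rfl⟩ := Finset.card_eq_one.1 (hC2 G hG)
  obtain ⟨y, rfl⟩ := Finset.card_eq_one.1 (hC2 G' hG')
  have hx := (singleton_mem_link h).1 (hC1 hG)
  have hy := (singleton_mem_link h).1 (hC1 hG')
  have hxy : x ≠ y := fun h => hGG (by rw [h])
  have h7 : ext Γ σ U F = {x, y} := by
    ext z
    rw [Finset.mem_insert, Finset.mem_singleton]
    constructor
    · intro hz
      by_contra hcon
      push Not at hcon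
      have a1 := huniq {{x}, {y}} ⟨Finset.insert_nonempty _ _, ext_pair_cycle h hx hy hxy⟩
      have a2 := huniq {{x}, {z}} ⟨Finset.insert_nonempty _ _,
        ext_pair_cycle h hx hz (Ne.symm hcon.1)⟩
      have a3 : ({y} : Finset (Fin n)) ∈ ({{x}, {z}} : Finset (Finset (Fin n))) := by
        rw [a2, ← a1]
        exact Finset.mem_insert_of_mem (Finset.mem_singleton_self _)
      rw [Finset.mem_insert, Finset.mem_singleton, Finset.singleton_inj,
        Finset.singleton_inj] at a3
      rcases a3 with a3 | a3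
      · exact hxy a3.symm
      · exact hcon.2 a3.symm
    · rintro (rfl | rfl)
      · exact hx
      · exact hy
  rw [h7, Finset.card_pair hxy]

end Pool.Agent.Lib.MP_fd6ff4_co
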