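import Mathlib
import Pool.Agent.Lib.MP_fd6ff4_co.Ext

/-!
# The relations between the monomials of the interior faces
-/

set_option autoImplicit false

open Finset

namespace Pool.Agent.Lib.MP_fd6ff4_co

variable {d n : ℕ} {K : Type*} [Field K] (a : Fin d → Fin n → K) (σ : Fin n → Finset (Fin d))
  (Γ : Finset (Finset (Fin n)))

/-- what we need to know about the coefficients `a_{i,j}` -/
structure Generic : Prop where
  zero : ∀ i j, i ∉ σ j → a i j = 0
  ne : ∀ i j, i ∈ σ j → a i j ≠ 0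
  det : ∀ x y z : Fin n, x ≠ y → x ≠ z → ∀ i j l : Fin d, i ≠ j → (i ∈ σ x ∧ j ∈ σ x) →
    (j ∈ σ y ∧ l ∈ σ y) → (l ∈ σ z ∧ i ∈ σ z) →
    a i x * a j y * a l z + a j x * a l y * a i z ≠ 0

/-- the ideal generated by the relations and the monomials of the interior faces with at most `N`
vertices -/
noncomputable def lowIdeal (N : ℕ) : Ideal (MvPolynomial (Fin n) K) :=
  Ideal.span {f | ∃ G ∈ Γ, car σ G = Finset.univ ∧ #G ≤ N ∧ f = mon K G} ⊔ relIdeal a Γ

variable {a σ Γ}

theorem aa_ne_zero (ha : Generic a σ) {i : Fin d} {j : Fin n} (h : i ∈ σ j) : a i j ≠ 0 :=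
  ha.ne i j h

theorem aa_eq_zero (ha : Generic a σ) {i : Fin d} {j : Fin n} (h : i ∉ σ j) : a i j = 0 :=
  ha.zero i j h

theorem relIdeal_le_lowIdeal (N : ℕ) : relIdeal a Γ ≤ lowIdeal a σ Γ N :=
  le_sup_right

/-- The relation `θ_i x^F` for a face `F` with `i` not in the carrier of `F`. Proof. `θ_i x^F` is
the sum of `a_{i,x} x_x x^F` over the `x` with `i ∈ σ x`; such an `x` is not in `F`, and the term is
in `srIdeal` if `insert x F` is not a face. -/
theorem row_mem (ha : Generic a σ) {F : Finset (Fin n)} {i : Fin d} (hi : i ∉ car σ F) :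
    ∑ x ∈ univ.filter (fun x => i ∈ σ x ∧ insert x F ∈ Γ),
      MvPolynomial.C (a i x) * mon K (insert x F) ∈ relIdeal a Γ := by
  have hF : ∀ x : Fin n, i ∈ σ x → x ∉ F := by
    intro x hx hxF
    exact hi (Finset.mem_biUnion.2 ⟨x, hxF, hx⟩)
  have h1 : theta a i * mon K F ∈ relIdeal a Γ := by
    refine Ideal.mul_mem_right _ _ ?_
    refine (le_sup_right : _ ≤ relIdeal a Γ) ?_
    exact Ideal.subset_span ⟨i, rfl⟩
  have h2 : theta a i * mon K F
      = ∑ x ∈ univ.filter (fun x => i ∈ σ x ∧ insert x F ∈ Γ),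
          MvPolynomial.C (a i x) * mon K (insert x F)
        + ∑ x ∈ univ.filter (fun x => ¬ (i ∈ σ x ∧ insert x F ∈ Γ)),
          MvPolynomial.C (a i x) * (MvPolynomial.X x * mon K F) := by
    unfold theta
    rw [Finset.sum_mul]
    rw [← Finset.sum_filter_add_sum_filter_not univ (fun x => i ∈ σ x ∧ insert x F ∈ Γ)]
    congr 1
    · refine Finset.sum_congr rfl fun x hx => ?_
      rw [Finset.mem_filter] at hx
      unfold mon
      rw [Finset.prod_insert (hF x hx.2.1), mul_assoc]
    · refine Finset.sum_congr rfl fun x _ => ?_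
      rw [mul_assoc]
  have h3 : ∑ x ∈ univ.filter (fun x => ¬ (i ∈ σ x ∧ insert x F ∈ Γ)),
      MvPolynomial.C (a i x) * (MvPolynomial.X x * mon K F) ∈ relIdeal a Γ := by
    refine Ideal.sum_mem _ fun x hx => ?_
    rw [Finset.mem_filter] at hx
    by_cases hix : i ∈ σ x
    · have hG : insert x F ∉ Γ := fun h => hx.2 ⟨hix, h⟩
      refine Ideal.mul_mem_left _ _ ?_
      refine (le_sup_left : _ ≤ relIdeal a Γ) ?_
      refine Ideal.subset_span ⟨insert x F, hG, ?_⟩
      unfold mon
      rw [Finset.prod_insert (hF x hix)]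
    · rw [aa_eq_zero ha hix, map_zero, zero_mul]
      exact Ideal.zero_mem _
  rw [h2] at h1
  exact (Ideal.add_mem_iff_left _ h3).1 h1

/-- A monomial of a set which contains an interior face with at most `N` vertices. -/
theorem mon_mem_of_subset {N : ℕ} {G H : Finset (Fin n)} (hH : H ∈ Γ)
    (hc : car σ H = Finset.univ) (hN : #H ≤ N) (hHG : H ⊆ G) :
    mon K G ∈ lowIdeal a σ Γ N := by
  have h1 : mon K G = mon K (G \ H) * mon K H := by
    unfold mon
    rw [Finset.prod_sdiff hHG]
  rw [h1]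
  refine Ideal.mul_mem_left _ _ ?_
  refine (le_sup_left : _ ≤ lowIdeal a σ Γ N) ?_
  exact Ideal.subset_span ⟨H, hH, hc, hN, rfl⟩

/-- If the monomials of the interior faces with at most `M` vertices are in `lowIdeal N` then
`lowIdeal M ≤ lowIdeal N`. -/
theorem lowIdeal_le {M N : ℕ}
    (h : ∀ G ∈ Γ, car σ G = Finset.univ → #G ≤ M → mon K G ∈ lowIdeal a σ Γ N) :
    lowIdeal a σ Γ M ≤ lowIdeal a σ Γ N := by
  refine sup_le ?_ (relIdeal_le_lowIdeal N)
  refine Ideal.span_le.2 ?_
  rintro f ⟨G, hG, hc, hM, rfl⟩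
  exact h G hG hc hM

private theorem alg_mon_hom (G : Finset (Fin n)) : (mon K G).IsHomogeneous (#G) := by
  unfold mon
  have h := MvPolynomial.IsHomogeneous.prod G
    (fun j => (MvPolynomial.X j : MvPolynomial (Fin n) K)) (fun _ => 1)
    (fun j _ => MvPolynomial.isHomogeneous_X _ j)
  simpa using h

/-- If all the monomials of the interior faces are in `lowIdeal N` then `L(Γ)` is generated by its
homogeneous elements of degree at most `N`. Proof. `interiorIdeal ≤ lowIdeal N` and the image of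
`lowIdeal N` in the quotient is generated by the images of the monomials of interior faces with at
most `N` vertices, which are in `lowElements N` (a monomial of a face `G` is homogeneous of degree
`#G`). The other inclusion is clear. -/
theorem generated_of {N : ℕ}
    (h : ∀ G ∈ Γ, car σ G = Finset.univ → mon K G ∈ lowIdeal a σ Γ N) :
    GeneratedLE a σ Γ N := by
  have hlow : lowIdeal a σ Γ N ≤ Ideal.comap (Ideal.Quotient.mk (relIdeal a Γ))
      (Ideal.span (lowElements a σ Γ N)) := by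
    refine sup_le ?_ ?_
    · refine Ideal.span_le.2 ?_
      rintro f ⟨G, hG, hc, hM, rfl⟩
      show Ideal.Quotient.mk (relIdeal a Γ) (mon K G) ∈ Ideal.span (lowElements a σ Γ N)
      refine Ideal.subset_span ⟨#G, hM, mon K G, ?_, alg_mon_hom G, rfl⟩
      exact Ideal.subset_span ⟨G, hG, hc, rfl⟩
    · intro f hf
      show Ideal.Quotient.mk (relIdeal a Γ) f ∈ Ideal.span (lowElements a σ Γ N)
      rw [Ideal.Quotient.eq_zero_iff_mem.2 hf]
      exact Ideal.zero_mem _
  unfold GeneratedLE localModule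
  refine le_antisymm ?_ ?_
  · refine Ideal.map_le_iff_le_comap.2 ?_
    refine le_trans ?_ hlow
    refine Ideal.span_le.2 ?_
    rintro f ⟨G, hG, hc, rfl⟩
    exact h G hG hc
  · refine Ideal.span_le.2 ?_
    rintro y ⟨s, _, f, hf, _, rfl⟩
    exact Ideal.mem_map_of_mem _ hf

/-- The determinant of the triangle. -/
theorem det_ne_zero (ha : Generic a σ) {x y z : Fin n} (hxy : x ≠ y) (_hyz : y ≠ z) (hxz : x ≠ z)
    {i j l : Fin d} (hij : i ≠ j) (hx : i ∈ σ x ∧ j ∈ σ x) (hy : j ∈ σ y ∧ l ∈ σ y)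
    (hz : l ∈ σ z ∧ i ∈ σ z) :
    a i x * a j y * a l z + a j x * a l y * a i z ≠ 0 :=
  ha.det x y z hxy hxz i j l hij hx hy hz

/-- Algebraically independent coefficients. The three products in the determinant of the triangle
are different monomials. -/
theorem generic_of {k : Type*} [Field k] [Algebra k K]
    (hind : AlgebraicIndependent k (fun p : Idx σ => a p.1.1 p.1.2))
    (hzero : ∀ i j, i ∉ σ j → a i j = 0) : Generic a σ := by
  classical
  refine ⟨hzero, ?_, ?_⟩
  · intro i j h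
    exact hind.ne_zero ⟨(i, j), h⟩
  · intro x y z hxy hxz i j l hij hx hy hz h0
    have hinj : Function.Injective
        (MvPolynomial.aeval (fun p : Idx σ => a p.1.1 p.1.2) : MvPolynomial (Idx σ) k →ₐ[k] K) :=
      hind
    have h1 : (MvPolynomial.X ⟨(i, x), hx.1⟩ * MvPolynomial.X ⟨(j, y), hy.1⟩ *
        MvPolynomial.X ⟨(l, z), hz.1⟩ + MvPolynomial.X ⟨(j, x), hx.2⟩ *
        MvPolynomial.X ⟨(l, y), hy.2⟩ * MvPolynomial.X ⟨(i, z), hz.2⟩ :
        MvPolynomial (Idx σ) k) = 0 := by
      apply hinj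
      simpa only [map_add, map_mul, MvPolynomial.aeval_X, map_zero] using h0
    have h2 := congrArg (MvPolynomial.eval (fun t : Idx σ =>
      if t = ⟨(i, x), hx.1⟩ ∨ t = ⟨(j, y), hy.1⟩ ∨ t = ⟨(l, z), hz.1⟩ then (1 : k) else 0)) h1
    have h3 : ¬ ((⟨(j, x), hx.2⟩ : Idx σ) = ⟨(i, x), hx.1⟩
        ∨ (⟨(j, x), hx.2⟩ : Idx σ) = ⟨(j, y), hy.1⟩
        ∨ (⟨(j, x), hx.2⟩ : Idx σ) = ⟨(l, z), hz.1⟩) := by
      simp only [Subtype.mk.injEq, Prod.mk.injEq]
      rintro (h | h | h)
      · exact hij h.1.symm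
      · exact hxy h.2
      · exact hxz h.2
    simp only [map_add, map_mul, MvPolynomial.eval_X, map_zero, if_neg h3, zero_mul, add_zero,
      true_or, or_true, if_true, mul_one] at h2
    exact one_ne_zero h2

end Pool.Agent.Lib.MP_fd6ff4_co
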