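import Mathlib
import Pool.Agent.Lib.MP_fd6ff4_co.Ext

/-!
# Arcs in links which are paths

Here `#F + 2 = #U` and `car σ F ≠ U`: the link of `F` in `Γ_U` is a path. `a` is one of its ends.
-/

set_option autoImplicit false

open Finset

namespace Pool.Agent.Lib.MP_fd6ff4_co

variable {d n : ℕ} {Γ : Finset (Finset (Fin n))} {σ : Fin n → Finset (Fin d)}
  {U : Finset (Fin d)} {F : Finset (Fin n)}

/-- `E` is a set of edges of the link of `F` in `Γ_U` with the boundary `{x, a}` -/
def IsArc (Γ : Finset (Finset (Fin n))) (σ : Fin n → Finset (Fin d)) (U : Finset (Fin d))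
    (F : Finset (Fin n)) (a x : Fin n) (E : Finset (Finset (Fin n))) : Prop :=
  E ⊆ link Γ σ U F ∧ (∀ G ∈ E, #G = 2) ∧ ∀ y, Odd #{G ∈ E | y ∈ G} ↔ (y = x ∨ y = a)

open Classical in
/-- the arc from `x` to `a` in the link of `F` in `Γ_U` -/
noncomputable def arc (Γ : Finset (Finset (Fin n))) (σ : Fin n → Finset (Fin d))
    (U : Finset (Fin d)) (F : Finset (Fin n)) (a x : Fin n) : Finset (Finset (Fin n)) :=
  if h : ∃ E, IsArc Γ σ U F a x E then h.choose else ∅

/-- Proof. `C = {{x}, {a}}` is a cycle for `s = 1 < #U - #F` (two elements), so it is the boundary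
of a set `D` of edges (`BallAt.low`); `E = {y}` in the definition of `IsBd`. -/
theorem isArc_arc (h : Tri Γ σ) (hU : #U ≤ 4) (hF : F ∈ Γ) (hc : car σ F ⊆ U)
    (hcard : #F + 2 = #U) {a x : Fin n} (ha : a ∈ ext Γ σ U F) (hx : x ∈ ext Γ σ U F)
    (hax : x ≠ a) : IsArc Γ σ U F a x (arc Γ σ U F a x) := by
  classical
  have hex : ∃ E, IsArc Γ σ U F a x E := by
    have hb := h.ball U hU F hF hc
    have hne : ({x} : Finset (Fin n)) ≠ {a} := fun he => hax (Finset.singleton_injective he)
    have hcyc : IsCycle (link Γ σ U F) 1 {{x}, {a}} := by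
      refine ⟨?_, ?_, ?_⟩
      · intro G hG
        rw [Finset.mem_insert, Finset.mem_singleton] at hG
        rcases hG with rfl | rfl
        · exact (singleton_mem_link h).2 hx
        · exact (singleton_mem_link h).2 ha
      · intro G hG
        rw [Finset.mem_insert, Finset.mem_singleton] at hG
        rcases hG with rfl | rfl <;> exact Finset.card_singleton _
      · intro E hE
        have hE0 : E = ∅ := Finset.card_eq_zero.1 (by omega)
        subst hE0
        have h1 : ({G ∈ ({{x}, {a}} : Finset (Finset (Fin n))) | ∅ ⊆ G}) = {{x}, {a}} :=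
          Finset.filter_true_of_mem fun G _ => Finset.empty_subset G
        rw [h1, Finset.card_pair hne]
        exact even_two
    obtain ⟨D, hD, hD2, hDb⟩ := hb.low 1 (by omega) _ hcyc
    refine ⟨D, hD, hD2, ?_⟩
    intro y
    have h2 := hDb {y} (Finset.card_singleton y)
    simp only [Finset.singleton_subset_iff] at h2
    rw [← h2, Finset.mem_insert, Finset.mem_singleton, Finset.singleton_inj, Finset.singleton_inj]
  unfold arc
  rw [dif_pos hex]
  exact hex.choose_spec

/-- A set of edges of the path with all degrees even is empty. Proof: it is a cycle for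
`s = 2 = #U - #F` (sets `E` with `#E = 1` are the `{y}`), so it is empty by `BallAt.boundary`. -/
theorem even_empty (h : Tri Γ σ) (hU : #U ≤ 4) (hF : F ∈ Γ) (hc : car σ F ⊆ U)
    (hne : car σ F ≠ U) (hcard : #F + 2 = #U) {E : Finset (Finset (Fin n))}
    (hE : E ⊆ link Γ σ U F) (h2 : ∀ G ∈ E, #G = 2) (hev : ∀ y, Even #{G ∈ E | y ∈ G}) :
    E = ∅ := by
  have hb := h.ball U hU F hF hc
  refine hb.boundary hne E ?_
  have h3 : #U - #F = 2 := by omega
  rw [h3]
  refine ⟨hE, h2, ?_⟩
  intro E' hE'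
  obtain ⟨y, rfl⟩ := Finset.card_eq_one.1 (show #E' = 1 by omega)
  simpa only [Finset.singleton_subset_iff] using hev y

/-- the edges of the path at a vertex -/
theorem arc_edges_eq (h : Tri Γ σ) {y : Fin n} (hy : y ∈ ext Γ σ U F) :
    ({G ∈ link Γ σ U F | #G = 2 ∧ y ∈ G} : Finset (Finset (Fin n)))
      = (ext Γ σ U (insert y F)).image fun z => {y, z} := by
  have hyF : y ∉ F := by
    unfold ext at hy
    rw [Finset.mem_filter] at hy
    exact hy.2.1
  ext G
  rw [Finset.mem_filter, Finset.mem_image]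
  constructor
  · rintro ⟨hG, hG2, hyG⟩
    obtain ⟨u, v, huv, rfl⟩ := Finset.card_eq_two.1 hG2
    rw [Finset.mem_insert, Finset.mem_singleton] at hyG
    rcases hyG with rfl | rfl
    · exact ⟨v, ((pair_mem_link h huv).1 hG).2, rfl⟩
    · rw [Finset.pair_comm] at hG
      exact ⟨u, ((pair_mem_link h huv.symm).1 hG).2, Finset.pair_comm _ _⟩
  · rintro ⟨z, hz, rfl⟩
    have hyz : y ≠ z := by
      rintro rfl
      unfold ext at hz
      rw [Finset.mem_filter] at hz
      exact hz.2.1 (Finset.mem_insert_self _ _)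
    exact ⟨(pair_mem_link h hyz).2 ⟨hyF, hz⟩, Finset.card_pair hyz, Finset.mem_insert_self _ _⟩

/-- the number of the edges of the path at a vertex -/
theorem arc_edges_card (h : Tri Γ σ) {y : Fin n} (hy : y ∈ ext Γ σ U F) :
    #{G ∈ link Γ σ U F | #G = 2 ∧ y ∈ G} = #(ext Γ σ U (insert y F)) := by
  rw [arc_edges_eq h hy, Finset.card_image_of_injOn]
  intro z hz w hw hzw
  have hyz : z ≠ y := by
    rintro rfl
    rw [Finset.mem_coe] at hz
    unfold ext at hz
    rw [Finset.mem_filter] at hz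
    exact hz.2.1 (Finset.mem_insert_self _ _)
  have hzw' : ({y, z} : Finset (Fin n)) = {y, w} := hzw
  have h1 : z ∈ ({y, w} : Finset (Fin n)) := by
    rw [← hzw']
    exact Finset.mem_insert_of_mem (Finset.mem_singleton_self z)
  rw [Finset.mem_insert, Finset.mem_singleton] at h1
  exact h1.resolve_left hyz

/-- An inner vertex of the path lies in exactly two edges. Proof: the edges `{y, z}` correspond to
the `z ∈ ext Γ σ U (insert y F)` (`pair_mem_link`), and there are two of them
(`ext_card_interior`). -/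
theorem deg_two (h : Tri Γ σ) (hU : #U ≤ 4) (hcard : #F + 2 = #U) {y : Fin n}
    (hy : y ∈ ext Γ σ U F) (hyU : car σ (insert y F) = U) :
    #{G ∈ link Γ σ U F | #G = 2 ∧ y ∈ G} = 2 := by
  rw [arc_edges_card h hy]
  unfold ext at hy
  rw [Finset.mem_filter] at hy
  refine ext_card_interior h hU hy.2.2.1 hyU ?_
  rw [Finset.card_insert_of_notMem hy.2.1]
  omega

/-- An end of the path lies in exactly one edge (`ext_card_boundary`). -/
theorem deg_one (h : Tri Γ σ) (hU : #U ≤ 4) (hcard : #F + 2 = #U) {y : Fin n}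
    (hy : y ∈ ext Γ σ U F) (hyU : car σ (insert y F) ≠ U) :
    #{G ∈ link Γ σ U F | #G = 2 ∧ y ∈ G} = 1 := by
  rw [arc_edges_card h hy]
  unfold ext at hy
  rw [Finset.mem_filter] at hy
  refine ext_card_boundary h hU hy.2.2.1 hy.2.2.2 hyU ?_
  rw [Finset.card_insert_of_notMem hy.2.1]
  omega

/-- If the inner vertex `y ≠ x` lies on an edge of the arc from `x` to `a` then all the edges of
the path at `y` are in the arc. Proof: the number of the edges of the arc at `y` is even (`y ≠ x`,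
`y ≠ a` since `a` is an end), not `0`, and at most `2` by `deg_two`. -/
theorem arc_full (h : Tri Γ σ) (hU : #U ≤ 4) (hF : F ∈ Γ) (hc : car σ F ⊆ U)
    (hcard : #F + 2 = #U) {a x y : Fin n} (ha : a ∈ ext Γ σ U F)
    (haU : car σ (insert a F) ≠ U) (hx : x ∈ ext Γ σ U F) (hxU : car σ (insert x F) = U)
    (hy : y ∈ ext Γ σ U F) (hyU : car σ (insert y F) = U) (hxy : y ≠ x)
    (hmem : ∃ G ∈ arc Γ σ U F a x, y ∈ G) {G : Finset (Fin n)} (hG : G ∈ link Γ σ U F)
    (hG2 : #G = 2) (hyG : y ∈ G) : G ∈ arc Γ σ U F a x := by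
  have hxa : x ≠ a := by
    rintro rfl
    exact haU hxU
  have hya : y ≠ a := by
    rintro rfl
    exact haU hyU
  obtain ⟨hE, hE2, hodd⟩ := isArc_arc h hU hF hc hcard ha hx hxa
  have h1 : ¬ Odd #{G ∈ arc Γ σ U F a x | y ∈ G} := by
    rw [hodd y]
    rintro (h2 | h2)
    · exact hxy h2
    · exact hya h2
  rw [Nat.not_odd_iff_even] at h1
  have hsub : ({G ∈ arc Γ σ U F a x | y ∈ G} : Finset (Finset (Fin n)))
      ⊆ {G ∈ link Γ σ U F | #G = 2 ∧ y ∈ G} := by
    intro G' hG'
    rw [Finset.mem_filter] at hG' ⊢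
    exact ⟨hE hG'.1, hE2 G' hG'.1, hG'.2⟩
  have hd := deg_two h hU hcard hy hyU
  have hpos : 0 < #{G ∈ arc Γ σ U F a x | y ∈ G} := by
    obtain ⟨G', hG', hyG'⟩ := hmem
    exact Finset.card_pos.2 ⟨G', Finset.mem_filter.2 ⟨hG', hyG'⟩⟩
  have hle : #{G ∈ link Γ σ U F | #G = 2 ∧ y ∈ G} ≤ #{G ∈ arc Γ σ U F a x | y ∈ G} := by
    rw [hd]
    obtain ⟨m, hm⟩ := h1
    omega
  have heq := Finset.eq_of_subset_of_card_le hsub hle
  have h3 : G ∈ ({G ∈ link Γ σ U F | #G = 2 ∧ y ∈ G} : Finset (Finset (Fin n))) :=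
    Finset.mem_filter.2 ⟨hG, hG2, hyG⟩
  rw [← heq] at h3
  exact (Finset.mem_filter.1 h3).1

end Pool.Agent.Lib.MP_fd6ff4_co
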