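import Mathlib
import Pool.Agent.Lib.MP_fd6ff4_co.Ext

/-!
# Two chords of a disc do not cross

Here `#F + 3 = #U` and `car σ F ≠ U`: the link of `F` in `Γ_U` is a disc.
-/

set_option autoImplicit false

open Finset

namespace Pool.Agent.Lib.MP_fd6ff4_co

variable {d n : ℕ} {Γ : Finset (Finset (Fin n))} {σ : Fin n → Finset (Fin d)}
  {U : Finset (Fin d)} {F : Finset (Fin n)}

private theorem Cross_mem_ext {V : Finset (Fin d)} {P : Finset (Fin n)} {x : Fin n} :
    x ∈ ext Γ σ V P ↔ x ∉ P ∧ insert x P ∈ Γ ∧ car σ (insert x P) ⊆ V := by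
  simp [ext]

private theorem Cross_card (h : Tri Γ σ) {P : Finset (Fin n)} (hP : P ∈ link Γ σ U F) :
    #{G ∈ link Γ σ U F | #G = #P + 1 ∧ P ⊆ G} = #(ext Γ σ U (P ∪ F)) := by
  have hP' := (mem_link h).1 hP
  have hinj : Set.InjOn (fun z => insert z P) (ext Γ σ U (P ∪ F) : Set (Fin n)) := by
    intro z hz w hw hzw
    have hz' := (Cross_mem_ext.1 (Finset.mem_coe.1 hz)).1
    have hzP : z ∉ P := fun hh => hz' (mem_union_left _ hh)
    have h1 : z ∈ insert w P := by
      have h2 : insert z P = insert w P := hzw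
      rw [← h2]
      exact mem_insert_self _ _
    rcases mem_insert.1 h1 with h2 | h2
    · exact h2
    · exact absurd h2 hzP
  rw [← card_image_of_injOn hinj]
  congr 1
  ext G
  simp only [mem_filter, mem_image]
  constructor
  · rintro ⟨hG, hc, hs⟩
    obtain ⟨z, hz, rfl⟩ := Finset.exists_eq_insert_iff.2 ⟨hs, hc.symm⟩
    obtain ⟨h1, h2, h3⟩ := (mem_link h).1 hG
    refine ⟨z, Cross_mem_ext.2 ⟨?_, ?_, ?_⟩, rfl⟩
    · rw [mem_union]
      rintro (h4 | h4)
      · exact hz h4
      · exact (Finset.disjoint_left.1 h1) (mem_insert_self _ _) h4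
    · rwa [insert_union] at h2
    · rwa [insert_union] at h3
  · rintro ⟨z, hz, rfl⟩
    obtain ⟨h1, h2, h3⟩ := Cross_mem_ext.1 hz
    have hzP : z ∉ P := fun hh => h1 (mem_union_left _ hh)
    have hzF : z ∉ F := fun hh => h1 (mem_union_right _ hh)
    refine ⟨(mem_link h).2 ⟨?_, ?_, ?_⟩, ?_, subset_insert _ _⟩
    · rw [Finset.disjoint_insert_left]
      exact ⟨hzF, hP'.1⟩
    · rwa [insert_union]
    · rwa [insert_union]
    · rw [card_insert_of_notMem hzP]

/-- The number of the triangles of the disc which contain an edge `{x, y}`: it is `#(ext ..)` for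
the face `{x, y} ∪ F`. -/
theorem card_triangles (h : Tri Γ σ) {x y : Fin n} (hxy : {x, y} ∈ link Γ σ U F) :
    #{G ∈ link Γ σ U F | #G = #({x, y} : Finset (Fin n)) + 1 ∧ {x, y} ⊆ G} =
      #(ext Γ σ U ({x, y} ∪ F)) :=
  Cross_card h hxy

/-- If all the triangles at the boundary vertex `x` of the disc are considered: a set `T` of
triangles which all contain `x`, such that every edge `{x, y}` lies in an even number of members of
`T`, is empty. Proof. The sets `G.erase x`, `G ∈ T`, form a cycle for `s = 2` of the link of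
`insert x F`, and `car σ (insert x F) ≠ U` (`BallAt.boundary`). -/
theorem star_empty (h : Tri Γ σ) (hU : #U ≤ 4) (hcard : #F + 3 = #U) {x : Fin n}
    (hx : x ∈ ext Γ σ U F) (hxU : car σ (insert x F) ≠ U) {T : Finset (Finset (Fin n))}
    (hT : T ⊆ link Γ σ U F) (hT3 : ∀ G ∈ T, #G = 3) (hTx : ∀ G ∈ T, x ∈ G)
    (hev : ∀ y, y ≠ x → Even #{G ∈ T | {x, y} ⊆ G}) : T = ∅ := by
  obtain ⟨hxF, hxΓ, hxc⟩ := Cross_mem_ext.1 hx
  have hcF : #(insert x F) = #F + 1 := card_insert_of_notMem hxF
  have hinj : Set.InjOn (fun G : Finset (Fin n) => G.erase x) (T : Set (Finset (Fin n))) := by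
    intro G hG G' hG' hGG'
    have h1 : G.erase x = G'.erase x := hGG'
    rw [← insert_erase (hTx G (Finset.mem_coe.1 hG)), h1,
      insert_erase (hTx G' (Finset.mem_coe.1 hG'))]
  have hs2 : #U - #(insert x F) = 2 := by omega
  have hcyc : IsCycle (link Γ σ U (insert x F)) (#U - #(insert x F)) (T.image fun G => G.erase x) := by
    rw [hs2]
    refine ⟨?_, ?_, ?_⟩
    · intro G' hG'
      obtain ⟨G, hG, rfl⟩ := mem_image.1 hG'
      have h1 : insert x (G.erase x) ∈ link Γ σ U F := by
        rw [insert_erase (hTx G hG)]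
        exact hT hG
      exact ((insert_mem_link h (notMem_erase x G)).1 h1).2
    · intro G' hG'
      obtain ⟨G, hG, rfl⟩ := mem_image.1 hG'
      rw [card_erase_of_mem (hTx G hG), hT3 G hG]
    · intro E hE
      obtain ⟨y, rfl⟩ := card_eq_one.1 (show #E = 1 by omega)
      by_cases hy : y = x
      · have h0 : ({G ∈ T.image (fun G => G.erase x) | {y} ⊆ G} : Finset (Finset (Fin n))) = ∅ := by
          rw [filter_eq_empty_iff]
          intro G' hG' hyG
          obtain ⟨G, hG, rfl⟩ := mem_image.1 hG'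
          rw [singleton_subset_iff, hy] at hyG
          exact notMem_erase x G hyG
        rw [h0, card_empty]
        exact Even.zero
      · have h1 : ({G ∈ T.image (fun G => G.erase x) | {y} ⊆ G} : Finset (Finset (Fin n)))
            = ({G ∈ T | {x, y} ⊆ G} : Finset (Finset (Fin n))).image fun G => G.erase x := by
          ext G'
          simp only [mem_filter, mem_image, singleton_subset_iff]
          constructor
          · rintro ⟨⟨G, hG, rfl⟩, hyG⟩
            refine ⟨G, ⟨hG, ?_⟩, rfl⟩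
            intro w hw
            rcases mem_insert.1 hw with h2 | h2
            · rw [h2]
              exact hTx G hG
            · rw [mem_singleton.1 h2]
              exact (mem_erase.1 hyG).2
          · rintro ⟨G, ⟨hG, hs⟩, rfl⟩
            exact ⟨⟨G, hG, rfl⟩, mem_erase.2
              ⟨hy, hs (mem_insert_of_mem (mem_singleton_self y))⟩⟩
        rw [h1, card_image_of_injOn (hinj.mono (by
          intro G hG
          exact Finset.mem_coe.2 (mem_filter.1 (Finset.mem_coe.1 hG)).1))]
        exact hev y hy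
  have h0 := (h.ball U hU (insert x F) hxΓ hxc).boundary hxU _ hcyc
  exact image_eq_empty.1 h0

/-- Two chords of the disc do not cross. `β` is a set of boundary edges which together with the
chord `{p, q}` is a cycle, `p'` is inside the arc `β` (all the boundary edges at `p'` are in `β`),
`q'` is outside (no boundary edge at `q'` is in `β`), both are boundary vertices. Then `{p', q'}` is
not an edge.

Proof. By `BallAt.low` (`s = 2 < 3`) the cycle `insert {p, q} β` is the boundary of a set `D` of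
triangles (`D ⊆ link`, all with three elements). `{p, q}` is not in `β` by `hpqU` and `hβU`.
(1) All the triangles `G` of the disc (`G ∈ link`, `#G = 3`) with `p' ∈ G` are in `D`. Put
`T = {G | #G = 3, p' ∈ G, G ∉ D}`; by `star_empty` it is enough that each edge `{p', y}`, `y ≠ p'`,
is in an even number of members of `T`. If `{p', y}` is not in the link there is none. If
`car σ ({p', y} ∪ F) = U` there are exactly two triangles on `{p', y}` (`card_triangles`,
`ext_card_interior`), and an even number of them is in `D` because `{p', y}` is neither `{p, q}`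
nor a member of `β` (`hβU`). If `car σ ({p', y} ∪ F) ≠ U` there is exactly one triangle
(`ext_card_boundary`) and `{p', y} ∈ β` (`hin`), so the number of those in `D` is odd: it is in `D`.
(2) No triangle `G` with `q' ∈ G` is in `D`. Same argument with `T = {G | #G = 3, q' ∈ G, G ∈ D}`:
for an inner edge as before; for a boundary edge `{q', y}` it is not in `β` (`hout`), so the number
of triangles of `D` on it is even and at most one, so `0`.
(3) The edge `{p', q'}` is in at least one triangle (`ext_nonempty` for `{p', q'} ∪ F`), which is in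
`D` by (1) and not in `D` by (2). -/
theorem no_cross (h : Tri Γ σ) (hU : #U ≤ 4) (hF : F ∈ Γ) (hc : car σ F ⊆ U)
    (hne : car σ F ≠ U) (hcard : #F + 3 = #U) {β : Finset (Finset (Fin n))}
    (hβ : β ⊆ link Γ σ U F) (hβ2 : ∀ G ∈ β, #G = 2) (hβU : ∀ G ∈ β, car σ (G ∪ F) ≠ U)
    {p q p' q' : Fin n} (hpq : p ≠ q) (hpql : {p, q} ∈ link Γ σ U F)
    (hpqU : car σ ({p, q} ∪ F) = U)
    (hcyc : ∀ y, Odd #{G ∈ β | y ∈ G} ↔ (y = p ∨ y = q))
    (hp'q' : p' ≠ q') (hp'q'l : {p', q'} ∈ link Γ σ U F)
    (hp'p : p' ≠ p) (hp'q : p' ≠ q) (hq'p : q' ≠ p) (hq'q : q' ≠ q)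
    (hp'U : car σ (insert p' F) ≠ U) (hq'U : car σ (insert q' F) ≠ U)
    (hin : ∀ G ∈ link Γ σ U F, #G = 2 → p' ∈ G → car σ (G ∪ F) ≠ U → G ∈ β)
    (hout : ∀ G ∈ β, q' ∉ G) : False := by
  have hpqβ : ({p, q} : Finset (Fin n)) ∉ β := fun hh => hβU _ hh hpqU
  have hcycle : IsCycle (link Γ σ U F) 2 (insert {p, q} β) := by
    refine ⟨?_, ?_, ?_⟩
    · intro G hG
      rcases mem_insert.1 hG with h1 | h1
      · rw [h1]
        exact hpql
      · exact hβ h1
    · intro G hG
      rcases mem_insert.1 hG with h1 | h1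
      · rw [h1]
        exact card_pair hpq
      · exact hβ2 G h1
    · intro E hE
      obtain ⟨y, rfl⟩ := card_eq_one.1 (show #E = 1 by omega)
      simp only [singleton_subset_iff]
      rw [filter_insert]
      by_cases hy : y ∈ ({p, q} : Finset (Fin n))
      · rw [if_pos hy, card_insert_of_notMem (fun hh => hpqβ (mem_filter.1 hh).1)]
        have h1 : y = p ∨ y = q := by simpa using hy
        exact ((hcyc y).2 h1).add_one
      · rw [if_neg hy, ← Nat.not_odd_iff_even]
        intro hodd
        apply hy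
        have h1 := (hcyc y).1 hodd
        simpa using h1
  obtain ⟨D, hD, hD3, hDE⟩ := (h.ball U hU F hF hc).low 2 (by omega) _ hcycle
  have hp'l : {p'} ∈ link Γ σ U F :=
    link_down h hp'q'l (singleton_subset_iff.2 (mem_insert_self _ _))
  have hq'l : {q'} ∈ link Γ σ U F :=
    link_down h hp'q'l (singleton_subset_iff.2 (mem_insert_of_mem (mem_singleton_self _)))
  have hp'e := (singleton_mem_link h).1 hp'l
  have hq'e := (singleton_mem_link h).1 hq'l
  -- (1)
  have hT1 : ({G ∈ link Γ σ U F | #G = 3 ∧ p' ∈ G ∧ G ∉ D} : Finset (Finset (Fin n))) = ∅ := by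
    refine star_empty h hU hcard hp'e hp'U (filter_subset _ _) (fun G hG => (mem_filter.1 hG).2.1)
      (fun G hG => (mem_filter.1 hG).2.2.1) ?_
    intro y hy
    by_cases hE : ({p', y} : Finset (Fin n)) ∈ link Γ σ U F
    swap
    · have h0 : ({G ∈ ({G ∈ link Γ σ U F | #G = 3 ∧ p' ∈ G ∧ G ∉ D} : Finset (Finset (Fin n)))
          | {p', y} ⊆ G} : Finset (Finset (Fin n))) = ∅ := by
        rw [filter_eq_empty_iff]
        intro G hG hs
        exact hE (link_down h (mem_filter.1 hG).1 hs)
      rw [h0, card_empty]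
      exact Even.zero
    have hE2 : #({p', y} : Finset (Fin n)) = 2 := card_pair (Ne.symm hy)
    obtain ⟨hd, hEΓ, hEc⟩ := (mem_link h).1 hE
    have hEF : #({p', y} ∪ F : Finset (Fin n)) + 1 = #U := by
      rw [card_union_of_disjoint hd, hE2]
      omega
    have hA := card_triangles h hE
    rw [hE2] at hA
    -- decomposition
    have hsplit : #{G ∈ link Γ σ U F | #G = 2 + 1 ∧ ({p', y} : Finset (Fin n)) ⊆ G}
        = #{G ∈ D | ({p', y} : Finset (Fin n)) ⊆ G}
          + #{G ∈ ({G ∈ link Γ σ U F | #G = 3 ∧ p' ∈ G ∧ G ∉ D} : Finset (Finset (Fin n)))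
            | {p', y} ⊆ G} := by
      rw [← card_union_of_disjoint]
      · congr 1
        ext G
        simp only [mem_filter, mem_union]
        constructor
        · rintro ⟨h1, h2, h3⟩
          by_cases hGD : G ∈ D
          · exact Or.inl ⟨hGD, h3⟩
          · exact Or.inr ⟨⟨h1, h2, h3 (mem_insert_self _ _), hGD⟩, h3⟩
        · rintro (⟨h1, h3⟩ | ⟨⟨h1, h2, _, _⟩, h3⟩)
          · exact ⟨hD h1, hD3 G h1, h3⟩
          · exact ⟨h1, h2, h3⟩
      · rw [Finset.disjoint_left]
        intro G h1 h2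
        exact (mem_filter.1 (mem_filter.1 h2).1).2.2.2 (mem_filter.1 h1).1
    have hneq : ({p', y} : Finset (Fin n)) ≠ {p, q} := by
      intro hh
      have h1 : p' ∈ ({p, q} : Finset (Fin n)) := by
        rw [← hh]
        exact mem_insert_self _ _
      rcases mem_insert.1 h1 with h2 | h2
      · exact hp'p h2
      · exact hp'q (mem_singleton.1 h2)
    by_cases hEU : car σ ({p', y} ∪ F) = U
    · have h2 := ext_card_interior h hU hEΓ hEU hEF
      have h3 : Even #{G ∈ D | ({p', y} : Finset (Fin n)) ⊆ G} := by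
        rw [← Nat.not_odd_iff_even]
        intro hodd
        rcases mem_insert.1 ((hDE _ hE2).2 hodd) with h4 | h4
        · exact hneq h4
        · exact hβU _ h4 hEU
      rw [hA, h2] at hsplit
      have h5 : Even (#{G ∈ D | ({p', y} : Finset (Fin n)) ⊆ G}
          + #{G ∈ ({G ∈ link Γ σ U F | #G = 3 ∧ p' ∈ G ∧ G ∉ D} : Finset (Finset (Fin n)))
            | {p', y} ⊆ G}) := by
        rw [← hsplit]
        exact even_two
      exact (Nat.even_add.1 h5).1 h3
    · have h2 := ext_card_boundary h hU hEΓ hEc hEU hEF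
      have h3 : Odd #{G ∈ D | ({p', y} : Finset (Fin n)) ⊆ G} :=
        (hDE _ hE2).1 (mem_insert_of_mem (hin _ hE hE2 (mem_insert_self _ _) hEU))
      rw [hA, h2] at hsplit
      have h4 := h3.pos
      have h5 : #{G ∈ ({G ∈ link Γ σ U F | #G = 3 ∧ p' ∈ G ∧ G ∉ D} : Finset (Finset (Fin n)))
            | {p', y} ⊆ G} = 0 := by omega
      rw [h5]
      exact Even.zero
  -- (2)
  have hT2 : ({G ∈ link Γ σ U F | #G = 3 ∧ q' ∈ G ∧ G ∈ D} : Finset (Finset (Fin n))) = ∅ := by
    refine star_empty h hU hcard hq'e hq'U (filter_subset _ _) (fun G hG => (mem_filter.1 hG).2.1)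
      (fun G hG => (mem_filter.1 hG).2.2.1) ?_
    intro y hy
    have hE2 : #({q', y} : Finset (Fin n)) = 2 := card_pair (Ne.symm hy)
    have h1 : ({G ∈ ({G ∈ link Γ σ U F | #G = 3 ∧ q' ∈ G ∧ G ∈ D} : Finset (Finset (Fin n)))
          | {q', y} ⊆ G} : Finset (Finset (Fin n)))
        = ({G ∈ D | {q', y} ⊆ G} : Finset (Finset (Fin n))) := by
      ext G
      simp only [mem_filter]
      constructor
      · rintro ⟨⟨_, _, _, h2⟩, h3⟩
        exact ⟨h2, h3⟩
      · rintro ⟨h2, h3⟩
        exact ⟨⟨hD h2, hD3 G h2, h3 (mem_insert_self _ _), h2⟩, h3⟩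
    rw [h1, ← Nat.not_odd_iff_even]
    intro hodd
    rcases mem_insert.1 ((hDE _ hE2).2 hodd) with h4 | h4
    · have h5 : q' ∈ ({p, q} : Finset (Fin n)) := by
        rw [← h4]
        exact mem_insert_self _ _
      rcases mem_insert.1 h5 with h6 | h6
      · exact hq'p h6
      · exact hq'q (mem_singleton.1 h6)
    · exact hout _ h4 (mem_insert_self _ _)
  -- (3)
  obtain ⟨hd, hEΓ, hEc⟩ := (mem_link h).1 hp'q'l
  have hE2 : #({p', q'} : Finset (Fin n)) = 2 := card_pair hp'q'
  have hlt : #({p', q'} ∪ F : Finset (Fin n)) < #U := by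
    rw [card_union_of_disjoint hd, hE2]
    omega
  obtain ⟨z, hz⟩ := ext_nonempty h hU hEΓ hEc hlt
  have hA := card_triangles h hp'q'l
  have hpos : 0 < #{G ∈ link Γ σ U F | #G = #({p', q'} : Finset (Fin n)) + 1 ∧
      ({p', q'} : Finset (Fin n)) ⊆ G} := by
    rw [hA]
    exact card_pos.2 ⟨z, hz⟩
  obtain ⟨G, hG⟩ := card_pos.1 hpos
  obtain ⟨hGl, hGc, hGs⟩ := mem_filter.1 hG
  rw [hE2] at hGc
  have hGD : G ∈ D := by
    by_contra hGD
    have h1 : G ∈ ({G ∈ link Γ σ U F | #G = 3 ∧ p' ∈ G ∧ G ∉ D} : Finset (Finset (Fin n))) :=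
      mem_filter.2 ⟨hGl, hGc, hGs (mem_insert_self _ _), hGD⟩
    rw [hT1] at h1
    exact notMem_empty _ h1
  have h1 : G ∈ ({G ∈ link Γ σ U F | #G = 3 ∧ q' ∈ G ∧ G ∈ D} : Finset (Finset (Fin n))) :=
    mem_filter.2 ⟨hGl, hGc, hGs (mem_insert_of_mem (mem_singleton_self _)), hGD⟩
  rw [hT2] at h1
  exact notMem_empty _ h1

end Pool.Agent.Lib.MP_fd6ff4_co
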