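import Mathlib
import Pool.Agent.Lib.MP_fd6ff4_co.Defs

/-!
# Handshake lemma
-/

set_option autoImplicit false

open Finset

namespace Pool.Agent.Lib.MP_fd6ff4_co

variable {n : ℕ}

/-- The handshake lemma: for a finite set of two-element sets the number of the vertices of odd
degree is even. -/
theorem handshake {E : Finset (Finset (Fin n))} (h2 : ∀ G ∈ E, #G = 2) :
    Even #{y : Fin n | Odd #{G ∈ E | y ∈ G}} := by
  rw [← Finset.even_sum_iff_even_card_odd]
  have h1 : ∑ y : Fin n, #{G ∈ E | y ∈ G} = ∑ G ∈ E, #G := by
    simp only [Finset.card_filter]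
    rw [Finset.sum_comm]
    refine Finset.sum_congr rfl fun G _ => ?_
    rw [← Finset.card_filter]
    congr 1
    ext y
    simp
  rw [h1, Finset.sum_congr rfl h2, Finset.sum_const, smul_eq_mul]
  exact even_two.mul_left _

end Pool.Agent.Lib.MP_fd6ff4_co
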