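import Mathlib
import Pool.Agent.Lib.MP_fd6ff4_co.Arc
import Pool.Agent.Lib.MP_fd6ff4_co.Hand

/-!
# The order of the inner vertices of a path
-/

set_option autoImplicit false

open Finset

namespace Pool.Agent.Lib.MP_fd6ff4_co

variable {d n : ℕ} {Γ : Finset (Finset (Fin n))} {σ : Fin n → Finset (Fin d)}
  {U : Finset (Fin d)} {F : Finset (Fin n)}

/-- the edges of the path at the vertex `z` -/
private def orderL (Γ : Finset (Finset (Fin n))) (σ : Fin n → Finset (Fin d))
    (U : Finset (Fin d)) (F : Finset (Fin n)) (z : Fin n) : Finset (Finset (Fin n)) :=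
  {G ∈ link Γ σ U F | #G = 2 ∧ z ∈ G}

private theorem order_sub (h : Tri Γ σ) (hU : #U ≤ 4) (hF : F ∈ Γ) (hc : car σ F ⊆ U)
    (hcard : #F + 2 = #U) {a x : Fin n} (ha : a ∈ ext Γ σ U F) (hx : x ∈ ext Γ σ U F)
    (hax : x ≠ a) (z : Fin n) :
    ({G ∈ arc Γ σ U F a x | z ∈ G} : Finset (Finset (Fin n))) ⊆ orderL Γ σ U F z := by
  obtain ⟨hE, hE2, -⟩ := isArc_arc h hU hF hc hcard ha hx hax
  intro G hG
  unfold orderL
  rw [Finset.mem_filter] at hG ⊢
  exact ⟨hE hG.1, hE2 G hG.1, hG.2⟩

/-- at a vertex outside of the link -/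
private theorem order_out (h : Tri Γ σ) {z : Fin n} (hz : z ∉ ext Γ σ U F) :
    orderL Γ σ U F z = ∅ := by
  unfold orderL
  rw [Finset.filter_eq_empty_iff]
  rintro G hG ⟨-, hzG⟩
  exact hz ((singleton_mem_link h).1 (link_down h hG (Finset.singleton_subset_iff.2 hzG)))

/-- at the end `a` -/
private theorem order_a (h : Tri Γ σ) (hU : #U ≤ 4) (hF : F ∈ Γ) (hc : car σ F ⊆ U)
    (hcard : #F + 2 = #U) {a x : Fin n} (ha : a ∈ ext Γ σ U F)
    (haU : car σ (insert a F) ≠ U) (hx : x ∈ ext Γ σ U F) (hax : x ≠ a) :
    ({G ∈ arc Γ σ U F a x | a ∈ G} : Finset (Finset (Fin n))) = orderL Γ σ U F a := by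
  refine Finset.eq_of_subset_of_card_le (order_sub h hU hF hc hcard ha hx hax a) ?_
  have h1 : #(orderL Γ σ U F a) = 1 := deg_one h hU hcard ha haU
  obtain ⟨-, -, ho⟩ := isArc_arc h hU hF hc hcard ha hx hax
  have h2 := (ho a).2 (Or.inr rfl)
  rw [h1]
  exact h2.pos

/-- at the other end and outside -/
private theorem order_end (h : Tri Γ σ) (hU : #U ≤ 4) (hF : F ∈ Γ) (hc : car σ F ⊆ U)
    (hcard : #F + 2 = #U) {a x z : Fin n} (ha : a ∈ ext Γ σ U F) (hx : x ∈ ext Γ σ U F)
    (hxU : car σ (insert x F) = U) (hax : x ≠ a) (hza : z ≠ a)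
    (hz : z ∉ ext Γ σ U F ∨ car σ (insert z F) ≠ U) :
    ({G ∈ arc Γ σ U F a x | z ∈ G} : Finset (Finset (Fin n))) = ∅ := by
  have hs := order_sub h hU hF hc hcard ha hx hax z
  by_cases hze : z ∈ ext Γ σ U F
  · have hzU : car σ (insert z F) ≠ U := by
      rcases hz with h1 | h1
      · exact absurd hze h1
      · exact h1
    have h1 : #(orderL Γ σ U F z) = 1 := deg_one h hU hcard hze hzU
    obtain ⟨-, -, ho⟩ := isArc_arc h hU hF hc hcard ha hx hax
    have hzx : z ≠ x := by
      rintro rfl
      exact hzU hxU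
    have h2 : ¬ Odd #{G ∈ arc Γ σ U F a x | z ∈ G} := by
      rw [ho z]
      rintro (h3 | h3)
      · exact hzx h3
      · exact hza h3
    have h3 := Finset.card_le_card hs
    rw [h1] at h3
    rw [← Finset.card_eq_zero]
    rcases Nat.lt_or_ge #{G ∈ arc Γ σ U F a x | z ∈ G} 1 with h4 | h4
    · omega
    · exfalso
      have h5 : #{G ∈ arc Γ σ U F a x | z ∈ G} = 1 := le_antisymm h3 h4
      exact h2 (by rw [h5]; exact odd_one)
  · rw [order_out h hze] at hs
    exact Finset.subset_empty.1 hs

/-- at an inner vertex other than `x` -/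
private theorem order_inner (h : Tri Γ σ) (hU : #U ≤ 4) (hF : F ∈ Γ) (hc : car σ F ⊆ U)
    (hcard : #F + 2 = #U) {a x z : Fin n} (ha : a ∈ ext Γ σ U F)
    (haU : car σ (insert a F) ≠ U) (hx : x ∈ ext Γ σ U F) (hxU : car σ (insert x F) = U)
    (hz : z ∈ ext Γ σ U F) (hzU : car σ (insert z F) = U) (hzx : z ≠ x) :
    ({G ∈ arc Γ σ U F a x | z ∈ G} : Finset (Finset (Fin n))) = ∅ ∨
    ({G ∈ arc Γ σ U F a x | z ∈ G} : Finset (Finset (Fin n))) = orderL Γ σ U F z := by
  have hax : x ≠ a := by
    rintro rfl
    exact haU hxU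
  rcases Finset.eq_empty_or_nonempty
    ({G ∈ arc Γ σ U F a x | z ∈ G} : Finset (Finset (Fin n))) with h1 | ⟨G₀, hG₀⟩
  · exact Or.inl h1
  · right
    rw [Finset.mem_filter] at hG₀
    refine Finset.Subset.antisymm (order_sub h hU hF hc hcard ha hx hax z) ?_
    intro G hG
    unfold orderL at hG
    rw [Finset.mem_filter] at hG ⊢
    exact ⟨arc_full h hU hF hc hcard ha haU hx hxU hz hzU hzx ⟨G₀, hG₀.1, hG₀.2⟩ hG.1 hG.2.1
      hG.2.2, hG.2.2⟩

private theorem order_two (h : Tri Γ σ) (hU : #U ≤ 4) (hcard : #F + 2 = #U) {z : Fin n}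
    (hz : z ∈ ext Γ σ U F) (hzU : car σ (insert z F) = U) : #(orderL Γ σ U F z) = 2 :=
  deg_two h hU hcard hz hzU

/-- (α) Of two inner vertices `x ≠ y` of the path one lies on the arc from the other one to `a`.
Proof. Suppose not. Let `I` be the intersection of the two arcs. The degree of `a` in `I` is `1`:
`a` lies in exactly one edge of the path (`deg_one`), and it is in both arcs, as the degree of `a`
in the arcs is odd. The degree of `x` in `I` is `0` because `x` is not on the arc from `y`, same
for `y`. At any other vertex `z` the degree is even: if `z` is an inner vertex then by `arc_full`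
each of the two arcs contains both edges at `z` or none; if `z` is the other end (only one edge,
`deg_one`), its degree in the arc from `x` is even and at most `1`, so `0`; if `z` is not in `ext`
no edge contains it (`link_down`, `singleton_mem_link`). So `a` is the only vertex of odd degree:
contradiction to `handshake`. -/
theorem arc_total (h : Tri Γ σ) (hU : #U ≤ 4) (hF : F ∈ Γ) (hc : car σ F ⊆ U)
    (hcard : #F + 2 = #U) {a x y : Fin n} (ha : a ∈ ext Γ σ U F)
    (haU : car σ (insert a F) ≠ U) (hx : x ∈ ext Γ σ U F) (hxU : car σ (insert x F) = U)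
    (hy : y ∈ ext Γ σ U F) (hyU : car σ (insert y F) = U) (hxy : x ≠ y) :
    (∃ G ∈ arc Γ σ U F a x, y ∈ G) ∨ (∃ G ∈ arc Γ σ U F a y, x ∈ G) := by
  by_contra hcon
  push Not at hcon
  obtain ⟨hyN, hxM⟩ := hcon
  have hax : x ≠ a := by
    rintro rfl
    exact haU hxU
  have hay : y ≠ a := by
    rintro rfl
    exact haU hyU
  obtain ⟨hN, hN2, hNo⟩ := isArc_arc h hU hF hc hcard ha hx hax
  set N := arc Γ σ U F a x with hNdef
  set M := arc Γ σ U F a y with hMdef
  have hI : ∀ z, ({G ∈ N ∩ M | z ∈ G} : Finset (Finset (Fin n)))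
      = {G ∈ N | z ∈ G} ∩ {G ∈ M | z ∈ G} := by
    intro z
    ext G
    simp only [Finset.mem_filter, Finset.mem_inter]
    tauto
  have hxM0 : ({G ∈ M | x ∈ G} : Finset (Finset (Fin n))) = ∅ :=
    Finset.filter_eq_empty_iff.2 fun G hG => hxM G hG
  have hyN0 : ({G ∈ N | y ∈ G} : Finset (Finset (Fin n))) = ∅ :=
    Finset.filter_eq_empty_iff.2 fun G hG => hyN G hG
  have hhs := handshake (E := N ∩ M) (fun G hG => hN2 G (Finset.mem_inter.1 hG).1)
  have hset : ({z : Fin n | Odd #{G ∈ N ∩ M | z ∈ G}} : Finset (Fin n)) = {a} := by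
    ext z
    rw [Finset.mem_filter, Finset.mem_singleton, hI z]
    constructor
    · rintro ⟨-, hodd⟩
      by_contra hza
      by_cases hin : z ∈ ext Γ σ U F ∧ car σ (insert z F) = U
      · by_cases hzx : z = x
        · subst hzx
          rw [hxM0, Finset.inter_empty, Finset.card_empty] at hodd
          exact absurd hodd (by decide)
        · by_cases hzy : z = y
          · subst hzy
            rw [hyN0, Finset.empty_inter, Finset.card_empty] at hodd
            exact absurd hodd (by decide)
          · have h1 := order_inner h hU hF hc hcard ha haU hx hxU hin.1 hin.2 hzx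
            have h2 := order_inner h hU hF hc hcard ha haU hy hyU hin.1 hin.2 hzy
            rw [← hNdef] at h1
            rw [← hMdef] at h2
            rcases h1 with h1 | h1
            · rw [h1, Finset.empty_inter, Finset.card_empty] at hodd
              exact absurd hodd (by decide)
            · rcases h2 with h2 | h2
              · rw [h2, Finset.inter_empty, Finset.card_empty] at hodd
                exact absurd hodd (by decide)
              · rw [h1, h2, Finset.inter_self, order_two h hU hcard hin.1 hin.2] at hodd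
                exact absurd hodd (by decide)
      · have h3 : z ∉ ext Γ σ U F ∨ car σ (insert z F) ≠ U := by
          by_contra h4
          push Not at h4
          exact hin h4
        have h1 := order_end h hU hF hc hcard ha hx hxU hax hza h3
        rw [← hNdef] at h1
        rw [h1, Finset.empty_inter, Finset.card_empty] at hodd
        exact absurd hodd (by decide)
    · rintro rfl
      refine ⟨Finset.mem_univ _, ?_⟩
      have h1 := order_a h hU hF hc hcard ha haU hx hax
      have h2 := order_a h hU hF hc hcard ha haU hy hay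
      rw [← hNdef] at h1
      rw [← hMdef] at h2
      rw [h1, h2, Finset.inter_self]
      have h3 : #(orderL Γ σ U F z) = 1 := deg_one h hU hcard ha haU
      rw [h3]
      exact odd_one
  rw [hset, Finset.card_singleton] at hhs
  exact absurd hhs (by decide)

/-- (β) If the inner vertex `y ≠ x` lies on the arc from `x` to `a` then the arc from `y` to `a`
is shorter. Proof. Let `N` be the arc from `x`, `M` the arc from `y`, `T = M \ N`. All the edges at
`y` are in `N` (`arc_full`), so the degree of `y` in `T` is `0`. The only edge at `a` is in `M` and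
`N`, so the degree of `a` in `T` is `0`. At an inner vertex `z ≠ x, y` each of `M`, `N` contains
both edges or none, so the degree in `T` is even; at the other end the degrees in `M` and `N` are
`0`. At `x` the degree in `N` is odd, so it is `1` (`deg_two`), and the degree in `M` is `0` or `2`;
if it is `2` then the degree of `x` in `T` is `1` and `x` is the only vertex of odd degree in `T`,
a contradiction to `handshake`; so it is `0` and the degree in `T` is `0`. Hence `T = ∅`
(`even_empty`), `M ⊆ N`, and `M ≠ N` because `y` has odd degree in `M` and even degree in `N`. -/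
theorem arc_lt (h : Tri Γ σ) (hU : #U ≤ 4) (hF : F ∈ Γ) (hc : car σ F ⊆ U)
    (hne : car σ F ≠ U) (hcard : #F + 2 = #U) {a x y : Fin n} (ha : a ∈ ext Γ σ U F)
    (haU : car σ (insert a F) ≠ U) (hx : x ∈ ext Γ σ U F) (hxU : car σ (insert x F) = U)
    (hy : y ∈ ext Γ σ U F) (hyU : car σ (insert y F) = U) (hxy : y ≠ x)
    (hmem : ∃ G ∈ arc Γ σ U F a x, y ∈ G) : #(arc Γ σ U F a y) < #(arc Γ σ U F a x) := by
  have hax : x ≠ a := by
    rintro rfl
    exact haU hxU
  have hay : y ≠ a := by
    rintro rfl
    exact haU hyU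
  obtain ⟨hN, hN2, hNo⟩ := isArc_arc h hU hF hc hcard ha hx hax
  obtain ⟨hM, hM2, hMo⟩ := isArc_arc h hU hF hc hcard ha hy hay
  have hNa := order_a h hU hF hc hcard ha haU hx hax
  have hMa := order_a h hU hF hc hcard ha haU hy hay
  have hNy : ({G ∈ arc Γ σ U F a x | y ∈ G} : Finset (Finset (Fin n))) = orderL Γ σ U F y := by
    rcases order_inner h hU hF hc hcard ha haU hx hxU hy hyU hxy with h1 | h1
    · obtain ⟨G, hG, hyG⟩ := hmem
      have h2 : G ∈ ({G ∈ arc Γ σ U F a x | y ∈ G} : Finset (Finset (Fin n))) :=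
        Finset.mem_filter.2 ⟨hG, hyG⟩
      rw [h1] at h2
      exact absurd h2 (Finset.notMem_empty G)
    · exact h1
  have hNin := fun (z : Fin n) (h1 : z ∈ ext Γ σ U F) (h2 : car σ (insert z F) = U)
    (h3 : z ≠ x) => order_inner h hU hF hc hcard ha haU hx hxU h1 h2 h3
  have hMin := fun (z : Fin n) (h1 : z ∈ ext Γ σ U F) (h2 : car σ (insert z F) = U)
    (h3 : z ≠ y) => order_inner h hU hF hc hcard ha haU hy hyU h1 h2 h3
  have hNend := fun (z : Fin n) (h1 : z ≠ a)
    (h2 : z ∉ ext Γ σ U F ∨ car σ (insert z F) ≠ U) =>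
    order_end h hU hF hc hcard ha hx hxU hax h1 h2
  have hMend := fun (z : Fin n) (h1 : z ≠ a)
    (h2 : z ∉ ext Γ σ U F ∨ car σ (insert z F) ≠ U) =>
    order_end h hU hF hc hcard ha hy hyU hay h1 h2
  have hMsub := order_sub h hU hF hc hcard ha hy hay
  have hNsub := order_sub h hU hF hc hcard ha hx hax
  generalize arc Γ σ U F a x = N at *
  generalize arc Γ σ U F a y = M at *
  have hI : ∀ z, ({G ∈ M \ N | z ∈ G} : Finset (Finset (Fin n)))
      = {G ∈ M | z ∈ G} \ {G ∈ N | z ∈ G} := by
    intro z
    ext G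
    simp only [Finset.mem_filter, Finset.mem_sdiff]
    tauto
  -- the degrees at the vertices other than `x` are even
  have heven : ∀ z, z ≠ x → Even #{G ∈ M \ N | z ∈ G} := by
    intro z hzx
    rw [hI z]
    by_cases hza : z = a
    · subst hza
      rw [hNa, hMa, Finset.sdiff_self, Finset.card_empty]
      exact Even.zero
    by_cases hin : z ∈ ext Γ σ U F ∧ car σ (insert z F) = U
    · by_cases hzy : z = y
      · subst hzy
        rw [hNy, Finset.sdiff_eq_empty_iff_subset.2 (hMsub z), Finset.card_empty]
        exact Even.zero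
      · rcases hMin z hin.1 hin.2 hzy with h2 | h2
        · rw [h2, Finset.empty_sdiff, Finset.card_empty]
          exact Even.zero
        · rcases hNin z hin.1 hin.2 hzx with h1 | h1
          · rw [h1, h2, Finset.sdiff_empty, order_two h hU hcard hin.1 hin.2]
            exact even_two
          · rw [h1, h2, Finset.sdiff_self, Finset.card_empty]
            exact Even.zero
    · have h3 : z ∉ ext Γ σ U F ∨ car σ (insert z F) ≠ U := by
        by_contra h4
        push Not at h4
        exact hin h4
      rw [hMend z hza h3, Finset.empty_sdiff, Finset.card_empty]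
      exact Even.zero
  have hhs := handshake (E := M \ N) (fun G hG => hM2 G (Finset.mem_sdiff.1 hG).1)
  -- the degree at `x` is even, too
  have hevx : Even #{G ∈ M \ N | x ∈ G} := by
    by_contra hodd
    rw [Nat.not_even_iff_odd] at hodd
    have hset : ({z : Fin n | Odd #{G ∈ M \ N | z ∈ G}} : Finset (Fin n)) = {x} := by
      ext z
      rw [Finset.mem_filter, Finset.mem_singleton]
      constructor
      · rintro ⟨-, h1⟩
        by_contra hzx
        rw [← Nat.not_even_iff_odd] at h1
        exact h1 (heven z hzx)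
      · rintro rfl
        exact ⟨Finset.mem_univ _, hodd⟩
    rw [hset, Finset.card_singleton] at hhs
    exact absurd hhs (by decide)
  have hT : M \ N = ∅ := by
    refine even_empty h hU hF hc hne hcard (fun G hG => hM (Finset.mem_sdiff.1 hG).1)
      (fun G hG => hM2 G (Finset.mem_sdiff.1 hG).1) ?_
    intro z
    by_cases hzx : z = x
    · rw [hzx]
      exact hevx
    · exact heven z hzx
  have hMN : M ⊆ N := Finset.sdiff_eq_empty_iff_subset.1 hT
  refine Finset.card_lt_card ⟨hMN, fun hNM => ?_⟩
  have hEq : M = N := Finset.Subset.antisymm hMN hNM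
  have h1 := (hMo y).2 (Or.inl rfl)
  rw [hEq, hNo y] at h1
  rcases h1 with h1 | h1
  · exact hxy h1
  · exact hay h1

end Pool.Agent.Lib.MP_fd6ff4_co
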