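import Mathlib
import Pool.Agent.Lib.MP_fd6ff4_co.Order
import Pool.Agent.Lib.MP_fd6ff4_co.Cross

/-!
# Chords of a triangulated triangle do not cross (`d = 3`)

`cor i` is the corner `i`, i.e. the vertex with the carrier `{i}` (given as a function with
`σ (cor i) = {i}` for all `i`).
-/

set_option autoImplicit false

open Finset

namespace Pool.Agent.Lib.MP_fd6ff4_co

variable {n : ℕ} {σ : Fin n → Finset (Fin 3)} {Γ : Finset (Finset (Fin n))}

/-- for vertices `u, x` with the carrier `{i, j}`, `x ≠ u`: `x` is between `u` and the corner `i` -/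
def Closer (Γ : Finset (Finset (Fin n))) (σ : Fin n → Finset (Fin 3)) (cor : Fin 3 → Fin n)
    (i j : Fin 3) (u x : Fin n) : Prop :=
  x ≠ u ∧ ∃ G ∈ arc Γ σ {i, j} ∅ (cor i) u, x ∈ G

/-- strictly inside the part of the boundary between `u` and `w` which contains the corner `i`,
where `σ u = {i, j}`, `σ w = {i, l}` -/
def Inside (Γ : Finset (Finset (Fin n))) (σ : Fin n → Finset (Fin 3)) (cor : Fin 3 → Fin n)
    (i j l : Fin 3) (u w x : Fin n) : Prop :=
  (σ x = {i, j} ∧ Closer Γ σ cor i j u x) ∨ (σ x = {i, l} ∧ Closer Γ σ cor i l w x) ∨ σ x = {i}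

/-- strictly inside the other part of the boundary -/
def Outside (Γ : Finset (Finset (Fin n))) (σ : Fin n → Finset (Fin 3)) (cor : Fin 3 → Fin n)
    (i j l : Fin 3) (u w x : Fin n) : Prop :=
  (σ x = {i, j} ∧ x ≠ u ∧ ¬ Closer Γ σ cor i j u x) ∨
    (σ x = {i, l} ∧ x ≠ w ∧ ¬ Closer Γ σ cor i l w x) ∨ σ x = {j, l} ∨ σ x = {j} ∨ σ x = {l}

private theorem Cross3_mem_ext (h : Tri Γ σ) {V : Finset (Fin 3)} {x : Fin n} :
    x ∈ ext Γ σ V ∅ ↔ σ x ⊆ V := by
  unfold ext
  rw [mem_filter, car_insert]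
  have h1 : (insert x ∅ : Finset (Fin n)) = {x} := rfl
  have h2 : car σ (∅ : Finset (Fin n)) = ∅ := rfl
  rw [h1, h2, union_empty]
  exact ⟨fun hh => hh.2.2.2, fun hh => ⟨mem_univ _, notMem_empty _, h.vertex x, hh⟩⟩

private theorem Cross3_car_single (x : Fin n) : car σ (insert x ∅) = σ x := by
  rw [car_insert]
  have h2 : car σ (∅ : Finset (Fin n)) = ∅ := rfl
  rw [h2, union_empty]

private theorem Cross3_mem_link (h : Tri Γ σ) {V : Finset (Fin 3)} {G : Finset (Fin n)} :
    G ∈ link Γ σ V ∅ ↔ G ∈ Γ ∧ car σ G ⊆ V := by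
  rw [mem_link h, union_empty]
  exact ⟨fun hh => hh.2, fun hh => ⟨disjoint_empty_right _, hh⟩⟩

private theorem Cross3_sub (h : Tri Γ σ) {V : Finset (Fin 3)} {G : Finset (Fin n)}
    (hG : G ∈ link Γ σ V ∅) {x : Fin n} (hx : x ∈ G) : σ x ⊆ V :=
  (subset_biUnion_of_mem σ hx).trans ((Cross3_mem_link h).1 hG).2

private theorem Cross3_arc (h : Tri Γ σ) {a b : Fin 3} (hab : a ≠ b) {c x : Fin n}
    (hc : σ c = {a}) (hx : σ x ⊆ {a, b}) (hxc : x ≠ c) :
    IsArc Γ σ {a, b} ∅ c x (arc Γ σ {a, b} ∅ c x) := by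
  refine isArc_arc h ?_ h.empty_mem (empty_subset _) ?_ ?_ ((Cross3_mem_ext h).2 hx) hxc
  · rw [card_pair hab]
    norm_num
  · rw [card_pair hab, card_empty]
  · rw [Cross3_mem_ext h, hc]
    simp

private theorem Cross3_deg_corner (h : Tri Γ σ) {a b : Fin 3} (hab : a ≠ b) {c : Fin n}
    (hc : σ c = {a} ∨ σ c = {b}) :
    #{G ∈ link Γ σ {a, b} ∅ | #G = 2 ∧ c ∈ G} = 1 := by
  refine deg_one h ?_ ?_ ?_ ?_
  · rw [card_pair hab]
    norm_num
  · rw [card_pair hab, card_empty]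
  · rw [Cross3_mem_ext h]
    rcases hc with hc | hc <;> rw [hc] <;> simp
  · rw [Cross3_car_single]
    rcases hc with hc | hc
    · intro hh
      rw [hc] at hh
      have h1 : b ∈ ({a} : Finset (Fin 3)) := by
        rw [hh]
        simp
      exact hab (mem_singleton.1 h1).symm
    · intro hh
      rw [hc] at hh
      have h1 : a ∈ ({b} : Finset (Fin 3)) := by
        rw [hh]
        simp
      exact hab (mem_singleton.1 h1)

/-- the edge of the path at the corner `c` is in the arc -/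
private theorem Cross3_corner_mem (h : Tri Γ σ) {a b : Fin 3} (hab : a ≠ b) {c x : Fin n}
    (hc : σ c = {a}) (hx : σ x ⊆ {a, b}) (hxc : x ≠ c) {G : Finset (Fin n)}
    (hG : G ∈ link Γ σ {a, b} ∅) (hG2 : #G = 2) (hcG : c ∈ G) : G ∈ arc Γ σ {a, b} ∅ c x := by
  obtain ⟨hE, hE2, hodd⟩ := Cross3_arc h hab hc hx hxc
  have h1 := ((hodd c).2 (Or.inr rfl)).pos
  obtain ⟨G', hG'⟩ := card_pos.1 h1
  have hG'1 := (mem_filter.1 hG').1
  have hG'2 := (mem_filter.1 hG').2
  have h2 := Cross3_deg_corner (c := c) h hab (Or.inl hc)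
  obtain ⟨G0, hG0⟩ := card_eq_one.1 h2
  have h3 : G ∈ ({G ∈ link Γ σ {a, b} ∅ | #G = 2 ∧ c ∈ G} : Finset (Finset (Fin n))) :=
    mem_filter.2 ⟨hG, hG2, hcG⟩
  have h4 : G' ∈ ({G ∈ link Γ σ {a, b} ∅ | #G = 2 ∧ c ∈ G} : Finset (Finset (Fin n))) :=
    mem_filter.2 ⟨hE hG'1, hE2 _ hG'1, hG'2⟩
  rw [hG0, mem_singleton] at h3 h4
  rw [h3, ← h4]
  exact hG'1

/-- the arc does not reach the other corner `e` -/
private theorem Cross3_other (h : Tri Γ σ) {a b : Fin 3} (hab : a ≠ b) {c x e : Fin n}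
    (hc : σ c = {a}) (he : σ e = {b}) (hx : σ x ⊆ {a, b}) (hxc : x ≠ c) (hxe : x ≠ e) :
    ∀ G ∈ arc Γ σ {a, b} ∅ c x, e ∉ G := by
  intro G hG heG
  obtain ⟨hE, hE2, hodd⟩ := Cross3_arc h hab hc hx hxc
  have hec : e ≠ c := by
    rintro rfl
    rw [hc, singleton_inj] at he
    exact hab he
  have h1 : ¬ Odd #{G ∈ arc Γ σ {a, b} ∅ c x | e ∈ G} := by
    rw [hodd e]
    rintro (h2 | h2)
    · exact hxe h2.symm
    · exact hec h2
  have h2 := Cross3_deg_corner (c := e) h hab (Or.inr he)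
  have hsub : ({G ∈ arc Γ σ {a, b} ∅ c x | e ∈ G} : Finset (Finset (Fin n)))
      ⊆ {G ∈ link Γ σ {a, b} ∅ | #G = 2 ∧ e ∈ G} := by
    intro G' hG'
    rw [mem_filter] at hG' ⊢
    exact ⟨hE hG'.1, hE2 G' hG'.1, hG'.2⟩
  have h3 := card_le_card hsub
  have h4 : 0 < #{G ∈ arc Γ σ {a, b} ∅ c x | e ∈ G} := card_pos.2 ⟨G, mem_filter.2 ⟨hG, heG⟩⟩
  rw [h2] at h3
  apply h1
  have h5 : #{G ∈ arc Γ σ {a, b} ∅ c x | e ∈ G} = 1 := by omega
  rw [h5]
  exact odd_one

/-- an edge does not have its carrier in `{i}` -/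
private theorem Cross3_dim (h : Tri Γ σ) {i : Fin 3} {G : Finset (Fin n)}
    (hG : G ∈ link Γ σ {i} ∅) : #G ≤ 1 := by
  have h1 := (h.ball {i} (by simp) ∅ h.empty_mem (empty_subset _)).dim G hG
  simpa using h1

private theorem Cross3_inter : ∀ i j l : Fin 3, i ≠ j → i ≠ l → j ≠ l → ∀ K : Finset (Fin 3),
    K ⊆ {i, j} → K ⊆ {i, l} → K ⊆ {i} := by decide

private theorem Cross3_split : ∀ i j l : Fin 3, i ≠ j → i ≠ l → j ≠ l → ∀ K : Finset (Fin 3),
    i ∈ K → K ≠ univ → K ⊆ {i, j} ∨ K ⊆ {i, l} := by decide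

private theorem Cross3_full : ∀ i j l : Fin 3, i ≠ j → i ≠ l → j ≠ l → ∀ K : Finset (Fin 3),
    {i, j} ⊆ K → K ≠ univ → K ⊆ {i, j} := by decide

private theorem Cross3_univ : ∀ i j l : Fin 3, i ≠ j → i ≠ l → j ≠ l →
    ({i, j} ∪ {i, l} : Finset (Fin 3)) = univ := by decide

private theorem Cross3_univ2 : ∀ i j l : Fin 3, i ≠ j → i ≠ l → j ≠ l →
    ({i, j} ∪ {l} : Finset (Fin 3)) = univ := by decide

private theorem Cross3_ne_univ : ∀ i j : Fin 3, ∀ K : Finset (Fin 3), K ⊆ {i, j} → K ≠ univ := by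
  decide

/-- the carriers of the vertices on the boundary -/
private theorem Cross3_sets : ∀ i j l : Fin 3, i ≠ j → i ≠ l → j ≠ l →
    ({i, j} : Finset (Fin 3)) ≠ {i, l} ∧ ({i, j} : Finset (Fin 3)) ≠ {j, l} ∧
    ({i, l} : Finset (Fin 3)) ≠ {j, l} ∧ ({i, j} : Finset (Fin 3)) ≠ {i} ∧
    ({i, j} : Finset (Fin 3)) ≠ {j} ∧ ({i, j} : Finset (Fin 3)) ≠ {l} ∧
    ({i, l} : Finset (Fin 3)) ≠ {i} ∧ ({i, l} : Finset (Fin 3)) ≠ {j} ∧
    ({i, l} : Finset (Fin 3)) ≠ {l} ∧ ({j, l} : Finset (Fin 3)) ≠ {l} ∧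
    ¬ ({i, l} : Finset (Fin 3)) ⊆ {i, j} ∧ ¬ ({j, l} : Finset (Fin 3)) ⊆ {i, j} ∧
    ¬ ({l} : Finset (Fin 3)) ⊆ {i, j} ∧ ¬ ({i, j} : Finset (Fin 3)) ⊆ {i, l} ∧
    ¬ ({j, l} : Finset (Fin 3)) ⊆ {i, l} ∧ ¬ ({j} : Finset (Fin 3)) ⊆ {i, l} ∧
    ({j} : Finset (Fin 3)) ≠ {l} := by decide

/-- the chord `{u, w}` is not crossed: common part of `cross3` and `cross3_corner` -/
private theorem Cross3_main (h : Tri Γ σ) {cor : Fin 3 → Fin n} (hcor : ∀ i, σ (cor i) = {i})
    {i j l : Fin 3} (hij : i ≠ j) (hil : i ≠ l)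
    (hjl : j ≠ l) {u w p q : Fin n} (hu : σ u ⊆ {i, j}) (hw : σ w ⊆ {i, l})
    (hui : u ≠ cor i) (hwi : w ≠ cor i) (hune : u ≠ w)
    (huwc : σ u ∪ σ w = univ) (huw : {u, w} ∈ Γ)
    (hpu : p ≠ u) (hpw : p ≠ w) (hqu : q ≠ u) (hqw : q ≠ w) (hpU : σ p ≠ univ) (hqU : σ q ≠ univ)
    (hpmem : ∃ G ∈ arc Γ σ {i, j} ∅ (cor i) u ∪ arc Γ σ {i, l} ∅ (cor i) w, p ∈ G)
    (hin : ∀ G ∈ Γ, #G = 2 → p ∈ G → car σ G ≠ univ →
      G ∈ arc Γ σ {i, j} ∅ (cor i) u ∪ arc Γ σ {i, l} ∅ (cor i) w)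
    (hout : ∀ G ∈ arc Γ σ {i, j} ∅ (cor i) u ∪ arc Γ σ {i, l} ∅ (cor i) w, q ∉ G)
    (hpq : {p, q} ∈ Γ) : False := by
  obtain ⟨hE, hE2, hodd⟩ := Cross3_arc h hij (hcor i) hu hui
  obtain ⟨hE', hE2', hodd'⟩ := Cross3_arc h hil (hcor i) hw hwi
  have hdisj : Disjoint (arc Γ σ {i, j} ∅ (cor i) u) (arc Γ σ {i, l} ∅ (cor i) w) := by
    rw [disjoint_left]
    intro G hG hG'
    have h1 := (Cross3_mem_link h).1 (hE hG)
    have h2 := (Cross3_mem_link h).1 (hE' hG')
    have h3 := Cross3_inter i j l hij hil hjl _ h1.2 h2.2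
    have h4 := Cross3_dim h ((Cross3_mem_link h).2 ⟨h1.1, h3⟩)
    have h5 := hE2 G hG
    omega
  have hpq' : p ≠ q := by
    rintro rfl
    obtain ⟨G, hG, hpG⟩ := hpmem
    exact hout G hG hpG
  refine no_cross (U := univ) (F := ∅) (p := u) (q := w) (p' := p) (q' := q)
    (β := arc Γ σ {i, j} ∅ (cor i) u ∪ arc Γ σ {i, l} ∅ (cor i) w) h ?_ h.empty_mem
    (empty_subset _) ?_ ?_ ?_ ?_ ?_ hune ?_ ?_ ?_ hpq' ?_ hpu hpw hqu hqw ?_ ?_ ?_ hout
  · simp
  · intro hh
    have h1 : i ∈ car σ (∅ : Finset (Fin n)) := by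
      rw [hh]
      exact mem_univ _
    exact absurd h1 (notMem_empty _)
  · simp
  · intro G hG
    rw [Cross3_mem_link h]
    rcases mem_union.1 hG with h1 | h1
    · exact ⟨((Cross3_mem_link h).1 (hE h1)).1, subset_univ _⟩
    · exact ⟨((Cross3_mem_link h).1 (hE' h1)).1, subset_univ _⟩
  · intro G hG
    rcases mem_union.1 hG with h1 | h1
    · exact hE2 G h1
    · exact hE2' G h1
  · intro G hG
    rw [union_empty]
    rcases mem_union.1 hG with h1 | h1
    · exact Cross3_ne_univ _ _ _ ((Cross3_mem_link h).1 (hE h1)).2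
    · exact Cross3_ne_univ _ _ _ ((Cross3_mem_link h).1 (hE' h1)).2
  · rw [Cross3_mem_link h]
    exact ⟨huw, subset_univ _⟩
  · rw [union_empty, ← huwc]
    unfold car
    rw [biUnion_insert, singleton_biUnion]
  · intro y
    rw [filter_union, card_union_of_disjoint (disjoint_filter_filter hdisj), Nat.odd_add,
      hodd y, ← Nat.not_odd_iff_even, hodd' y]
    constructor
    · intro hh
      by_cases h1 : y = u
      · exact Or.inl h1
      · by_cases h2 : y = w
        · exact Or.inr h2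
        · exfalso
          by_cases h3 : y = cor i
          · exact (hh.1 (Or.inr h3)) (Or.inr h3)
          · have h4 : ¬ (y = w ∨ y = cor i) := by
              rintro (h5 | h5)
              · exact h2 h5
              · exact h3 h5
            rcases hh.2 h4 with h5 | h5
            · exact h1 h5
            · exact h3 h5
    · rintro (rfl | rfl)
      · exact ⟨fun _ hh => hh.elim hune hui, fun _ => Or.inl rfl⟩
      · exact ⟨fun hh => (hh.elim (fun h1 => absurd h1.symm hune) (fun h1 => absurd h1 hwi)),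
          fun hh => absurd (Or.inl rfl) hh⟩
  · rw [Cross3_mem_link h]
    exact ⟨hpq, subset_univ _⟩
  · rw [Cross3_car_single]
    exact hpU
  · rw [Cross3_car_single]
    exact hqU
  · intro G hG hG2 hpG hGU
    rw [union_empty] at hGU
    exact hin G ((Cross3_mem_link h).1 hG).1 hG2 hpG hGU

/-- the edges at an inner vertex `p` of the side `{a, b}` which is on the arc are on the arc -/
private theorem Cross3_side (h : Tri Γ σ) {a b m : Fin 3} (hab : a ≠ b) (ham : a ≠ m) (hbm : b ≠ m)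
    {c x p : Fin n} (hc : σ c = {a}) (hx : σ x = {a, b}) (hp : σ p = {a, b}) (hpx : p ≠ x)
    (hmem : ∃ G ∈ arc Γ σ {a, b} ∅ c x, p ∈ G) {G : Finset (Fin n)} (hG : G ∈ Γ) (hG2 : #G = 2)
    (hpG : p ∈ G) (hGU : car σ G ≠ univ) : G ∈ arc Γ σ {a, b} ∅ c x := by
  have h1 : σ p ⊆ car σ G := subset_biUnion_of_mem σ hpG
  rw [hp] at h1
  have h2 := Cross3_full a b m hab ham hbm _ h1 hGU
  refine arc_full h ?_ h.empty_mem (empty_subset _) ?_ ?_ ?_ ?_ ?_ ?_ ?_ hpx hmem
    ((Cross3_mem_link h).2 ⟨hG, h2⟩) hG2 hpG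
  · rw [card_pair hab]
    norm_num
  · rw [card_pair hab, card_empty]
  · rw [Cross3_mem_ext h, hc]
    simp
  · rw [Cross3_car_single, hc]
    intro hh
    have h3 : b ∈ ({a} : Finset (Fin 3)) := by
      rw [hh]
      simp
    exact hab (mem_singleton.1 h3).symm
  · rw [Cross3_mem_ext h, hx]
  · rw [Cross3_car_single, hx]
  · rw [Cross3_mem_ext h, hp]
  · rw [Cross3_car_single, hp]

/-- the arc from one corner to the other one contains all the edges of the side -/
private theorem Cross3_all (h : Tri Γ σ) {a b : Fin 3} (hab : a ≠ b) {c e : Fin n}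
    (hc : σ c = {a}) (he : σ e = {b}) (huc : ∀ y, σ y = {a} → y = c)
    (hue : ∀ y, σ y = {b} → y = e) {G : Finset (Fin n)} (hG : G ∈ link Γ σ {a, b} ∅)
    (hG2 : #G = 2) : G ∈ arc Γ σ {a, b} ∅ c e := by
  have hec : e ≠ c := by
    rintro rfl
    rw [hc, singleton_inj] at he
    exact hab he
  have hesub : σ e ⊆ {a, b} := by
    rw [he]
    simp
  obtain ⟨hE, hE2, hodd⟩ := Cross3_arc h hab hc hesub hec
  by_contra hGn
  have hT : ({G ∈ link Γ σ {a, b} ∅ | #G = 2 ∧ G ∉ arc Γ σ {a, b} ∅ c e} :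
      Finset (Finset (Fin n))) = ∅ := by
    refine even_empty h ?_ h.empty_mem (empty_subset _) ?_ ?_ (filter_subset _ _)
      (fun G hG => (mem_filter.1 hG).2.1) ?_
    · rw [card_pair hab]
      norm_num
    · intro hh
      have h1 : a ∈ car σ (∅ : Finset (Fin n)) := by
        rw [hh]
        simp
      exact absurd h1 (notMem_empty _)
    · rw [card_pair hab, card_empty]
    · intro y
      have hsplit : #{G ∈ link Γ σ {a, b} ∅ | #G = 2 ∧ y ∈ G}
          = #{G ∈ arc Γ σ {a, b} ∅ c e | y ∈ G}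
            + #{G ∈ ({G ∈ link Γ σ {a, b} ∅ | #G = 2 ∧ G ∉ arc Γ σ {a, b} ∅ c e} :
              Finset (Finset (Fin n))) | y ∈ G} := by
        rw [← card_union_of_disjoint]
        · congr 1
          ext G
          simp only [mem_filter, mem_union]
          constructor
          · rintro ⟨h1, h2, h3⟩
            by_cases hGa : G ∈ arc Γ σ {a, b} ∅ c e
            · exact Or.inl ⟨hGa, h3⟩
            · exact Or.inr ⟨⟨h1, h2, hGa⟩, h3⟩
          · rintro (⟨h1, h3⟩ | ⟨⟨h1, h2, _⟩, h3⟩)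
            · exact ⟨hE h1, hE2 G h1, h3⟩
            · exact ⟨h1, h2, h3⟩
        · rw [disjoint_left]
          intro G h1 h2
          exact (mem_filter.1 (mem_filter.1 h2).1).2.2 (mem_filter.1 h1).1
      by_cases hy : σ y ⊆ {a, b}
      · by_cases hya : σ y = {a, b}
        · have h1 : #{G ∈ link Γ σ {a, b} ∅ | #G = 2 ∧ y ∈ G} = 2 := by
            refine deg_two h ?_ ?_ ((Cross3_mem_ext h).2 hy) ?_
            · rw [card_pair hab]
              norm_num
            · rw [card_pair hab, card_empty]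
            · rw [Cross3_car_single, hya]
          have h2 : Even #{G ∈ arc Γ σ {a, b} ∅ c e | y ∈ G} := by
            rw [← Nat.not_odd_iff_even, hodd y]
            rintro (h3 | h3)
            · rw [h3, he] at hya
              have h4 : a ∈ ({b} : Finset (Fin 3)) := by
                rw [hya]
                simp
              exact hab (mem_singleton.1 h4)
            · rw [h3, hc] at hya
              have h4 : b ∈ ({a} : Finset (Fin 3)) := by
                rw [hya]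
                simp
              exact hab (mem_singleton.1 h4).symm
          rw [h1] at hsplit
          have h3 : Even (#{G ∈ arc Γ σ {a, b} ∅ c e | y ∈ G}
            + #{G ∈ ({G ∈ link Γ σ {a, b} ∅ | #G = 2 ∧ G ∉ arc Γ σ {a, b} ∅ c e} :
              Finset (Finset (Fin n))) | y ∈ G}) := by
            rw [← hsplit]
            exact even_two
          exact (Nat.even_add.1 h3).1 h2
        · have hyc : σ y = {a} ∨ σ y = {b} := by
            have hne := h.nonempty y
            have hdec : ∀ a b : Fin 3, ∀ K : Finset (Fin 3), K ⊆ {a, b} → K ≠ {a, b} →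
                K.Nonempty → K = {a} ∨ K = {b} := by decide
            exact hdec a b _ hy hya hne
          have h1 := Cross3_deg_corner (c := y) h hab hyc
          rw [h1] at hsplit
          have huniq : y = c ∨ y = e := by
            rcases hyc with h5 | h5
            · exact Or.inl (huc y h5)
            · exact Or.inr (hue y h5)
          have h2 : Odd #{G ∈ arc Γ σ {a, b} ∅ c e | y ∈ G} := (hodd y).2 huniq.symm
          have h3 := h2.pos
          have h4 : #{G ∈ ({G ∈ link Γ σ {a, b} ∅ | #G = 2 ∧ G ∉ arc Γ σ {a, b} ∅ c e} :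
              Finset (Finset (Fin n))) | y ∈ G} = 0 := by omega
          rw [h4]
          exact Even.zero
      · have h4 : ({G ∈ ({G ∈ link Γ σ {a, b} ∅ | #G = 2 ∧ G ∉ arc Γ σ {a, b} ∅ c e} :
              Finset (Finset (Fin n))) | y ∈ G} : Finset (Finset (Fin n))) = ∅ := by
          rw [filter_eq_empty_iff]
          intro G hG hyG
          exact hy (Cross3_sub h (mem_filter.1 hG).1 hyG)
        rw [h4, card_empty]
        exact Even.zero
  have h1 : G ∈ ({G ∈ link Γ σ {a, b} ∅ | #G = 2 ∧ G ∉ arc Γ σ {a, b} ∅ c e} :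
      Finset (Finset (Fin n))) := mem_filter.2 ⟨hG, hG2, hGn⟩
  rw [hT] at h1
  exact notMem_empty _ h1

/-- Chords around the corner `i` are not crossed. Proof. `no_cross` with `U = univ`, `F = ∅`,
`β = arc Γ σ {i,j} ∅ (cor i) u ∪ arc Γ σ {i,l} ∅ (cor i) w` (`isArc_arc`; the links of `∅` in
`Γ_{i,j}` and `Γ_{i,l}` are inside the link of `∅` in `Γ`). The arcs are disjoint: a common edge
would have carrier in `{i}`, but `#G ≤ 1` by `BallAt.dim` for `U = {i}`, `F = ∅`. The degree in `β`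
is odd at `u` and `w` only. `hβU`: the carriers of the edges of the arcs are in `{i,j}` or `{i,l}`.
`hin` for `x` inside: if `σ x = {i,j}` a boundary edge at `x` has carrier `{i,j}`, `arc_full`; same
for `{i,l}`; if `σ x = {i}` then `x = cor i`, and a boundary edge at `x` is an edge of the path
`{i,j}` or of the path `{i,l}`, where `cor i` has degree one (`deg_one`) and odd degree in the arc.
`hout` for `x` outside: the edges of `arc .. {i,j} ..` at `x` need `σ x ⊆ {i,j}`; if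
`σ x = {i,j}`: not `Closer`; if `σ x = {j}` (`x = cor j`): the degree of `cor j` in the arc is even
and at most one (`deg_one`). -/
theorem cross3 (h : Tri Γ σ) {cor : Fin 3 → Fin n} (hcor : ∀ i, σ (cor i) = {i})
    (huniq : ∀ i x, σ x = {i} → x = cor i) {i j l : Fin 3} (hij : i ≠ j) (hil : i ≠ l)
    (hjl : j ≠ l) {u w p q : Fin n} (hu : σ u = {i, j}) (hw : σ w = {i, l}) (huw : {u, w} ∈ Γ)
    (hp : Inside Γ σ cor i j l u w p) (hq : Outside Γ σ cor i j l u w q) (hpq : {p, q} ∈ Γ) :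
    False := by
  obtain ⟨s1, s2, s3, s4, s5, s6, s7, s8, s9, s10, s11, s12, s13, s14, s15, s16, s17⟩ :=
    Cross3_sets i j l hij hil hjl
  have hui : u ≠ cor i := by
    rintro rfl
    rw [hcor] at hu
    exact s4 hu.symm
  have hwi : w ≠ cor i := by
    rintro rfl
    rw [hcor] at hw
    exact s7 hw.symm
  have huj : u ≠ cor j := by
    rintro rfl
    rw [hcor] at hu
    exact s5 hu.symm
  have hwl : w ≠ cor l := by
    rintro rfl
    rw [hcor] at hw
    exact s9 hw.symm
  have hne : u ≠ w := by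
    rintro rfl
    rw [hu] at hw
    exact s1 hw
  have hE := Cross3_arc h hij (hcor i) hu.le hui
  have hE' := Cross3_arc h hil (hcor i) hw.le hwi
  have hli : ∀ G, G ∈ arc Γ σ {i, j} ∅ (cor i) u → ∀ y, y ∈ G → σ y ⊆ {i, j} :=
    fun G hG y hy => Cross3_sub h (hE.1 hG) hy
  have hli' : ∀ G, G ∈ arc Γ σ {i, l} ∅ (cor i) w → ∀ y, y ∈ G → σ y ⊆ {i, l} :=
    fun G hG y hy => Cross3_sub h (hE'.1 hG) hy
  have hpu : p ≠ u := by
    rcases hp with ⟨_, h2⟩ | ⟨h1, _⟩ | h1
    · exact h2.1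
    · rintro rfl
      rw [hu] at h1
      exact s1 h1
    · rintro rfl
      rw [hu] at h1
      exact s4 h1
  have hpw : p ≠ w := by
    rcases hp with ⟨h1, _⟩ | ⟨_, h2⟩ | h1
    · rintro rfl
      rw [hw] at h1
      exact s1 h1.symm
    · exact h2.1
    · rintro rfl
      rw [hw] at h1
      exact s7 h1
  have hqu : q ≠ u := by
    rcases hq with ⟨_, h2, _⟩ | ⟨h1, _, _⟩ | h1 | h1 | h1
    · exact h2
    all_goals
      rintro rfl
      rw [hu] at h1
    · exact s1 h1
    · exact s2 h1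
    · exact s5 h1
    · exact s6 h1
  have hqw : q ≠ w := by
    rcases hq with ⟨h1, _, _⟩ | ⟨_, h2, _⟩ | h1 | h1 | h1
    rotate_left
    · exact h2
    all_goals
      rintro rfl
      rw [hw] at h1
    · exact s3 h1
    · exact s8 h1
    · exact s9 h1
    · exact s1 h1.symm
  have hpU : σ p ≠ univ := by
    rcases hp with ⟨h1, _⟩ | ⟨h1, _⟩ | h1 <;> rw [h1]
    · exact Cross3_ne_univ i j _ subset_rfl
    · exact Cross3_ne_univ i l _ subset_rfl
    · exact Cross3_ne_univ i l _ (by simp)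
  have hqU : σ q ≠ univ := by
    rcases hq with ⟨h1, _, _⟩ | ⟨h1, _, _⟩ | h1 | h1 | h1 <;> rw [h1]
    · exact Cross3_ne_univ i j _ subset_rfl
    · exact Cross3_ne_univ i l _ subset_rfl
    · exact Cross3_ne_univ j l _ subset_rfl
    · exact Cross3_ne_univ j l _ (by simp)
    · exact Cross3_ne_univ j l _ (by simp)
  have huwc : σ u ∪ σ w = univ := by
    rw [hu, hw]
    exact Cross3_univ i j l hij hil hjl
  refine Cross3_main h hcor hij hil hjl hu.le hw.le hui hwi hne huwc huw hpu hpw hqu hqw hpU hqU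
    ?_ ?_ ?_ hpq
  · rcases hp with ⟨_, _, G, hG, hpG⟩ | ⟨_, _, G, hG, hpG⟩ | h1
    · exact ⟨G, mem_union_left _ hG, hpG⟩
    · exact ⟨G, mem_union_right _ hG, hpG⟩
    · rw [huniq i p h1]
      obtain ⟨G, hG⟩ := card_pos.1 ((hE.2.2 (cor i)).2 (Or.inr rfl)).pos
      exact ⟨G, mem_union_left _ (mem_filter.1 hG).1, (mem_filter.1 hG).2⟩
  · intro G hG hG2 hpG hGU
    rcases hp with ⟨h1, h2, h3⟩ | ⟨h1, h2, h3⟩ | h1
    · exact mem_union_left _ (Cross3_side h hij hil hjl (hcor i) hu h1 h2 h3 hG hG2 hpG hGU)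
    · exact mem_union_right _
        (Cross3_side h hil hij hjl.symm (hcor i) hw h1 h2 h3 hG hG2 hpG hGU)
    · have h2 := huniq i p h1
      subst h2
      have h3 : i ∈ car σ G := by
        have h4 : σ (cor i) ⊆ car σ G := subset_biUnion_of_mem σ hpG
        rw [hcor i] at h4
        exact h4 (mem_singleton_self i)
      rcases Cross3_split i j l hij hil hjl _ h3 hGU with h4 | h4
      · exact mem_union_left _ (Cross3_corner_mem h hij (hcor i) hu.le hui
          ((Cross3_mem_link h).2 ⟨hG, h4⟩) hG2 hpG)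
      · exact mem_union_right _ (Cross3_corner_mem h hil (hcor i) hw.le hwi
          ((Cross3_mem_link h).2 ⟨hG, h4⟩) hG2 hpG)
  · intro G hG hqG
    rcases mem_union.1 hG with h0 | h0
    · have h00 := hli G h0 q hqG
      rcases hq with ⟨_, h2, h3⟩ | ⟨h1, _, _⟩ | h1 | h1 | h1
      · exact h3 ⟨h2, G, h0, hqG⟩
      · rw [h1] at h00
        exact s11 h00
      · rw [h1] at h00
        exact s12 h00
      · have h2 := huniq j q h1
        subst h2
        exact Cross3_other h hij (hcor i) (hcor j) hu.le hui huj G h0 hqG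
      · rw [h1] at h00
        exact s13 h00
    · have h00 := hli' G h0 q hqG
      rcases hq with ⟨h1, _, _⟩ | ⟨_, h2, h3⟩ | h1 | h1 | h1
      · rw [h1] at h00
        exact s14 h00
      · exact h3 ⟨h2, G, h0, hqG⟩
      · rw [h1] at h00
        exact s15 h00
      · rw [h1] at h00
        exact s16 h00
      · have h2 := huniq l q h1
        subst h2
        exact Cross3_other h hil (hcor i) (hcor l) hw.le hwi hwl G h0 hqG

/-- A chord `{u, cor l}`, `σ u = {i, j}`, is not crossed by a chord from a vertex `p` with the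
carrier `{i, l}` to a vertex `q` on the other side. Proof. As in `cross3` with
`β = arc Γ σ {i,j} ∅ (cor i) u ∪ arc Γ σ {i,l} ∅ (cor i) (cor l)`. The second arc contains all the
edges of the path of the side `{i,l}`: the set of all the edges of this path has odd degree exactly
at `cor i` and `cor l` (`deg_one`, `deg_two`), so by `even_empty` for the symmetric difference the
two sets are equal (or: `T` = edges not in the arc has only even degrees). -/
theorem cross3_corner (h : Tri Γ σ) {cor : Fin 3 → Fin n}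
    (hcor : ∀ i, σ (cor i) = {i}) (huniq : ∀ i x, σ x = {i} → x = cor i) {i j l : Fin 3}
    (hij : i ≠ j) (hil : i ≠ l) (hjl : j ≠ l) {u p q : Fin n} (hu : σ u = {i, j})
    (huw : {u, cor l} ∈ Γ) (hp : σ p = {i, l})
    (hq : (σ q = {i, j} ∧ q ≠ u ∧ ¬ Closer Γ σ cor i j u q) ∨ σ q = {j, l} ∨ σ q = {j})
    (hpq : {p, q} ∈ Γ) : False := by
  obtain ⟨s1, s2, s3, s4, s5, s6, s7, s8, s9, s10, s11, s12, s13, s14, s15, s16, s17⟩ :=
    Cross3_sets i j l hij hil hjl
  have hui : u ≠ cor i := by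
    rintro rfl
    rw [hcor] at hu
    exact s4 hu.symm
  have huj : u ≠ cor j := by
    rintro rfl
    rw [hcor] at hu
    exact s5 hu.symm
  have hwi : cor l ≠ cor i := by
    intro hh
    have h1 : ({l} : Finset (Fin 3)) = {i} := by rw [← hcor l, hh, hcor i]
    exact hil (singleton_inj.1 h1).symm
  have hne : u ≠ cor l := by
    rintro rfl
    rw [hcor] at hu
    exact s6 hu.symm
  have hlsub : σ (cor l) ⊆ {i, l} := by
    rw [hcor l]
    simp
  have hE := Cross3_arc h hij (hcor i) hu.le hui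
  have hE' := Cross3_arc h hil (hcor i) hlsub hwi
  have hli : ∀ G, G ∈ arc Γ σ {i, j} ∅ (cor i) u → ∀ y, y ∈ G → σ y ⊆ {i, j} :=
    fun G hG y hy => Cross3_sub h (hE.1 hG) hy
  have hli' : ∀ G, G ∈ arc Γ σ {i, l} ∅ (cor i) (cor l) → ∀ y, y ∈ G → σ y ⊆ {i, l} :=
    fun G hG y hy => Cross3_sub h (hE'.1 hG) hy
  have hpu : p ≠ u := by
    rintro rfl
    rw [hu] at hp
    exact s1 hp
  have hpl : p ≠ cor l := by
    rintro rfl
    rw [hcor] at hp
    exact s9 hp.symm
  have hqu : q ≠ u := by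
    rcases hq with ⟨_, h2, _⟩ | h1 | h1
    · exact h2
    all_goals
      rintro rfl
      rw [hu] at h1
    · exact s2 h1
    · exact s5 h1
  have hql : q ≠ cor l := by
    rcases hq with ⟨h1, _, _⟩ | h1 | h1
    all_goals
      rintro rfl
      rw [hcor] at h1
    · exact s6 h1.symm
    · exact s10 h1.symm
    · exact s17 h1.symm
  have hpU : σ p ≠ univ := by
    rw [hp]
    exact Cross3_ne_univ i l _ subset_rfl
  have hqU : σ q ≠ univ := by
    rcases hq with ⟨h1, _, _⟩ | h1 | h1 <;> rw [h1]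
    · exact Cross3_ne_univ i j _ subset_rfl
    · exact Cross3_ne_univ j l _ subset_rfl
    · exact Cross3_ne_univ j l _ (by simp)
  have huwc : σ u ∪ σ (cor l) = univ := by
    rw [hu, hcor l]
    exact Cross3_univ2 i j l hij hil hjl
  have hall : ∀ G, G ∈ link Γ σ {i, l} ∅ → #G = 2 → G ∈ arc Γ σ {i, l} ∅ (cor i) (cor l) :=
    fun G hG hG2 => Cross3_all h hil (hcor i) (hcor l) (huniq i) (huniq l) hG hG2
  refine Cross3_main h hcor hij hil hjl hu.le hlsub hui hwi hne huwc huw hpu hpl hqu hql hpU hqU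
    ?_ ?_ ?_ hpq
  · have h1 : #{G ∈ link Γ σ {i, l} ∅ | #G = 2 ∧ p ∈ G} = 2 := by
      refine deg_two h ?_ ?_ ((Cross3_mem_ext h).2 hp.le) ?_
      · rw [card_pair hil]
        norm_num
      · rw [card_pair hil, card_empty]
      · rw [Cross3_car_single, hp]
    obtain ⟨G, hG⟩ := card_pos.1 (show 0 < #{G ∈ link Γ σ {i, l} ∅ | #G = 2 ∧ p ∈ G} by omega)
    obtain ⟨h2, h3, h4⟩ := mem_filter.1 hG
    exact ⟨G, mem_union_right _ (hall G h2 h3), h4⟩
  · intro G hG hG2 hpG hGU
    have h1 : σ p ⊆ car σ G := subset_biUnion_of_mem σ hpG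
    rw [hp] at h1
    have h2 := Cross3_full i l j hil hij hjl.symm _ h1 hGU
    exact mem_union_right _ (hall G ((Cross3_mem_link h).2 ⟨hG, h2⟩) hG2)
  · intro G hG hqG
    rcases mem_union.1 hG with h0 | h0
    · have h00 := hli G h0 q hqG
      rcases hq with ⟨_, h2, h3⟩ | h1 | h1
      · exact h3 ⟨h2, G, h0, hqG⟩
      · rw [h1] at h00
        exact s12 h00
      · have h2 := huniq j q h1
        subst h2
        exact Cross3_other h hij (hcor i) (hcor j) hu.le hui huj G h0 hqG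
    · have h00 := hli' G h0 q hqG
      rcases hq with ⟨h1, _, _⟩ | h1 | h1
      · rw [h1] at h00
        exact s14 h00
      · rw [h1] at h00
        exact s15 h00
      · rw [h1] at h00
        exact s16 h00

/-- `Closer` is total (`arc_total`). -/
theorem closer_total (h : Tri Γ σ) {cor : Fin 3 → Fin n}
    (hcor : ∀ i, σ (cor i) = {i}) {i j : Fin 3} (hij : i ≠ j) {u x : Fin n}
    (hu : σ u = {i, j}) (hx : σ x = {i, j}) (hux : u ≠ x) :
    Closer Γ σ cor i j u x ∨ Closer Γ σ cor i j x u := by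
  have h1 : (∃ G ∈ arc Γ σ {i, j} ∅ (cor i) u, x ∈ G) ∨
      (∃ G ∈ arc Γ σ {i, j} ∅ (cor i) x, u ∈ G) := by
    refine arc_total h ?_ h.empty_mem (empty_subset _) ?_ ?_ ?_ ?_ ?_ ?_ ?_ hux
    · rw [card_pair hij]
      norm_num
    · rw [card_pair hij, card_empty]
    · rw [Cross3_mem_ext h, hcor]
      simp
    · rw [Cross3_car_single, hcor]
      intro hh
      have h3 : j ∈ ({i} : Finset (Fin 3)) := by
        rw [hh]
        simp
      exact hij (mem_singleton.1 h3).symm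
    · rw [Cross3_mem_ext h, hu]
    · rw [Cross3_car_single, hu]
    · rw [Cross3_mem_ext h, hx]
    · rw [Cross3_car_single, hx]
  rcases h1 with h1 | h1
  · exact Or.inl ⟨hux.symm, h1⟩
  · exact Or.inr ⟨hux, h1⟩

/-- `arc_lt`. -/
theorem closer_lt (h : Tri Γ σ) {cor : Fin 3 → Fin n}
    (hcor : ∀ i, σ (cor i) = {i}) {i j : Fin 3} (hij : i ≠ j) {u x : Fin n}
    (hu : σ u = {i, j}) (hx : σ x = {i, j}) (hc : Closer Γ σ cor i j u x) :
    #(arc Γ σ {i, j} ∅ (cor i) x) < #(arc Γ σ {i, j} ∅ (cor i) u) := by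
  refine arc_lt h ?_ h.empty_mem (empty_subset _) ?_ ?_ ?_ ?_ ?_ ?_ ?_ ?_ hc.1 hc.2
  · rw [card_pair hij]
    norm_num
  · intro hh
    have h1 : i ∈ car σ (∅ : Finset (Fin n)) := by
      rw [hh]
      simp
    exact absurd h1 (notMem_empty _)
  · rw [card_pair hij, card_empty]
  · rw [Cross3_mem_ext h, hcor]
    simp
  · rw [Cross3_car_single, hcor]
    intro hh
    have h3 : j ∈ ({i} : Finset (Fin 3)) := by
      rw [hh]
      simp
    exact hij (mem_singleton.1 h3).symm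
  · rw [Cross3_mem_ext h, hu]
  · rw [Cross3_car_single, hu]
  · rw [Cross3_mem_ext h, hx]
  · rw [Cross3_car_single, hx]

end Pool.Agent.Lib.MP_fd6ff4_co
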