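import Mathlib
import Pool.Agent.Lib.MP_fd6ff4_co.Cross3

/-!
# The support of a kernel vector for `d = 3` is a triangle

`H` is a set of chords `{x, y}` (edges with carrier `univ`, none of `x, y` an interior vertex) such
that at each chord `{u, x}` with `#(σ u) = 2` there is a second chord `{u, x'}`.
-/

set_option autoImplicit false

open Finset

namespace Pool.Agent.Lib.MP_fd6ff4_co

variable {n : ℕ} {σ : Fin n → Finset (Fin 3)} {Γ : Finset (Finset (Fin n))}

/-- the sets of chords considered here -/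
structure ChordSet (Γ : Finset (Finset (Fin n))) (σ : Fin n → Finset (Fin 3))
    (H : Finset (Fin n) → Prop) : Prop where
  face : ∀ x y, x ≠ y → H {x, y} → {x, y} ∈ Γ
  inter : ∀ x y, x ≠ y → H {x, y} → σ x ∪ σ y = univ
  notint : ∀ x y, x ≠ y → H {x, y} → σ x ≠ univ
  second : ∀ u x, u ≠ x → #(σ u) = 2 → H {u, x} → ∃ y, y ≠ u ∧ y ≠ x ∧ H {u, y}

/-- `{u, w}` is a chord of `H` around the corner `i`, `σ u = {i, j}`, `σ w = {i, l}`, and the sum of
the lengths of the arcs from `u` and `w` to the corner `i` is the least one among these chords -/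
def MinChord (Γ : Finset (Finset (Fin n))) (σ : Fin n → Finset (Fin 3)) (cor : Fin 3 → Fin n)
    (H : Finset (Fin n) → Prop) (i j l : Fin 3) (u w : Fin n) : Prop :=
  σ u = {i, j} ∧ σ w = {i, l} ∧ H {u, w} ∧ ∀ u' w', σ u' = {i, j} → σ w' = {i, l} → H {u', w'} →
    #(arc Γ σ {i, j} ∅ (cor i) u) + #(arc Γ σ {i, l} ∅ (cor i) w) ≤
      #(arc Γ σ {i, j} ∅ (cor i) u') + #(arc Γ σ {i, l} ∅ (cor i) w')

theorem Chord3_cases : ∀ (i j l : Fin 3), i ≠ j → i ≠ l → j ≠ l → ∀ S : Finset (Fin 3),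
    ({i, j} ∪ S : Finset (Fin 3)) = univ → S ≠ univ → S = {i, l} ∨ S = {j, l} ∨ S = {l} := by
  decide

theorem Chord3_ne : ∀ (i j l : Fin 3), i ≠ j → i ≠ l → j ≠ l →
    ({i, j} : Finset (Fin 3)) ≠ {i, l} ∧ ({i, j} : Finset (Fin 3)) ≠ {j, l} ∧
      ({i, l} : Finset (Fin 3)) ≠ {j, l} ∧ #({i, j} : Finset (Fin 3)) = 2 ∧
      #({i, l} : Finset (Fin 3)) = 2 ∧ #({j, l} : Finset (Fin 3)) = 2 := by
  decide

theorem Chord3_two : ∀ S T : Finset (Fin 3), #S = 2 → #T = 2 → S ∪ T = univ →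
    ∃ i j l : Fin 3, i ≠ j ∧ i ≠ l ∧ j ≠ l ∧ S = {i, j} ∧ T = {i, l} := by
  decide

theorem Chord3_compl : ∀ S T : Finset (Fin 3), #S = 2 → T.Nonempty → T ≠ univ → S ∪ T = univ →
    #T ≠ 2 → T = Sᶜ ∧ #T = 1 := by
  decide

theorem Chord3_some : ∀ S T : Finset (Fin 3), S ≠ univ → T ≠ univ → S ∪ T = univ →
    #S = 2 ∨ #T = 2 := by
  decide

theorem MinChord.symm {cor : Fin 3 → Fin n} {H : Finset (Fin n) → Prop} {i j l : Fin 3}
    {u w : Fin n} (hm : MinChord Γ σ cor H i j l u w) : MinChord Γ σ cor H i l j w u := by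
  obtain ⟨h1, h2, h3, h4⟩ := hm
  refine ⟨h2, h1, by rwa [Finset.pair_comm], fun u' w' hu' hw' hH => ?_⟩
  have h5 := h4 w' u' hw' hu' (by rwa [Finset.pair_comm])
  omega

theorem exists_minChord {cor : Fin 3 → Fin n} {H : Finset (Fin n) → Prop} {i j l : Fin 3}
    {u w : Fin n} (hu : σ u = {i, j}) (hw : σ w = {i, l}) (hH : H {u, w}) :
    ∃ u w, MinChord Γ σ cor H i j l u w := by
  classical
  have hne : (univ.filter fun p : Fin n × Fin n =>
      σ p.1 = {i, j} ∧ σ p.2 = {i, l} ∧ H {p.1, p.2}).Nonempty :=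
    ⟨(u, w), by simpa using ⟨hu, hw, hH⟩⟩
  obtain ⟨p, hp, hmin⟩ := Finset.exists_min_image _
    (fun p : Fin n × Fin n =>
      #(arc Γ σ {i, j} ∅ (cor i) p.1) + #(arc Γ σ {i, l} ∅ (cor i) p.2)) hne
  rw [Finset.mem_filter] at hp
  obtain ⟨-, h1, h2, h3⟩ := hp
  refine ⟨p.1, p.2, h1, h2, h3, fun u' w' hu' hw' hH' => ?_⟩
  exact hmin (u', w') (by simpa using ⟨hu', hw', hH'⟩)

/-- if `{u, x}` is a chord around the corner `i` with the vertex `u` of the minimal chord `{u, w}`
then `w` is closer than `x` -/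
theorem Chord3_closer (h : Tri Γ σ) {cor : Fin 3 → Fin n} (hcor : ∀ i, σ (cor i) = {i})
    {H : Finset (Fin n) → Prop} {i j l : Fin 3} (hil : i ≠ l) {u w x : Fin n}
    (hm : MinChord Γ σ cor H i j l u w) (hx : σ x = {i, l}) (hux : H {u, x}) (hxw : x ≠ w) :
    Closer Γ σ cor i l x w := by
  obtain ⟨hu, hw, -, hmin⟩ := hm
  rcases closer_total h hcor hil hw hx hxw.symm with hc | hc
  · have h1 := closer_lt h hcor hil hw hx hc
    have h2 := hmin u x hu hx hux
    omega
  · exact hc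

/-- (★) At the vertex `u` of the minimal chord `{u, w}` around the corner `i` there is a chord of
`H` to the opposite side `{j, l}`. Proof. Let `{u, x}`, `x ≠ w`, and `{w, y}`, `y ≠ u`, be the
second chords at `u` and `w`. `σ u ∪ σ x = univ`, `σ x ≠ univ`: `σ x` is `{i, l}`, `{j, l}` or
`{l}`; `σ y` is `{i, j}`, `{j, l}` or `{j}`. If `σ y = {i, j}` then by minimality and `closer_lt`
`y` is not `Closer` than `u` (`Closer Γ σ cor i j u y` is false).
(a) `σ x = {i, l}`: by minimality `x` is not closer than `w`, so `w` is closer than `x`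
(`closer_total`): `w` is `Inside` and `y` is `Outside` for the chord `{u, x}`: `cross3`.
(b) `σ x = {l}`, `x = cor l`: `cross3_corner` with `p = w`, `q = y`. So `σ x = {j, l}`. -/
theorem star (h : Tri Γ σ) {cor : Fin 3 → Fin n} (hcor : ∀ i, σ (cor i) = {i})
    (huniq : ∀ i x, σ x = {i} → x = cor i) {H : Finset (Fin n) → Prop} (hH : ChordSet Γ σ H)
    {i j l : Fin 3} (hij : i ≠ j) (hil : i ≠ l) (hjl : j ≠ l) {u w : Fin n}
    (hm : MinChord Γ σ cor H i j l u w) : ∃ x, σ x = {j, l} ∧ H {u, x} := by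
  obtain ⟨hu, hw, huw, hmin⟩ := id hm
  obtain ⟨n1, n2, n3, c1, c2, c3⟩ := Chord3_ne i j l hij hil hjl
  have hne : u ≠ w := by
    rintro rfl
    exact n1 (hu.symm.trans hw)
  obtain ⟨x, hxu, hxw, hux⟩ := hH.second u w hne (by rw [hu]; exact c1) huw
  obtain ⟨y, hyw, hyu, hwy⟩ := hH.second w u hne.symm (by rw [hw]; exact c2)
    (by rwa [Finset.pair_comm])
  have hx1 := hH.inter u x hxu.symm hux
  have hx2 := hH.notint x u hxu (by rwa [Finset.pair_comm])
  have hy1 := hH.inter w y hyw.symm hwy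
  have hy2 := hH.notint y w hyw (by rwa [Finset.pair_comm])
  rw [hu] at hx1
  rw [hw] at hy1
  have hxΓ := hH.face u x hxu.symm hux
  have hyΓ := hH.face w y hyw.symm hwy
  have hy : (σ y = {i, j} ∧ y ≠ u ∧ ¬ Closer Γ σ cor i j u y) ∨ σ y = {j, l} ∨ σ y = {j} := by
    rcases Chord3_cases i l j hil hij hjl.symm (σ y) hy1 hy2 with h1 | h1 | h1
    · refine Or.inl ⟨h1, hyu, fun hc => ?_⟩
      have h2 := closer_lt h hcor hij hu h1 hc
      have h3 := hmin y w h1 hw (by rwa [Finset.pair_comm])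
      omega
    · right; left
      rw [h1, Finset.pair_comm]
    · right; right
      exact h1
  rcases Chord3_cases i j l hij hil hjl (σ x) hx1 hx2 with h1 | h1 | h1
  · exfalso
    have hc := Chord3_closer h hcor hil hm h1 hux hxw
    refine cross3 h hcor huniq hij hil hjl hu h1 hxΓ (p := w) (q := y)
      (Or.inr (Or.inl ⟨hw, hc⟩)) ?_ hyΓ
    rcases hy with h2 | h2 | h2
    · exact Or.inl h2
    · exact Or.inr (Or.inr (Or.inl h2))
    · exact Or.inr (Or.inr (Or.inr (Or.inl h2)))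
  · exact ⟨x, h1, hux⟩
  · exfalso
    have h2 := huniq l x h1
    rw [h2] at hxΓ
    exact cross3_corner h hcor huniq hij hil hjl hu hxΓ hw hy hyΓ

/-- The minimal chords around the corners `i` and `j` have the same end on the side `{i, j}`.
Proof. `hm : MinChord i j l u w`, `hm' : MinChord j i l u' v`. By `star` there are `x`,
`σ x = {j, l}`, `H {u, x}` and `z`, `σ z = {i, l}`, `H {u', z}`. Suppose `u' ≠ u`. `u'` is not
closer to the corner `i` than `u`: otherwise `z` is not `Outside` for the chord `{u, w}`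
(`cross3`), so `z = w` or `z` is closer than `w`, and the chord `{u', z}` contradicts the
minimality (`closer_lt`). So `u` is closer than `u'` (`closer_total`), `u` is `Inside` for the
chord `{u', z}` around the corner `i` and `x` is `Outside`: `cross3` for `{u, x}`. -/
theorem same_end (h : Tri Γ σ) {cor : Fin 3 → Fin n} (hcor : ∀ i, σ (cor i) = {i})
    (huniq : ∀ i x, σ x = {i} → x = cor i) {H : Finset (Fin n) → Prop} (hH : ChordSet Γ σ H)
    {i j l : Fin 3} (hij : i ≠ j) (hil : i ≠ l) (hjl : j ≠ l) {u w u' v : Fin n}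
    (hm : MinChord Γ σ cor H i j l u w) (hm' : MinChord Γ σ cor H j i l u' v) : u' = u := by
  obtain ⟨x, hx, hux⟩ := star h hcor huniq hH hij hil hjl hm
  obtain ⟨z, hz, huz⟩ := star h hcor huniq hH hij.symm hjl hil hm'
  obtain ⟨hu, hw, huw, hmin⟩ := hm
  obtain ⟨hu', -, -, -⟩ := hm'
  rw [Finset.pair_comm] at hu'
  obtain ⟨n1, n2, n3, -, -, -⟩ := Chord3_ne i j l hij hil hjl
  have huw' : u ≠ w := by
    rintro rfl
    exact n1 (hu.symm.trans hw)
  have hux' : u ≠ x := by
    rintro rfl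
    exact n2 (hu.symm.trans hx)
  have huz' : u' ≠ z := by
    rintro rfl
    exact n1 (hu'.symm.trans hz)
  have hwΓ := hH.face u w huw' huw
  have hxΓ := hH.face u x hux' hux
  have hzΓ := hH.face u' z huz' huz
  by_contra hne
  rcases closer_total h hcor hij hu hu' (fun h1 => hne h1.symm) with hc | hc
  · have h1 := closer_lt h hcor hij hu hu' hc
    have h2 := hmin u' z hu' hz huz
    have h3 : #(arc Γ σ {i, l} ∅ (cor i) z) ≤ #(arc Γ σ {i, l} ∅ (cor i) w) := by
      by_cases hzw : z = w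
      · rw [hzw]
      by_cases hcz : Closer Γ σ cor i l w z
      · exact (closer_lt h hcor hil hw hz hcz).le
      · exact (cross3 h hcor huniq hij hil hjl hu hw hwΓ (p := u') (q := z)
          (Or.inl ⟨hu', hc⟩) (Or.inr (Or.inl ⟨hz, hzw, hcz⟩)) hzΓ).elim
    omega
  · exact cross3 h hcor huniq hij hil hjl hu' hz hzΓ (p := u) (q := x)
      (Or.inl ⟨hu, hc⟩) (Or.inr (Or.inr (Or.inl hx))) hxΓ

/-- Around the common end `u` of the minimal chords `{u, w}` around `i` and `{u, v}` around `j`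
there is no further chord, if `{w, v}` is a chord. Proof. Let `H {u, x}`, `x ≠ w, v`;
`σ x` is `{i, l}`, `{j, l}` or `{l}`. (a) `σ x = {i, l}`: by minimality `x` is not closer to `i`
than `w`, so `w` is closer than `x`, `w` is `Inside` for `{u, x}` around `i` and `v` is `Outside`:
`cross3` for `{w, v}`. (b) `σ x = {j, l}`: same around `j`. (c) `x = cor l`: `x` is `Inside` for
the chord `{w, v}` around the corner `l` and `u` is `Outside` (`σ u = {i, j}`). -/
theorem only_two (h : Tri Γ σ) {cor : Fin 3 → Fin n} (hcor : ∀ i, σ (cor i) = {i})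
    (huniq : ∀ i x, σ x = {i} → x = cor i) {H : Finset (Fin n) → Prop} (hH : ChordSet Γ σ H)
    {i j l : Fin 3} (hij : i ≠ j) (hil : i ≠ l) (hjl : j ≠ l) {u w v : Fin n}
    (hm : MinChord Γ σ cor H i j l u w) (hm' : MinChord Γ σ cor H j i l u v)
    (hwv : H {w, v}) {x : Fin n} (hxu : x ≠ u) (hx : H {u, x}) : x = w ∨ x = v := by
  by_contra hcon
  push Not at hcon
  obtain ⟨hxw, hxv⟩ := hcon
  obtain ⟨hu, hw, huw, -⟩ := id hm
  obtain ⟨hu', hv, huv, -⟩ := id hm'
  obtain ⟨n1, n2, n3, -, -, -⟩ := Chord3_ne i j l hij hil hjl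
  have hwv' : w ≠ v := by
    rintro rfl
    exact n3 (hw.symm.trans hv)
  have hwvΓ := hH.face w v hwv' hwv
  have hxΓ := hH.face u x hxu.symm hx
  have hx1 := hH.inter u x hxu.symm hx
  have hx2 := hH.notint x u hxu (by rwa [Finset.pair_comm])
  rw [hu] at hx1
  rcases Chord3_cases i j l hij hil hjl (σ x) hx1 hx2 with h1 | h1 | h1
  · have hc := Chord3_closer h hcor hil hm h1 hx hxw
    exact cross3 h hcor huniq hij hil hjl hu h1 hxΓ (p := w) (q := v)
      (Or.inr (Or.inl ⟨hw, hc⟩)) (Or.inr (Or.inr (Or.inl hv))) hwvΓ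
  · have hc := Chord3_closer h hcor hjl hm' h1 hx hxv
    exact cross3 h hcor huniq hij.symm hjl hil hu' h1 hxΓ (p := v) (q := w)
      (Or.inr (Or.inl ⟨hv, hc⟩)) (Or.inr (Or.inr (Or.inl hw)))
      (by rwa [Finset.pair_comm])
  · exact cross3 h hcor huniq hil.symm hjl.symm hij (i := l) (j := i) (l := j) (u := w) (w := v)
      (by rw [hw, Finset.pair_comm]) (by rw [hv, Finset.pair_comm]) hwvΓ (p := x) (q := u)
      (Or.inr (Or.inr h1)) (Or.inr (Or.inr (Or.inl hu))) (by rwa [Finset.pair_comm])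

/-- a chord both ends of which have carriers with two elements -/
theorem Chord3_start (h : Tri Γ σ) {cor : Fin 3 → Fin n}
    (huniq : ∀ i x, σ x = {i} → x = cor i)
    {H : Finset (Fin n) → Prop} (hH : ChordSet Γ σ H) {x y : Fin n} (hxy : x ≠ y)
    (hxyH : H {x, y}) (hx2 : #(σ x) = 2) :
    ∃ a c, a ≠ c ∧ H {a, c} ∧ #(σ a) = 2 ∧ #(σ c) = 2 := by
  by_cases hy2 : #(σ y) = 2
  · exact ⟨x, y, hxy, hxyH, hx2, hy2⟩
  obtain ⟨z, hzx, hzy, hxz⟩ := hH.second x y hxy hx2 hxyH
  refine ⟨x, z, hzx.symm, hxz, hx2, ?_⟩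
  by_contra hz2
  have hy' : H {y, x} := by rwa [Finset.pair_comm]
  have hz' : H {z, x} := by rwa [Finset.pair_comm]
  have h1 := Chord3_compl (σ x) (σ y) hx2 (h.nonempty y) (hH.notint y x hxy.symm hy')
    (hH.inter x y hxy hxyH) hy2
  have h2 := Chord3_compl (σ x) (σ z) hx2 (h.nonempty z) (hH.notint z x hzx hz')
    (hH.inter x z hzx.symm hxz) hz2
  obtain ⟨l, hl⟩ := Finset.card_eq_one.1 h1.2
  have h3 := huniq l y hl
  have h4 := huniq l z (by rw [h2.1, ← h1.1, hl])
  exact hzy (h4.trans h3.symm)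

/-- If there is a chord in `H` then `H` contains a triangle with no further chords at its
vertices. Proof. Let `{x, y}` be a chord. One of the ends is not a corner (two corners do not have
the union `univ`), its carrier has two elements, so by `second` there is a chord both ends of which
have carriers with two elements (a vertex `x` with `σ x = {i, j}` has at most one chord to a
corner, `cor l`); it is a chord around a corner `i`, `exists_minChord`. By `star` (and
`MinChord.symm`) there are chords around the corners `j` and `l`, so there are minimal chords around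
all the three corners; by `same_end` (three times, with `MinChord.symm`) they form a triangle
`u, w, v`; `only_two` at each of its vertices. -/
theorem triangle_of_chords (h : Tri Γ σ) {cor : Fin 3 → Fin n}
    (hcor : ∀ i, σ (cor i) = {i}) (huniq : ∀ i x, σ x = {i} → x = cor i)
    {H : Finset (Fin n) → Prop} (hH : ChordSet Γ σ H) {x y : Fin n} (hxy : x ≠ y)
    (hxyH : H {x, y}) :
    ∃ (i j l : Fin 3) (u w v : Fin n), i ≠ j ∧ i ≠ l ∧ j ≠ l ∧ σ u = {i, j} ∧ σ w = {i, l} ∧
      σ v = {j, l} ∧ H {u, w} ∧ H {u, v} ∧ H {w, v} ∧ (∀ z, z ≠ u → H {u, z} → z = w ∨ z = v) ∧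
      (∀ z, z ≠ w → H {w, z} → z = u ∨ z = v) ∧ (∀ z, z ≠ v → H {v, z} → z = u ∨ z = w) := by
  have hyx : H {y, x} := by rwa [Finset.pair_comm]
  have hstart : ∃ a c, a ≠ c ∧ H {a, c} ∧ #(σ a) = 2 ∧ #(σ c) = 2 := by
    rcases Chord3_some (σ x) (σ y) (hH.notint x y hxy hxyH) (hH.notint y x hxy.symm hyx)
      (hH.inter x y hxy hxyH) with h1 | h1
    · exact Chord3_start h huniq hH hxy hxyH h1
    · exact Chord3_start h huniq hH hxy.symm hyx h1
  obtain ⟨a, c, hac, hacH, ha, hc⟩ := hstart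
  obtain ⟨i, j, l, hij, hil, hjl, hai, hcl⟩ := Chord3_two (σ a) (σ c) ha hc
    (hH.inter a c hac hacH)
  obtain ⟨u, w, hMi⟩ := exists_minChord (Γ := Γ) (cor := cor) hai hcl hacH
  obtain ⟨x1, hx1, hux1⟩ := star h hcor huniq hH hij hil hjl hMi
  obtain ⟨x2, hx2, hwx2⟩ := star h hcor huniq hH hil hij hjl.symm hMi.symm
  have hu := hMi.1
  have hw := hMi.2.1
  obtain ⟨u', v, hMj⟩ := exists_minChord (Γ := Γ) (cor := cor) (i := j) (j := i) (l := l)
    (by rw [hu, Finset.pair_comm] : σ u = {j, i}) hx1 hux1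
  obtain ⟨w', v', hMl⟩ := exists_minChord (Γ := Γ) (cor := cor) (i := l) (j := i) (l := j)
    (by rw [hw, Finset.pair_comm] : σ w = {l, i}) hx2 hwx2
  have e1 : u' = u := same_end h hcor huniq hH hij hil hjl hMi hMj
  have e2 : w' = w := same_end h hcor huniq hH hil hij hjl.symm hMi.symm hMl
  subst e1 e2
  have e3 : v' = v := same_end h hcor huniq hH hjl hij.symm hil.symm hMj.symm hMl.symm
  subst e3
  have hv := hMj.2.1
  have hwvH : H {w', v'} := hMl.2.2.1
  have huvH : H {u', v'} := hMj.2.2.1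
  have huwH : H {u', w'} := hMi.2.2.1
  refine ⟨i, j, l, u', w', v', hij, hil, hjl, hu, hw, hv, huwH, huvH, hwvH, ?_, ?_, ?_⟩
  · intro z hz hzH
    exact only_two h hcor huniq hH hij hil hjl hMi hMj hwvH hz hzH
  · intro z hz hzH
    exact only_two h hcor huniq hH hil hij hjl.symm hMi.symm hMl huvH hz hzH
  · intro z hz hzH
    exact only_two h hcor huniq hH hjl hij.symm hil.symm hMj.symm hMl.symm huwH hz hzH

end Pool.Agent.Lib.MP_fd6ff4_co
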