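import Mathlib
import Pool.Agent.Lib.MP_fd6ff4_co.Alg

/-!
# Corners, and interior faces with `d` vertices
-/

set_option autoImplicit false

open Finset

namespace Pool.Agent.Lib.MP_fd6ff4_co

variable {d n : ℕ} {K : Type*} [Field K] {a : Fin d → Fin n → K}
  {σ : Fin n → Finset (Fin d)}
  {Γ : Finset (Finset (Fin n))}

/-- The corner `i`: there is exactly one vertex with the carrier `{i}`. Proof.
`ext_card_boundary` for `U = {i}`, `F = ∅` (`Tri.empty_mem`): `ext Γ σ {i} ∅` is the set of the
vertices `x` with `σ x ⊆ {i}`, i.e. `σ x = {i}` (`Tri.nonempty`). -/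
theorem exists_corner (h : Tri Γ σ) (i : Fin d) : ∃! c, σ c = {i} := by
  have hcar : car σ (∅ : Finset (Fin n)) = ∅ := by
    unfold car
    exact Finset.biUnion_empty
  have h1 : #(ext Γ σ {i} ∅) = 1 := by
    refine ext_card_boundary h ?_ h.empty_mem ?_ ?_ ?_
    · rw [Finset.card_singleton]
      omega
    · rw [hcar]
      exact Finset.empty_subset _
    · rw [hcar]
      exact (Finset.singleton_ne_empty i).symm
    · rw [Finset.card_singleton, Finset.card_empty]
  have hmem : ∀ x, x ∈ ext Γ σ {i} ∅ ↔ σ x = {i} := by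
    intro x
    unfold ext
    rw [Finset.mem_filter, car_insert, hcar, Finset.union_empty]
    constructor
    · rintro ⟨-, -, -, h2⟩
      exact Finset.eq_singleton_iff_nonempty_unique_mem.2
        ⟨h.nonempty x, fun y hy => Finset.mem_singleton.1 (h2 hy)⟩
    · intro h2
      refine ⟨Finset.mem_univ _, Finset.notMem_empty _, ?_, h2.le⟩
      exact h.vertex x
  obtain ⟨c, hc⟩ := Finset.card_eq_one.1 h1
  refine ⟨c, (hmem c).1 (by rw [hc]; exact Finset.mem_singleton_self c), ?_⟩
  intro y hy
  have h3 := (hmem y).2 hy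
  rw [hc] at h3
  exact Finset.mem_singleton.1 h3

private theorem corner_mem_car {F : Finset (Fin n)} {i : Fin d} :
    i ∈ car σ F ↔ ∃ x ∈ F, i ∈ σ x := by
  unfold car
  exact Finset.mem_biUnion

/-- Proof. Let `G` be interior with `d` vertices. If some `G.erase v` is interior use
`mon_mem_of_subset`. Otherwise each `v ∈ G` has a private element of `σ v` (in no other
`σ v'`, `v' ∈ G`); there are `d` of them, so `σ v` is a singleton for every `v ∈ G`, and these
singletons are all the `{i}`. Take any `i` (`1 ≤ d`), `v ∈ G` with `σ v = {i}`, `F = G.erase v`,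
`i ∉ car σ F`, and use `row_mem`: the terms `x ≠ v` have `σ x ≠ {i}` (`exists_corner`), so `σ x`
contains some `l ≠ i`; with `v' ∈ F`, `σ v' = {l}`, the set `insert x (F.erase v')` is an interior
face with `d - 1` vertices, the term is in `lowIdeal (d - 1)` by `mon_mem_of_subset`. What remains is
`C (aa i v) * mon G`. -/
theorem mon_mem_full (ha : Generic a σ) (h : Tri Γ σ) (hd : 1 ≤ d) {G : Finset (Fin n)} (hG : G ∈ Γ)
    (hc : car σ G = univ) (hcard : #G = d) : mon K G ∈ lowIdeal a σ Γ (d - 1) := by
  by_cases hex : ∃ v ∈ G, car σ (G.erase v) = univ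
  · obtain ⟨v, hv, hcv⟩ := hex
    refine mon_mem_of_subset (h.down _ hG _ (Finset.erase_subset v G)) hcv ?_
      (Finset.erase_subset v G)
    rw [Finset.card_erase_of_mem hv, hcard]
  · push Not at hex
    have hp : ∀ v ∈ G, ∃ i, i ∉ car σ (G.erase v) := by
      intro v hv
      by_contra hcon
      push Not at hcon
      exact hex v hv (Finset.eq_univ_iff_forall.2 hcon)
    have hd' : 0 < d := hd
    let i0 : Fin d := ⟨0, hd'⟩
    have : Nonempty (Fin d) := ⟨i0⟩
    choose! p hp using hp
    -- `p v` is not in the carrier of another vertex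
    have hpriv : ∀ v ∈ G, ∀ w ∈ G, w ≠ v → p v ∉ σ w := by
      intro v hv w hw hwv hmem
      exact hp v hv (corner_mem_car.2 ⟨w, Finset.mem_erase.2 ⟨hwv, hw⟩, hmem⟩)
    have hpmem : ∀ v ∈ G, p v ∈ σ v := by
      intro v hv
      have h1 : p v ∈ car σ G := by
        rw [hc]
        exact Finset.mem_univ _
      obtain ⟨w, hw, hmem⟩ := corner_mem_car.1 h1
      by_cases hwv : w = v
      · rw [← hwv]
        rw [hwv] at hmem ⊢
        exact hmem
      · exact absurd hmem (hpriv v hv w hw hwv)
    have hinj : Set.InjOn p (G : Set (Fin n)) := by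
      intro v hv w hw hvw
      by_contra hne
      have h1 := hpmem w hw
      rw [← hvw] at h1
      exact hpriv v hv w hw (Ne.symm hne) h1
    have himg : G.image p = univ := by
      rw [← Finset.card_eq_iff_eq_univ, Finset.card_image_of_injOn hinj, hcard, Fintype.card_fin]
    have hsurj : ∀ l : Fin d, ∃ v ∈ G, p v = l := by
      intro l
      have h1 : l ∈ G.image p := by
        rw [himg]
        exact Finset.mem_univ _
      exact Finset.mem_image.1 h1
    have hsing : ∀ v ∈ G, σ v = {p v} := by
      intro v hv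
      refine Finset.eq_singleton_iff_unique_mem.2 ⟨hpmem v hv, ?_⟩
      intro l hl
      obtain ⟨w, hw, hwl⟩ := hsurj l
      by_contra hne
      have hvw : v ≠ w := by
        rintro rfl
        exact hne hwl.symm
      rw [← hwl] at hl
      exact hpriv w hw v hv hvw hl
    obtain ⟨v, hv, hvi⟩ := hsurj i0
    have hσv : σ v = {i0} := by rw [hsing v hv, hvi]
    have hiF : i0 ∉ car σ (G.erase v) := by
      rw [← hvi]
      exact hp v hv
    have hrow := relIdeal_le_lowIdeal (a := a) (σ := σ) (Γ := Γ) (d - 1)
      (row_mem ha (Γ := Γ) hiF)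
    have hins : insert v (G.erase v) = G := Finset.insert_erase hv
    have hvmem : v ∈ univ.filter (fun x => i0 ∈ σ x ∧ insert x (G.erase v) ∈ Γ) := by
      rw [Finset.mem_filter]
      refine ⟨Finset.mem_univ _, ?_, ?_⟩
      · rw [hσv]
        exact Finset.mem_singleton_self _
      · rw [hins]
        exact hG
    rw [← Finset.add_sum_erase _ _ hvmem, hins] at hrow
    have hrest : ∑ x ∈ (univ.filter (fun x => i0 ∈ σ x ∧ insert x (G.erase v) ∈ Γ)).erase v,
        MvPolynomial.C (a i0 x) * mon K (insert x (G.erase v)) ∈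
          lowIdeal a σ Γ (d - 1) := by
      refine Ideal.sum_mem _ ?_
      intro x hx
      rw [Finset.mem_erase, Finset.mem_filter] at hx
      obtain ⟨hxv, -, hix, hxΓ⟩ := hx
      refine Ideal.mul_mem_left _ _ ?_
      have hσx : σ x ≠ {i0} := by
        intro hcon
        exact hxv ((exists_corner h i0).unique hcon hσv)
      have hl : ∃ l ∈ σ x, l ≠ i0 := by
        by_contra hcon
        push Not at hcon
        exact hσx (Finset.eq_singleton_iff_unique_mem.2 ⟨hix, hcon⟩)
      obtain ⟨l, hlx, hli⟩ := hl
      obtain ⟨w, hw, hwl⟩ := hsurj l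
      have hwv : w ≠ v := by
        rintro rfl
        exact hli (hwl.symm.trans hvi)
      have hwF : w ∈ G.erase v := Finset.mem_erase.2 ⟨hwv, hw⟩
      have hsub : insert x ((G.erase v).erase w) ⊆ insert x (G.erase v) :=
        Finset.insert_subset_insert x (Finset.erase_subset w _)
      refine mon_mem_of_subset (h.down _ hxΓ _ hsub) ?_ ?_ hsub
      · rw [Finset.eq_univ_iff_forall]
        intro m
        obtain ⟨u, hu, hum⟩ := hsurj m
        rw [corner_mem_car]
        by_cases h1 : m = i0
        · exact ⟨x, Finset.mem_insert_self _ _, by rw [h1]; exact hix⟩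
        by_cases h2 : m = l
        · exact ⟨x, Finset.mem_insert_self _ _, by rw [h2]; exact hlx⟩
        refine ⟨u, Finset.mem_insert_of_mem ?_, ?_⟩
        · rw [Finset.mem_erase, Finset.mem_erase]
          refine ⟨?_, ?_, hu⟩
          · rintro rfl
            exact h2 (hum.symm.trans hwl)
          · rintro rfl
            exact h1 (hum.symm.trans hvi)
        · rw [← hum]
          exact hpmem u hu
      · refine (Finset.card_insert_le _ _).trans ?_
        rw [Finset.card_erase_of_mem hwF, Finset.card_erase_of_mem hv, hcard]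
        have h3 : 0 < #(G.erase v) := Finset.card_pos.2 ⟨w, hwF⟩
        rw [Finset.card_erase_of_mem hv, hcard] at h3
        omega
    have h5 := (Ideal.add_mem_iff_left _ hrest).1 hrow
    have h6 := Ideal.mul_mem_left _ (MvPolynomial.C ((a i0 v)⁻¹)) h5
    rw [← mul_assoc, ← MvPolynomial.C_mul, inv_mul_cancel₀, MvPolynomial.C_1, one_mul] at h6
    · exact h6
    · refine aa_ne_zero ha ?_
      rw [hσv]
      exact Finset.mem_singleton_self _

/-- Every interior face contains an interior face with at most `d` vertices (choose for each `i` a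
vertex with `i` in its carrier). -/
theorem exists_small {G : Finset (Fin n)} (h : Tri Γ σ) (hG : G ∈ Γ) (hc : car σ G = univ) :
    ∃ H, H ⊆ G ∧ H ∈ Γ ∧ car σ H = univ ∧ #H ≤ d := by
  have h1 : ∀ i : Fin d, ∃ x ∈ G, i ∈ σ x := by
    intro i
    rw [← corner_mem_car, hc]
    exact Finset.mem_univ i
  choose v hv hiv using h1
  have hsub : Finset.univ.image v ⊆ G := by
    intro x hx
    obtain ⟨i, -, rfl⟩ := Finset.mem_image.1 hx
    exact hv i
  refine ⟨Finset.univ.image v, hsub, h.down _ hG _ hsub, ?_, ?_⟩
  · rw [Finset.eq_univ_iff_forall]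
    intro i
    rw [corner_mem_car]
    exact ⟨v i, Finset.mem_image_of_mem v (Finset.mem_univ i), hiv i⟩
  · refine Finset.card_image_le.trans ?_
    rw [Finset.card_univ, Fintype.card_fin]

end Pool.Agent.Lib.MP_fd6ff4_co
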