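import Mathlib
import Pool.Agent.Lib.MP_fd6ff4_co.Arc
import Pool.Agent.Lib.MP_fd6ff4_co.Cross

/-!
# The colours around a vertex on an edge of the simplex are monotone
-/

set_option autoImplicit false

open Finset

namespace Pool.Agent.Lib.MP_fd6ff4_co

variable {d n : ℕ} {Γ : Finset (Finset (Fin n))} {σ : Fin n → Finset (Fin d)}

private theorem Cross4_link_mono (h : Tri Γ σ) {V W : Finset (Fin d)} (hVW : V ⊆ W)
    {F : Finset (Fin n)} : link Γ σ V F ⊆ link Γ σ W F := by
  intro G hG
  rw [mem_link h] at hG ⊢
  exact ⟨hG.1, hG.2.1, hG.2.2.trans hVW⟩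

private theorem Cross4_mem_car {x : Fin n} {F : Finset (Fin n)} (hx : x ∈ F) {i : Fin d}
    (hi : i ∈ σ x) : i ∈ car σ F := by
  unfold car
  exact Finset.mem_biUnion.2 ⟨x, hx, hi⟩

private theorem Cross4_car_single (u : Fin n) : car σ {u} = σ u := by
  unfold car
  exact Finset.singleton_biUnion

private theorem Cross4_mem {S : Finset (Fin d)} {i : Fin d} {k : Fin n} (hk : σ k \ S = {i}) :
    i ∈ σ k := by
  have h1 : i ∈ σ k \ S := by
    rw [hk]
    exact Finset.mem_singleton_self i
  exact (Finset.mem_sdiff.1 h1).1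

private theorem Cross4_sub {S : Finset (Fin d)} {i : Fin d} {k : Fin n} (hk : σ k \ S = {i}) :
    σ k ⊆ insert i S := by
  intro x hx
  by_cases hxS : x ∈ S
  · exact Finset.mem_insert_of_mem hxS
  · have h1 : x ∈ σ k \ S := Finset.mem_sdiff.2 ⟨hx, hxS⟩
    rw [hk, Finset.mem_singleton] at h1
    rw [h1]
    exact Finset.mem_insert_self _ _

private theorem Cross4_notMem {S : Finset (Fin d)} {i l : Fin d} {m : Fin n}
    (hi : i ∉ S) (hil : i ≠ l) (hm : σ m \ S = {l}) : i ∉ σ m := by
  intro h1
  have h2 : i ∈ σ m \ S := Finset.mem_sdiff.2 ⟨h1, hi⟩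
  rw [hm, Finset.mem_singleton] at h2
  exact hil h2

private theorem Cross4_car_pair {u k : Fin n} {i : Fin d} (hk : σ k \ σ u = {i}) :
    car σ (insert k {u}) = insert i (σ u) := by
  rw [car_insert, Cross4_car_single]
  apply Finset.Subset.antisymm
  · exact Finset.union_subset (Cross4_sub hk) (Finset.subset_insert _ _)
  · intro x hx
    rcases Finset.mem_insert.1 hx with rfl | hx
    · exact Finset.mem_union_left _ (Cross4_mem hk)
    · exact Finset.mem_union_right _ hx

private theorem Cross4_ext (h : Tri Γ σ) {u k : Fin n} {i : Fin d} (hi : i ∉ σ u)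
    (hk : σ k \ σ u = {i}) {T : Finset (Fin n)} (hT : T ∈ Γ) (hkT : k ∈ T) (huT : u ∈ T) :
    k ∈ ext Γ σ (insert i (σ u)) {u} := by
  have hku : k ≠ u := by
    rintro rfl
    exact hi (Cross4_mem hk)
  unfold ext
  rw [Finset.mem_filter]
  refine ⟨Finset.mem_univ _, ?_, ?_, ?_⟩
  · rwa [Finset.mem_singleton]
  · refine h.down _ hT _ ?_
    intro x hx
    rcases Finset.mem_insert.1 hx with rfl | hx
    · exact hkT
    · rw [Finset.mem_singleton.1 hx]
      exact huT
  · rw [Cross4_car_pair hk]

private theorem Cross4_pair_link (h : Tri Γ σ) {u k m : Fin n} {i l : Fin d} (hi : i ∉ σ u)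
    (hl : l ∉ σ u) (hk : σ k \ σ u = {i}) (hm : σ m \ σ u = {l}) (hkm : {u, k, m} ∈ Γ) :
    ({k, m} : Finset (Fin n)) ∈ link Γ σ (insert i (insert l (σ u))) {u} ∧
      car σ ({k, m} ∪ {u}) = insert i (insert l (σ u)) := by
  have hku : k ≠ u := by
    rintro rfl
    exact hi (Cross4_mem hk)
  have hmu : m ≠ u := by
    rintro rfl
    exact hl (Cross4_mem hm)
  have h1 : ({k, m} : Finset (Fin n)) ∪ {u} = {u, k, m} := by
    ext x
    simp only [Finset.mem_union, Finset.mem_insert, Finset.mem_singleton]
    tauto
  have h2 : car σ ({k, m} ∪ {u}) = insert i (insert l (σ u)) := by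
    rw [h1, car_insert, car_insert, Cross4_car_single]
    apply Finset.Subset.antisymm
    · refine Finset.union_subset ?_ (Finset.union_subset ?_ ?_)
      · exact (Finset.subset_insert _ _).trans (Finset.subset_insert _ _)
      · exact (Cross4_sub hk).trans (Finset.insert_subset_insert _ (Finset.subset_insert _ _))
      · exact (Cross4_sub hm).trans (Finset.subset_insert _ _)
    · intro x hx
      rcases Finset.mem_insert.1 hx with rfl | hx
      · exact Finset.mem_union_right _ (Finset.mem_union_left _ (Cross4_mem hk))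
      · rcases Finset.mem_insert.1 hx with rfl | hx
        · exact Finset.mem_union_right _ (Finset.mem_union_right _ (Cross4_mem hm))
        · exact Finset.mem_union_left _ hx
  refine ⟨(mem_link h).2 ⟨?_, ?_, h2.le⟩, h2⟩
  · rw [Finset.disjoint_singleton_right]
    intro hh
    rcases Finset.mem_insert.1 hh with hh | hh
    · exact hku hh.symm
    · exact hmu (Finset.mem_singleton.1 hh).symm
  · rwa [h1]

/-- `u` is a vertex inside the edge `σ u = {j, e}` of the simplex, `a` one of its two neighbours in
`Γ_{σ u}`, `i ≠ l` are not in `σ u`; `k, k'` have the colour `i`, i.e. `σ k \ σ u = {i}`, and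
`m, m'` have the colour `l`. If `{u,k,m}` and `{u,k',m'}` are faces and `k'` is on the arc from `k`
to `a` then `m'` is on the arc from `m` to `a`.

Proof. Suppose not. Use `no_cross` with `U = insert i (insert l (σ u))` (four elements), `F = {u}`,
`β` = union of the arc from `k` to `a` in the link of `u` in `Γ_{insert i (σ u)}` and the arc from
`m` to `a` in the link of `u` in `Γ_{insert l (σ u)}` (`isArc_arc`; the links for the smaller sets
are contained in the link for `U`), `p = k`, `q = m`, `p' = k'`, `q' = m'`. The two arcs are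
disjoint: a common edge `G` has `car σ (G ∪ {u}) ⊆ σ u`, but `#(G ∪ {u}) = 3 > 2` contradicts
`BallAt.dim` (for `U = σ u`, `F = {u}`). So the degree in `β` is the sum of the degrees in the arcs,
odd exactly at `k` and `m` (twice odd at `a`; `k` and `m` are different from each other and from `a`,
and `k` does not lie on the second arc because `i ∈ σ k`, `m` not on the first). `hβU`: the edges of
the arcs have `car σ (G ∪ {u}) ⊆ insert i (σ u)` or `⊆ insert l (σ u)`. `hin`: a boundary edge `G`
at `k'` (`car σ (G ∪ {u}) ≠ U`, it contains `i, σ u`, so it does not contain `l`) is an edge at `k'`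
of the link in `Γ_{insert i (σ u)}`, so it is on the arc (`arc_full`). `hout`: the edges of the
first arc do not contain `m'` because `l ∈ σ m'`, those of the second arc do not by assumption. -/
theorem cross4 (h : Tri Γ σ) {u a : Fin n} (hu : #(σ u) = 2) (ha : a ∈ ext Γ σ (σ u) {u})
    {i l : Fin d} (hi : i ∉ σ u) (hl : l ∉ σ u) (hil : i ≠ l) {k k' m m' : Fin n}
    (hk : σ k \ σ u = {i}) (hk' : σ k' \ σ u = {i}) (hm : σ m \ σ u = {l})
    (hm' : σ m' \ σ u = {l}) (hkm : {u, k, m} ∈ Γ) (hkm' : {u, k', m'} ∈ Γ) (hkk' : k ≠ k')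
    (hmm' : m ≠ m') (hab : ∃ G ∈ arc Γ σ (insert i (σ u)) {u} a k, k' ∈ G) :
    ∃ G ∈ arc Γ σ (insert l (σ u)) {u} a m, m' ∈ G := by
  by_contra hcon
  have hS : car σ {u} = σ u := Cross4_car_single u
  have huΓ : ({u} : Finset (Fin n)) ∈ Γ := h.vertex u
  have hUi : #(insert i (σ u)) = 3 := by rw [Finset.card_insert_of_notMem hi, hu]
  have hUl : #(insert l (σ u)) = 3 := by rw [Finset.card_insert_of_notMem hl, hu]
  have hil' : i ∉ insert l (σ u) := by
    rw [Finset.mem_insert]
    rintro (h1 | h1)
    · exact hil h1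
    · exact hi h1
  have hli' : l ∉ insert i (σ u) := by
    rw [Finset.mem_insert]
    rintro (h1 | h1)
    · exact hil h1.symm
    · exact hl h1
  have hU : #(insert i (insert l (σ u))) = 4 := by rw [Finset.card_insert_of_notMem hil', hUl]
  have hc4 : car σ {u} ⊆ insert i (insert l (σ u)) := by
    rw [hS]
    exact (Finset.subset_insert _ _).trans (Finset.subset_insert _ _)
  have hci : car σ {u} ⊆ insert i (σ u) := by
    rw [hS]
    exact Finset.subset_insert _ _
  have hcl : car σ {u} ⊆ insert l (σ u) := by
    rw [hS]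
    exact Finset.subset_insert _ _
  have hne4 : car σ {u} ≠ insert i (insert l (σ u)) := by
    rw [hS]
    intro h1
    apply hi
    rw [h1]
    exact Finset.mem_insert_self _ _
  -- the vertex a
  have ha' := ha
  unfold ext at ha'
  rw [Finset.mem_filter] at ha'
  obtain ⟨-, hau, haΓ, hac⟩ := ha'
  have hext : ∀ j : Fin d, a ∈ ext Γ σ (insert j (σ u)) {u} := by
    intro j
    unfold ext
    rw [Finset.mem_filter]
    exact ⟨Finset.mem_univ _, hau, haΓ, hac.trans (Finset.subset_insert _ _)⟩
  have haU : ∀ j : Fin d, j ∉ σ u → car σ (insert a {u}) ≠ insert j (σ u) := by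
    intro j hj h1
    apply hj
    apply hac
    rw [h1]
    exact Finset.mem_insert_self _ _
  have haσ : σ a ⊆ σ u := by
    intro x hx
    exact hac (Cross4_mem_car (Finset.mem_insert_self _ _) hx)
  have hka : k ≠ a := by
    rintro rfl
    exact hi (haσ (Cross4_mem hk))
  have hma : m ≠ a := by
    rintro rfl
    exact hl (haσ (Cross4_mem hm))
  have hmemu : ∀ x y : Fin n, u ∈ ({u, x, y} : Finset (Fin n)) := fun x y =>
    Finset.mem_insert_self _ _
  have hkx := Cross4_ext h hi hk hkm (by simp) (hmemu k m)
  have hk'x := Cross4_ext h hi hk' hkm' (by simp) (hmemu k' m')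
  have hmx := Cross4_ext h hl hm hkm (by simp) (hmemu k m)
  have hm'x := Cross4_ext h hl hm' hkm' (by simp) (hmemu k' m')
  have hcardi : #({u} : Finset (Fin n)) + 2 = #(insert i (σ u)) := by
    rw [Finset.card_singleton, hUi]
  have hcardl : #({u} : Finset (Fin n)) + 2 = #(insert l (σ u)) := by
    rw [Finset.card_singleton, hUl]
  obtain ⟨hA1, hA12, hA1o⟩ := isArc_arc h (by omega) huΓ hci hcardi (hext i) hkx hka
  obtain ⟨hA2, hA22, hA2o⟩ := isArc_arc h (by omega) huΓ hcl hcardl (hext l) hmx hma
  -- the arcs are disjoint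
  have hdisj : Disjoint (arc Γ σ (insert i (σ u)) {u} a k) (arc Γ σ (insert l (σ u)) {u} a m) := by
    rw [Finset.disjoint_left]
    intro G hG1 hG2
    have h1 := (mem_link h).1 (hA1 hG1)
    have h2 := (mem_link h).1 (hA2 hG2)
    have h3 : G ∈ link Γ σ (σ u) {u} := by
      rw [mem_link h]
      refine ⟨h1.1, h1.2.1, ?_⟩
      intro x hx
      rcases Finset.mem_insert.1 (h1.2.2 hx) with h4 | h4
      · exfalso
        rw [h4] at hx
        exact hil' (h2.2.2 hx)
      · exact h4
    have h4 := (h.ball (σ u) (by omega) {u} huΓ hS.le).dim G h3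
    rw [hA12 G hG1, Finset.card_singleton] at h4
    omega
  have hkm_ne : k ≠ m := by
    rintro rfl
    exact Cross4_notMem hi hil hm (Cross4_mem hk)
  have hk'm'_ne : k' ≠ m' := by
    rintro rfl
    exact Cross4_notMem hi hil hm' (Cross4_mem hk')
  have hk'm_ne : k' ≠ m := by
    rintro rfl
    exact Cross4_notMem hi hil hm (Cross4_mem hk')
  have hm'k_ne : m' ≠ k := by
    rintro rfl
    exact Cross4_notMem hl hil.symm hk (Cross4_mem hm')
  obtain ⟨hpql, hpqU⟩ := Cross4_pair_link h hi hl hk hm hkm
  obtain ⟨hpql', hpqU'⟩ := Cross4_pair_link h hi hl hk' hm' hkm'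
  refine no_cross h (by omega) huΓ hc4 hne4 (by rw [Finset.card_singleton, hU])
    (β := arc Γ σ (insert i (σ u)) {u} a k ∪ arc Γ σ (insert l (σ u)) {u} a m)
    ?_ ?_ ?_ hkm_ne hpql hpqU ?_ hk'm'_ne hpql' hkk'.symm hk'm_ne hm'k_ne hmm'.symm ?_ ?_ ?_ ?_
  · apply Finset.union_subset
    · exact hA1.trans (Cross4_link_mono h (Finset.insert_subset_insert _ (Finset.subset_insert _ _)))
    · exact hA2.trans (Cross4_link_mono h (Finset.subset_insert _ _))
  · intro G hG
    rcases Finset.mem_union.1 hG with hG | hG
    · exact hA12 G hG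
    · exact hA22 G hG
  · intro G hG h1
    rcases Finset.mem_union.1 hG with hG | hG
    · have h2 := ((mem_link h).1 (hA1 hG)).2.2
      rw [h1] at h2
      exact hli' (h2 (Finset.mem_insert_of_mem (Finset.mem_insert_self _ _)))
    · have h2 := ((mem_link h).1 (hA2 hG)).2.2
      rw [h1] at h2
      exact hil' (h2 (Finset.mem_insert_self _ _))
  · intro y
    rw [Finset.filter_union, Finset.card_union_of_disjoint
      (Finset.disjoint_filter_filter hdisj), Nat.odd_add, hA1o y, ← Nat.not_odd_iff_even, hA2o y]
    constructor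
    · intro h1
      by_cases hyk : y = k
      · exact Or.inl hyk
      · by_cases hym : y = m
        · exact Or.inr hym
        · exfalso
          by_cases hya : y = a
          · exact (h1.1 (Or.inr hya)) (Or.inr hya)
          · have h2 : ¬ (y = m ∨ y = a) := by
              rintro (h2 | h2)
              · exact hym h2
              · exact hya h2
            rcases h1.2 h2 with h3 | h3
            · exact hyk h3
            · exact hya h3
    · rintro (rfl | rfl)
      · constructor
        · rintro - (h2 | h2)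
          · exact hkm_ne h2
          · exact hka h2
        · intro _
          exact Or.inl rfl
      · constructor
        · rintro (h2 | h2)
          · exact absurd h2.symm hkm_ne
          · exact absurd h2 hma
        · intro h2
          exact absurd (Or.inl rfl) h2
  · rw [Cross4_car_pair hk']
    intro h1
    apply hli'
    rw [h1]
    exact Finset.mem_insert_of_mem (Finset.mem_insert_self _ _)
  · rw [Cross4_car_pair hm']
    intro h1
    apply hil'
    rw [h1]
    exact Finset.mem_insert_self _ _
  · intro G hG hG2 hk'G hGU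
    apply Finset.mem_union_left
    have h1 := (mem_link h).1 hG
    have hsub : insert i (σ u) ⊆ car σ (G ∪ {u}) := by
      intro x hx
      rcases Finset.mem_insert.1 hx with rfl | hx
      · exact Cross4_mem_car (Finset.mem_union_left _ hk'G) (Cross4_mem hk')
      · exact Cross4_mem_car (Finset.mem_union_right _ (Finset.mem_singleton_self u)) hx
    have hlc : l ∉ car σ (G ∪ {u}) := by
      intro hlc
      apply hGU
      apply Finset.Subset.antisymm h1.2.2
      intro x hx
      rcases Finset.mem_insert.1 hx with rfl | hx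
      · exact hsub (Finset.mem_insert_self _ _)
      · rcases Finset.mem_insert.1 hx with rfl | hx
        · exact hlc
        · exact hsub (Finset.mem_insert_of_mem hx)
    have hGl : G ∈ link Γ σ (insert i (σ u)) {u} := by
      rw [mem_link h]
      refine ⟨h1.1, h1.2.1, ?_⟩
      intro x hx
      rcases Finset.mem_insert.1 (h1.2.2 hx) with h2 | h2
      · rw [h2]
        exact Finset.mem_insert_self _ _
      · rcases Finset.mem_insert.1 h2 with h3 | h3
        · rw [h3] at hx
          exact absurd hx hlc
        · exact Finset.mem_insert_of_mem h3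
    exact arc_full h (by omega) huΓ hci hcardi (hext i) (haU i hi) hkx (Cross4_car_pair hk) hk'x
      (Cross4_car_pair hk') hkk'.symm hab hGl hG2 hk'G
  · intro G hG hm'G
    rcases Finset.mem_union.1 hG with hG | hG
    · have h2 := ((mem_link h).1 (hA1 hG)).2.2
      exact hli' (h2 (Cross4_mem_car (Finset.mem_union_left _ hm'G) (Cross4_mem hm')))
    · exact hcon ⟨G, hG, hm'G⟩

end Pool.Agent.Lib.MP_fd6ff4_co
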