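import Mathlib
import Pool.Agent.Lib.MP_fd6ff4_co.Chord3
import Pool.Agent.Lib.MP_fd6ff4_co.Corner

/-!
# Interior edges for `d = 3`
-/

set_option autoImplicit false

open Finset

namespace Pool.Agent.Lib.MP_fd6ff4_co

variable {n : ℕ} {K : Type*} [Field K] {a : Fin 3 → Fin n → K}
  {σ : Fin n → Finset (Fin 3)}
  {Γ : Finset (Finset (Fin n))}

/-- the class of the monomial of `c` modulo `lowIdeal 1` -/
noncomputable def Step3_y (a : Fin 3 → Fin n → K) (σ : Fin n → Finset (Fin 3))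
    (Γ : Finset (Finset (Fin n))) (c : Finset (Fin n)) :
    MvPolynomial (Fin n) K ⧸ lowIdeal a σ Γ 1 :=
  Ideal.Quotient.mk (lowIdeal a σ Γ 1) (mon K c)

/-- the scalar `s` in the quotient -/
noncomputable def Step3_c (a : Fin 3 → Fin n → K) (σ : Fin n → Finset (Fin 3))
    (Γ : Finset (Finset (Fin n))) (s : K) :
    MvPolynomial (Fin n) K ⧸ lowIdeal a σ Γ 1 :=
  Ideal.Quotient.mk (lowIdeal a σ Γ 1) (MvPolynomial.C s)

theorem Step3_y_eq_zero {c : Finset (Fin n)} :
    Step3_y a σ Γ c = 0 ↔ mon K c ∈ lowIdeal a σ Γ 1 :=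
  Ideal.Quotient.eq_zero_iff_mem

theorem Step3_c_mul (s t : K) : Step3_c a σ Γ (s * t) = Step3_c a σ Γ s * Step3_c a σ Γ t := by
  simp only [Step3_c, map_mul]

theorem Step3_c_add (s t : K) : Step3_c a σ Γ (s + t) = Step3_c a σ Γ s + Step3_c a σ Γ t := by
  simp only [Step3_c, map_add]

/-- nonzero scalars are units -/
theorem Step3_unit {s : K} (hs : s ≠ 0)
    {z : MvPolynomial (Fin n) K ⧸ lowIdeal a σ Γ 1} (h : Step3_c a σ Γ s * z = 0) :
    z = 0 := by
  have h1 : Step3_c a σ Γ s⁻¹ * (Step3_c a σ Γ s * z) = 0 := by rw [h, mul_zero]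
  rw [← mul_assoc, ← Step3_c_mul, inv_mul_cancel₀ hs] at h1
  simpa [Step3_c] using h1

/-- the relation at the vertex `u`, in the quotient -/
theorem Step3_rel (ha : Generic a σ) {i : Fin 3} {u : Fin n} (hi : i ∉ σ u) :
    ∑ x ∈ univ.filter (fun x => i ∈ σ x ∧ insert x {u} ∈ Γ),
      Step3_c a σ Γ (a i x) * Step3_y a σ Γ (insert x {u}) = 0 := by
  have h1 : i ∉ car σ {u} := by simpa [car] using hi
  have h2 := relIdeal_le_lowIdeal (a := a) (σ := σ) (Γ := Γ) 1 (row_mem ha (Γ := Γ) h1)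
  have h3 := Ideal.Quotient.eq_zero_iff_mem.2 h2
  rw [map_sum] at h3
  simpa only [map_mul, Step3_c, Step3_y] using h3

/-- the chords -/
def Step3_H (a : Fin 3 → Fin n → K) (σ : Fin n → Finset (Fin 3))
    (Γ : Finset (Finset (Fin n))) (c : Finset (Fin n)) : Prop :=
  Step3_y a σ Γ c ≠ 0 ∧ c ∈ Γ ∧ #c = 2 ∧ car σ c = univ

theorem Step3_car_pair (x y : Fin n) : car σ {x, y} = σ x ∪ σ y := by
  simp [car, Finset.biUnion_insert]

theorem Step3_missing : ∀ S : Finset (Fin 3), #S = 2 → ∃ i, i ∉ S := by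
  decide

theorem Step3_union : ∀ (i : Fin 3) (S T : Finset (Fin 3)), #S = 2 → i ∉ S → i ∈ T →
    S ∪ T = univ := by
  decide

/-- a term of the relation at `u` is zero if it is not a chord -/
theorem Step3_term {i : Fin 3} {u x : Fin n} (hu2 : #(σ u) = 2) (hiu : i ∉ σ u) (hix : i ∈ σ x)
    (hx : insert x {u} ∈ Γ) (hH : ¬ Step3_H a σ Γ {u, x}) :
    Step3_c a σ Γ (a i x) * Step3_y a σ Γ (insert x {u}) = 0 := by
  have hxu : x ≠ u := by
    rintro rfl
    exact hiu hix
  have e : (insert x {u} : Finset (Fin n)) = {u, x} := Finset.pair_comm x u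
  rw [e] at hx ⊢
  have h1 : Step3_y a σ Γ {u, x} = 0 := by
    by_contra h2
    refine hH ⟨h2, hx, Finset.card_pair hxu.symm, ?_⟩
    rw [Step3_car_pair]
    exact Step3_union i _ _ hu2 hiu hix
  rw [h1, mul_zero]

/-- the relation at `u` if there are only two chords at `u` -/
theorem Step3_rel_two (ha : Generic a σ) {i : Fin 3} {u w v : Fin n} (hu2 : #(σ u) = 2) (hiu : i ∉ σ u)
    (hiw : i ∈ σ w) (hiv : i ∈ σ v) (hwv : w ≠ v) (hw : Step3_H a σ Γ {u, w})
    (hv : Step3_H a σ Γ {u, v}) (honly : ∀ z, z ≠ u → Step3_H a σ Γ {u, z} → z = w ∨ z = v) :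
    Step3_c a σ Γ (a i w) * Step3_y a σ Γ {u, w} +
      Step3_c a σ Γ (a i v) * Step3_y a σ Γ {u, v} = 0 := by
  have h1 := Step3_rel ha (Γ := Γ) hiu
  have hsub : ({w, v} : Finset (Fin n)) ⊆
      univ.filter (fun x => i ∈ σ x ∧ insert x {u} ∈ Γ) := by
    intro x hx
    rw [Finset.mem_insert, Finset.mem_singleton] at hx
    rw [Finset.mem_filter]
    rcases hx with rfl | rfl
    · exact ⟨mem_univ _, hiw, by rw [Finset.pair_comm]; exact hw.2.1⟩
    · exact ⟨mem_univ _, hiv, by rw [Finset.pair_comm]; exact hv.2.1⟩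
  rw [← Finset.sum_subset hsub ?_] at h1
  · rw [Finset.sum_pair hwv, Finset.pair_comm w u, Finset.pair_comm v u] at h1
    exact h1
  · intro x hx hx'
    rw [Finset.mem_filter] at hx
    rw [Finset.mem_insert, Finset.mem_singleton] at hx'
    refine Step3_term hu2 hiu hx.2.1 hx.2.2 fun hH => hx' (honly x ?_ hH)
    rintro rfl
    exact hiu hx.2.1

/-- the chords form a `ChordSet` -/
theorem Step3_chordSet (ha : Generic a σ) (h : Tri Γ σ) : ChordSet Γ σ (Step3_H a σ Γ) := by
  constructor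
  · intro x y _ hH
    exact hH.2.1
  · intro x y _ hH
    rw [← Step3_car_pair]
    exact hH.2.2.2
  · intro x y _ hH hx
    apply hH.1
    rw [Step3_y_eq_zero]
    exact mon_mem_of_subset (H := {x}) (h.vertex x) (by simpa [car] using hx) (by simp)
      (by simp)
  · intro u x hux hu2 hH
    by_contra hcon
    push Not at hcon
    obtain ⟨i, hi⟩ := Step3_missing (σ u) hu2
    have hix : i ∈ σ x := by
      have h1 := hH.2.2.2
      rw [Step3_car_pair] at h1
      have h2 : i ∈ σ u ∪ σ x := by rw [h1]; exact mem_univ _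
      rw [Finset.mem_union] at h2
      exact h2.resolve_left hi
    have h1 := Step3_rel ha (Γ := Γ) hi
    have hxm : x ∈ univ.filter (fun x => i ∈ σ x ∧ insert x {u} ∈ Γ) := by
      rw [Finset.mem_filter]
      exact ⟨mem_univ _, hix, by rw [Finset.pair_comm]; exact hH.2.1⟩
    rw [Finset.sum_eq_single_of_mem x hxm ?_] at h1
    · rw [Finset.pair_comm x u] at h1
      exact hH.1 (Step3_unit (aa_ne_zero ha hix) h1)
    · intro z hz hzx
      rw [Finset.mem_filter] at hz
      refine Step3_term hu2 hi hz.2.1 hz.2.2 fun hHz => ?_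
      have hzu : z ≠ u := by
        rintro rfl
        exact hi hz.2.1
      exact hcon z hzu hzx hHz

/-- Proof. Let `y c = mk (mon c)` in the quotient by `lowIdeal a σ Γ 1`, and let `H c` mean: `y c`
is not zero and `c ∈ Γ`, `#c = 2`, `car σ c = univ`. If `H {x, z}` then `σ x ≠ univ` and
`σ z ≠ univ` (`mon_mem_of_subset` with `{x}`). `H` is a `ChordSet`: for `u` with `#(σ u) = 2`, `i`
the missing element, `row_mem` for `F = {u}` and `i` gives `∑ C (aa i x) * y {u, x} = 0` over the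
`x` with `i ∈ σ x`, `{u, x} ∈ Γ`; if `{u, x}` were the only chord of `H` at `u` then
`C (aa i x) * y {u, x} = 0`, but `aa i x ≠ 0`. If `G ∈ Γ` is interior with two vertices and `mon G`
is not in `lowIdeal 1` then `H G`, and by `triangle_of_chords` there is a triangle `u, w, v`; the
relations at `u` (missing `l`), `w` (missing `j`), `v` (missing `i`) have only two terms:
`a_lw y_uw + a_lv y_uv = 0`, `a_ju y_uw + a_jv y_wv = 0`, `a_iu y_uv + a_iw y_wv = 0`; so
`(a_iu a_jv a_lw + a_ju a_lv a_iw) y_uw = 0`, and `det_ne_zero` gives `y_uw = 0`. -/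
theorem mon_mem_three (ha : Generic a σ) (h : Tri Γ σ) {G : Finset (Fin n)} (hG : G ∈ Γ)
    (hc : car σ G = univ) (hcard : #G = 2) : mon K G ∈ lowIdeal a σ Γ 1 := by
  by_contra hnot
  obtain ⟨x, y, hxy, rfl⟩ := Finset.card_eq_two.1 hcard
  have hHG : Step3_H a σ Γ {x, y} := ⟨fun h1 => hnot (Step3_y_eq_zero.1 h1), hG, hcard, hc⟩
  choose cor hcor huniq0 using fun i : Fin 3 => exists_corner h i
  have huniq : ∀ i x, σ x = {i} → x = cor i := fun i x hx => huniq0 i x hx
  obtain ⟨i, j, l, u, w, v, hij, hil, hjl, hu, hw, hv, huw, huv, hwv, ou, ow, ov⟩ :=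
    triangle_of_chords h hcor huniq (Step3_chordSet ha h) hxy hHG
  obtain ⟨n1, n2, n3, c1, c2, c3⟩ := Chord3_ne i j l hij hil hjl
  have huw' : u ≠ w := by
    rintro rfl
    exact n1 (hu.symm.trans hw)
  have huv' : u ≠ v := by
    rintro rfl
    exact n2 (hu.symm.trans hv)
  have hwv' : w ≠ v := by
    rintro rfl
    exact n3 (hw.symm.trans hv)
  have R1 := Step3_rel_two ha (i := l) (by rw [hu]; exact c1)
    (by rw [hu]; simp [hil.symm, hjl.symm]) (by rw [hw]; simp) (by rw [hv]; simp) hwv' huw huv ou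
  have R2 := Step3_rel_two ha (i := j) (u := w) (w := u) (v := v) (by rw [hw]; exact c2)
    (by rw [hw]; simp [hij.symm, hjl]) (by rw [hu]; simp) (by rw [hv]; simp) huv'
    (by rwa [Finset.pair_comm]) hwv ow
  have R3 := Step3_rel_two ha (i := i) (u := v) (w := u) (v := w) (by rw [hv]; exact c3)
    (by rw [hv]; simp [hij, hil]) (by rw [hu]; simp) (by rw [hw]; simp) huw'
    (by rwa [Finset.pair_comm]) (by rwa [Finset.pair_comm]) ov
  rw [Finset.pair_comm w u] at R2
  rw [Finset.pair_comm v u, Finset.pair_comm v w] at R3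
  have hdet := det_ne_zero ha (x := u) (y := v) (z := w) (i := i) (j := j)
    (l := l) huv' hwv'.symm huw' hij
    ⟨by rw [hu]; simp, by rw [hu]; simp⟩ ⟨by rw [hv]; simp, by rw [hv]; simp⟩
    ⟨by rw [hw]; simp, by rw [hw]; simp⟩
  have key : Step3_c a σ Γ (a i u * a j v * a l w +
      a j u * a l v * a i w) * Step3_y a σ Γ {u, w} = 0 := by
    simp only [Step3_c_add, Step3_c_mul]
    linear_combination (Step3_c a σ Γ (a i u) * Step3_c a σ Γ (a j v)) * R1 -
      (Step3_c a σ Γ (a j v) * Step3_c a σ Γ (a l v)) * R3 +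
      (Step3_c a σ Γ (a l v) * Step3_c a σ Γ (a i w)) * R2
  exact huw.1 (Step3_unit hdet key)

end Pool.Agent.Lib.MP_fd6ff4_co
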