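import Mathlib
import Pool.Agent.Lib.MP_fd6ff4_co.Order
import Pool.Agent.Lib.MP_fd6ff4_co.Cross4

/-!
# There are no rainbow cycles around a vertex on an edge of the simplex
-/

set_option autoImplicit false

open Finset

namespace Pool.Agent.Lib.MP_fd6ff4_co

variable {d n : ℕ} {Γ : Finset (Finset (Fin n))} {σ : Fin n → Finset (Fin d)}

/-- `W` together with `u` is a face, every vertex of `W` has a colour in `T` and every colour of `T`
occurs exactly once (`k` has the colour `i` if `σ k \ σ u = {i}`). -/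
def Rain (Γ : Finset (Finset (Fin n))) (σ : Fin n → Finset (Fin d)) (u : Fin n)
    (T : Finset (Fin d)) (W : Finset (Fin n)) : Prop :=
  insert u W ∈ Γ ∧ (∀ k ∈ W, ∃ i ∈ T, σ k \ σ u = {i}) ∧
    ∀ i ∈ T, ∃! k, k ∈ W ∧ σ k \ σ u = {i}

/-- Removing the vertex of colour `i`. -/
theorem rain_erase (h : Tri Γ σ) {u : Fin n} {T : Finset (Fin d)} {W : Finset (Fin n)}
    (hW : Rain Γ σ u T W) {i : Fin d} {k : Fin n} (hk : k ∈ W) (hki : σ k \ σ u = {i}) :
    Rain Γ σ u (T.erase i) (W.erase k) := by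
  obtain ⟨h1, h2, h3⟩ := hW
  have hiT : i ∈ T := by
    obtain ⟨i', hi', he⟩ := h2 k hk
    rw [hki] at he
    rw [Finset.singleton_inj.1 he]
    exact hi'
  refine ⟨?_, ?_, ?_⟩
  · refine h.down _ h1 _ (Finset.insert_subset_insert _ (Finset.erase_subset _ _))
  · intro k' hk'
    rw [Finset.mem_erase] at hk'
    obtain ⟨i', hi', he⟩ := h2 k' hk'.2
    refine ⟨i', ?_, he⟩
    rw [Finset.mem_erase]
    refine ⟨?_, hi'⟩
    intro hii
    rw [hii] at he
    exact hk'.1 ((h3 i hiT).unique ⟨hk'.2, he⟩ ⟨hk, hki⟩)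
  · intro i' hi'
    rw [Finset.mem_erase] at hi'
    obtain ⟨k', hk', huniq⟩ := h3 i' hi'.2
    refine ⟨k', ⟨?_, hk'.2⟩, ?_⟩
    · rw [Finset.mem_erase]
      refine ⟨?_, hk'.1⟩
      intro hkk
      have he := hk'.2
      rw [hkk, hki] at he
      exact hi'.1 (Finset.singleton_inj.1 he).symm
    · intro z hz
      exact huniq z ⟨Finset.mem_of_mem_erase hz.1, hz.2⟩

/-- Adding a vertex of colour `i`. -/
theorem rain_insert {u : Fin n} {T : Finset (Fin d)} {W : Finset (Fin n)} {i : Fin d}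
    (hi : i ∈ T) (hW : Rain Γ σ u (T.erase i) W) {k : Fin n} (hki : σ k \ σ u = {i})
    (hkW : insert k (insert u W) ∈ Γ) : Rain Γ σ u T (insert k W) := by
  obtain ⟨h1, h2, h3⟩ := hW
  refine ⟨?_, ?_, ?_⟩
  · rw [Finset.insert_comm]
    exact hkW
  · intro k' hk'
    rw [Finset.mem_insert] at hk'
    rcases hk' with rfl | hk'
    · exact ⟨i, hi, hki⟩
    · obtain ⟨i', hi', he⟩ := h2 k' hk'
      exact ⟨i', Finset.mem_of_mem_erase hi', he⟩
  · intro i' hi'
    by_cases hii : i' = i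
    · rw [hii]
      refine ⟨k, ⟨Finset.mem_insert_self _ _, hki⟩, ?_⟩
      intro z hz
      rcases Finset.mem_insert.1 hz.1 with hzk | hzW
      · exact hzk
      · exfalso
        obtain ⟨j, hj, he⟩ := h2 z hzW
        rw [hz.2] at he
        rw [Finset.mem_erase] at hj
        exact hj.1 (Finset.singleton_inj.1 he).symm
    · obtain ⟨k', hk', huniq⟩ := h3 i' (Finset.mem_erase.2 ⟨hii, hi'⟩)
      refine ⟨k', ⟨Finset.mem_insert_of_mem hk'.1, hk'.2⟩, ?_⟩
      intro z hz
      rcases Finset.mem_insert.1 hz.1 with hzk | hzW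
      · exfalso
        have he := hz.2
        rw [hzk, hki] at he
        exact hii (Finset.singleton_inj.1 he).symm
      · exact huniq z ⟨hzW, hz.2⟩

/-- A vertex of colour `i` adjacent to `u` is an inner vertex of the path around `u` in the face
`insert i (σ u)` of the simplex. -/
private theorem Rainbow_inner {u k : Fin n} {i : Fin d} (hk : σ k \ σ u = {i})
    (hku : insert k {u} ∈ Γ) :
    k ∈ ext Γ σ (insert i (σ u)) {u} ∧ car σ (insert k {u}) = insert i (σ u) := by
  have hcar : car σ (insert k {u}) = insert i (σ u) := by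
    have h1 : car σ (insert k {u}) = σ k ∪ σ u := by
      simp [car]
    rw [h1, ← Finset.sdiff_union_self_eq_union, hk]
    rfl
  refine ⟨?_, hcar⟩
  simp only [ext, Finset.mem_filter, Finset.mem_univ, true_and]
  refine ⟨?_, hku, hcar.subset⟩
  intro hku'
  rw [Finset.mem_singleton] at hku'
  rw [hku', Finset.sdiff_self] at hk
  exact Finset.singleton_ne_empty i hk.symm

/-- The end `a`. -/
private theorem Rainbow_end {u a : Fin n} {i : Fin d} (hi : i ∉ σ u)
    (ha : a ∈ ext Γ σ (σ u) {u}) :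
    a ∈ ext Γ σ (insert i (σ u)) {u} ∧ car σ (insert a {u}) ≠ insert i (σ u) := by
  simp only [ext, Finset.mem_filter, Finset.mem_univ, true_and] at ha ⊢
  refine ⟨⟨ha.1, ha.2.1, ha.2.2.trans (Finset.subset_insert _ _)⟩, ?_⟩
  intro he
  have h1 : i ∈ car σ (insert a {u}) := by
    rw [he]
    exact Finset.mem_insert_self _ _
  exact hi (ha.2.2 h1)

/-- If `k'` has no shorter arc than `k`, it is not on the arc from `k`. -/
private theorem Rainbow_not_on (h : Tri Γ σ) {u a k k' : Fin n} {i : Fin d} (hu : #(σ u) = 2)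
    (hi : i ∉ σ u) (ha : a ∈ ext Γ σ (σ u) {u}) (hk : σ k \ σ u = {i}) (hk' : σ k' \ σ u = {i})
    (hku : insert k {u} ∈ Γ) (hku' : insert k' {u} ∈ Γ) (hne : k' ≠ k)
    (hle : #(arc Γ σ (insert i (σ u)) {u} a k) ≤ #(arc Γ σ (insert i (σ u)) {u} a k')) :
    ¬ ∃ G ∈ arc Γ σ (insert i (σ u)) {u} a k, k' ∈ G := by
  intro hmem
  have hcU : #(insert i (σ u)) = 3 := by rw [Finset.card_insert_of_notMem hi, hu]
  have hcar : car σ {u} = σ u := by simp [car]
  obtain ⟨hx, hxU⟩ := Rainbow_inner hk hku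
  obtain ⟨hy, hyU⟩ := Rainbow_inner hk' hku'
  obtain ⟨ha1, ha2⟩ := Rainbow_end hi ha
  have hlt := arc_lt h (by rw [hcU]; norm_num) (h.vertex u)
    (by rw [hcar]; exact Finset.subset_insert _ _)
    (by
      rw [hcar]
      intro he
      exact hi (by rw [he]; exact Finset.mem_insert_self _ _))
    (by rw [hcU, Finset.card_singleton]) ha1 ha2 hx hxU hy hyU hne hmem
  omega

private theorem Rainbow_total (h : Tri Γ σ) {u a k k' : Fin n} {i : Fin d} (hu : #(σ u) = 2)
    (hi : i ∉ σ u) (ha : a ∈ ext Γ σ (σ u) {u}) (hk : σ k \ σ u = {i}) (hk' : σ k' \ σ u = {i})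
    (hku : insert k {u} ∈ Γ) (hku' : insert k' {u} ∈ Γ) (hne : k' ≠ k)
    (hle : #(arc Γ σ (insert i (σ u)) {u} a k) ≤ #(arc Γ σ (insert i (σ u)) {u} a k')) :
    ∃ G ∈ arc Γ σ (insert i (σ u)) {u} a k', k ∈ G := by
  have hcU : #(insert i (σ u)) = 3 := by rw [Finset.card_insert_of_notMem hi, hu]
  have hcar : car σ {u} = σ u := by simp [car]
  obtain ⟨hx, hxU⟩ := Rainbow_inner hk hku
  obtain ⟨hy, hyU⟩ := Rainbow_inner hk' hku'
  obtain ⟨ha1, ha2⟩ := Rainbow_end hi ha
  rcases arc_total h (by rw [hcU]; norm_num) (h.vertex u)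
    (by rw [hcar]; exact Finset.subset_insert _ _)
    (by rw [hcU, Finset.card_singleton]) ha1 ha2 hx hxU hy hyU hne.symm with h1 | h1
  · exact absurd h1 (Rainbow_not_on h hu hi ha hk hk' hku hku' hne hle)
  · exact h1

/-- The vertex of colour `i` of a rainbow face can be exchanged. -/
private theorem Rainbow_swap {B : Type*} [AddCommGroup B] (h : Tri Γ σ) {u : Fin n}
    (Y : Finset (Fin n) → B)
    (hY : ∀ i, i ∉ σ u → ∀ W, Rain Γ σ u ((univ \ σ u).erase i) W →
      ∑ k ∈ univ.filter (fun k => σ k \ σ u = {i} ∧ insert k (insert u W) ∈ Γ),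
        Y (insert k W) = 0)
    {W : Finset (Fin n)} (hW : Rain Γ σ u (univ \ σ u) W) (hYW : Y W ≠ 0) {i : Fin d}
    (hi : i ∉ σ u) {k : Fin n} (hk : k ∈ W) (hki : σ k \ σ u = {i}) :
    ∃ k', k' ≠ k ∧ σ k' \ σ u = {i} ∧ insert k' (insert u (W.erase k)) ∈ Γ ∧
      Y (insert k' (W.erase k)) ≠ 0 ∧
      Rain Γ σ u (univ \ σ u) (insert k' (W.erase k)) := by
  have hR := rain_erase h hW hk hki
  have hsum := hY i hi _ hR
  have hkW : insert k (insert u (W.erase k)) ∈ Γ := by
    rw [Finset.insert_comm, Finset.insert_erase hk]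
    exact hW.1
  have hex : ∃ k' ∈ univ.filter (fun k' => σ k' \ σ u = {i} ∧
      insert k' (insert u (W.erase k)) ∈ Γ), k' ≠ k ∧ Y (insert k' (W.erase k)) ≠ 0 := by
    by_contra hcon
    push Not at hcon
    rw [Finset.sum_eq_single_of_mem k (by
      simp only [Finset.mem_filter, Finset.mem_univ, true_and]
      exact ⟨hki, hkW⟩) (fun b hb hbk => hcon b hb hbk), Finset.insert_erase hk] at hsum
    exact hYW hsum
  obtain ⟨k', hk', hne, hYk⟩ := hex
  simp only [Finset.mem_filter, Finset.mem_univ, true_and] at hk'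
  refine ⟨k', hne, hk'.1, hk'.2, hYk, ?_⟩
  exact rain_insert (by simp [hi]) hR hk'.1 hk'.2

/-- A function on the rainbow faces around `u` with all the sums over one vertex equal to `0`
vanishes, if there are at least two colours outside `σ u` (`4 ≤ d`).

Proof. Let `a ∈ ext Γ σ (σ u) {u}` (`ext_nonempty`), choose two colours `i ≠ l` outside `σ u`
(`#(univ \ σ u) = d - 2 ≥ 2`). For a rainbow face `W` let `v_i(W)`, `v_l(W)` be its vertices of
these colours. Suppose that `Y W ≠ 0` for some rainbow `W` (`Rain` with `T = univ \ σ u`); choose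
such a `W` with the least value of
`#(arc Γ σ (insert i (σ u)) {u} a (v_i W)) + #(arc Γ σ (insert l (σ u)) {u} a (v_l W))`.
By `hY` for `i` and `W.erase (v_i W)` there is `k ≠ v_i W` of colour `i` with
`Y (insert k (W.erase (v_i W))) ≠ 0`, and the same for `l`: `m ≠ v_l W`. By minimality
`#arc(v_i W) ≤ #arc(k)` and `#arc(v_l W) ≤ #arc(m)`. By `arc_lt` `k` is not on the arc from `v_i W`,
so `v_i W` is on the arc from `k` (`arc_total`); by `cross4` for the faces `{u, k, v_l W}` and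
`{u, v_i W, m}` `m` is on the arc from `v_l W`, a contradiction to `arc_lt`. (The vertices of colour
`i` adjacent to `u` are inner vertices of the path: `car σ {k, u} = insert i (σ u)`.) -/
theorem rainbow_zero {B : Type*} [AddCommGroup B] (h : Tri Γ σ) (hd : 4 ≤ d) {u : Fin n}
    (hu : #(σ u) = 2) (Y : Finset (Fin n) → B)
    (hY : ∀ i, i ∉ σ u → ∀ W, Rain Γ σ u ((univ \ σ u).erase i) W →
      ∑ k ∈ univ.filter (fun k => σ k \ σ u = {i} ∧ insert k (insert u W) ∈ Γ),
        Y (insert k W) = 0)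
    {W : Finset (Fin n)} (hW : Rain Γ σ u (univ \ σ u) W) : Y W = 0 := by
  classical
  by_contra hYW
  obtain ⟨a, ha⟩ := ext_nonempty h (U := σ u) (F := {u}) (by omega) (h.vertex u)
    (by simp [car]) (by rw [Finset.card_singleton]; omega)
  have hcT : 1 < #((univ : Finset (Fin d)) \ σ u) := by
    have h1 := Finset.card_sdiff_add_card_eq_card (Finset.subset_univ (σ u))
    rw [Finset.card_univ, Fintype.card_fin] at h1
    omega
  obtain ⟨i, hiT, l, hlT, hil⟩ := Finset.one_lt_card.1 hcT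
  have hi : i ∉ σ u := (Finset.mem_sdiff.1 hiT).2
  have hl : l ∉ σ u := (Finset.mem_sdiff.1 hlT).2
  -- the least value of the potential
  have hex : ∃ N : ℕ, ∃ (W : Finset (Fin n)) (k m : Fin n), Rain Γ σ u (univ \ σ u) W ∧ k ∈ W ∧
      σ k \ σ u = {i} ∧ m ∈ W ∧ σ m \ σ u = {l} ∧ Y W ≠ 0 ∧
      #(arc Γ σ (insert i (σ u)) {u} a k) + #(arc Γ σ (insert l (σ u)) {u} a m) = N := by
    obtain ⟨k, hk, -⟩ := hW.2.2 i hiT
    obtain ⟨m, hm, -⟩ := hW.2.2 l hlT
    exact ⟨_, W, k, m, hW, hk.1, hk.2, hm.1, hm.2, hYW, rfl⟩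
  obtain ⟨W₀, k, m, hR, hk, hki, hm, hml, hY0, hN⟩ := Nat.find_spec hex
  have hmin : ∀ N : ℕ, (∃ (W : Finset (Fin n)) (k m : Fin n), Rain Γ σ u (univ \ σ u) W ∧
      k ∈ W ∧ σ k \ σ u = {i} ∧ m ∈ W ∧ σ m \ σ u = {l} ∧ Y W ≠ 0 ∧
      #(arc Γ σ (insert i (σ u)) {u} a k) + #(arc Γ σ (insert l (σ u)) {u} a m) = N) →
      Nat.find hex ≤ N := fun N hN => Nat.find_min' hex hN
  have hkm : k ≠ m := by
    intro he
    rw [he, hml] at hki
    exact hil (Finset.singleton_inj.1 hki).symm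
  obtain ⟨k', hk'ne, hk'i, hk'G, hYk', hRk'⟩ := Rainbow_swap h Y hY hR hY0 hi hk hki
  obtain ⟨m', hm'ne, hm'l, hm'G, hYm', hRm'⟩ := Rainbow_swap h Y hY hR hY0 hl hm hml
  have hmk : m ∈ W₀.erase k := Finset.mem_erase.2 ⟨hkm.symm, hm⟩
  have hkm' : k ∈ W₀.erase m := Finset.mem_erase.2 ⟨hkm, hk⟩
  have hlek : #(arc Γ σ (insert i (σ u)) {u} a k) ≤ #(arc Γ σ (insert i (σ u)) {u} a k') := by
    have h1 := hmin _ ⟨insert k' (W₀.erase k), k', m, hRk', Finset.mem_insert_self _ _, hk'i,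
      Finset.mem_insert_of_mem hmk, hml, hYk', rfl⟩
    omega
  have hlem : #(arc Γ σ (insert l (σ u)) {u} a m) ≤ #(arc Γ σ (insert l (σ u)) {u} a m') := by
    have h1 := hmin _ ⟨insert m' (W₀.erase m), k, m', hRm', Finset.mem_insert_of_mem hkm', hki,
      Finset.mem_insert_self _ _, hm'l, hYm', rfl⟩
    omega
  have hku : insert k {u} ∈ Γ := h.down _ hR.1 _ (by
    intro z hz
    simp only [Finset.mem_insert, Finset.mem_singleton] at hz ⊢
    rcases hz with rfl | rfl
    · exact Or.inr hk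
    · exact Or.inl rfl)
  have hmu : insert m {u} ∈ Γ := h.down _ hR.1 _ (by
    intro z hz
    simp only [Finset.mem_insert, Finset.mem_singleton] at hz ⊢
    rcases hz with rfl | rfl
    · exact Or.inr hm
    · exact Or.inl rfl)
  have hk'u : insert k' {u} ∈ Γ := h.down _ hk'G _ (by
    intro z hz
    simp only [Finset.mem_insert, Finset.mem_singleton] at hz ⊢
    rcases hz with rfl | rfl
    · exact Or.inl rfl
    · exact Or.inr (Or.inl rfl))
  have hm'u : insert m' {u} ∈ Γ := h.down _ hm'G _ (by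
    intro z hz
    simp only [Finset.mem_insert, Finset.mem_singleton] at hz ⊢
    rcases hz with rfl | rfl
    · exact Or.inl rfl
    · exact Or.inr (Or.inl rfl))
  have hon := Rainbow_total h hu hi ha hki hk'i hku hk'u hk'ne hlek
  have hnot := Rainbow_not_on h hu hl ha hml hm'l hmu hm'u hm'ne hlem
  refine hnot (cross4 h hu ha hi hl hil hk'i hki hml hm'l ?_ ?_ hk'ne hm'ne.symm hon)
  · refine h.down _ hk'G _ ?_
    intro z hz
    simp only [Finset.mem_insert, Finset.mem_singleton] at hz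
    rcases hz with rfl | rfl | rfl
    · exact Finset.mem_insert_of_mem (Finset.mem_insert_self _ _)
    · exact Finset.mem_insert_self _ _
    · exact Finset.mem_insert_of_mem (Finset.mem_insert_of_mem hmk)
  · refine h.down _ hm'G _ ?_
    intro z hz
    simp only [Finset.mem_insert, Finset.mem_singleton] at hz
    rcases hz with rfl | rfl | rfl
    · exact Finset.mem_insert_of_mem (Finset.mem_insert_self _ _)
    · exact Finset.mem_insert_of_mem (Finset.mem_insert_of_mem hkm')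
    · exact Finset.mem_insert_self _ _

end Pool.Agent.Lib.MP_fd6ff4_co
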