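import Mathlib
import Pool.Agent.Lib.MP_fd6ff4_co.Rainbow
import Pool.Agent.Lib.MP_fd6ff4_co.Alg

/-!
# Interior faces with `d - 1` vertices, `d ≥ 4`
-/

set_option autoImplicit false

open Finset

namespace Pool.Agent.Lib.MP_fd6ff4_co

variable {d n : ℕ} {K : Type*} [Field K] {a : Fin d → Fin n → K}
  {σ : Fin n → Finset (Fin d)}
  {Γ : Finset (Finset (Fin n))}

/-- The structure of a minimal interior face with `d - 1` vertices: if no proper subset of the
interior face `G` with `d - 1` vertices is interior (it is enough: no `G.erase v`) then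
`G = insert u W` where `u ∉ W`, `σ u` has two elements and `W` has exactly one vertex of each colour
outside `σ u`.

Proof. Every `v ∈ G` has an element `π v ∈ σ v` which is in no other `σ v'`, `v' ∈ G`. `π` is
injective on `G`, so its image has `d - 1` elements; let `e` be the missing element of `Fin d`,
`u ∈ G` with `e ∈ σ u`. For `v ∈ G`: `σ v ⊆ {π v, e}`, because every other element is `π v'` for
some `v' ≠ v`. So `σ u = {π u, e}` and `σ v \ σ u = {π v}` for `v ≠ u`, `W = G.erase u`. -/
theorem exists_rain {G : Finset (Fin n)} (hG : G ∈ Γ) (hc : car σ G = univ) (hcard : #G + 1 = d)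
    (hmin : ∀ v ∈ G, car σ (G.erase v) ≠ univ) :
    ∃ u W, u ∉ W ∧ G = insert u W ∧ #(σ u) = 2 ∧ Rain Γ σ u (univ \ σ u) W := by
  have hex : ∀ v ∈ G, ∃ i : Fin d, i ∈ σ v ∧ ∀ v' ∈ G, v' ≠ v → i ∉ σ v' := by
    intro v hv
    have h1 : ∃ i : Fin d, i ∉ car σ (G.erase v) := by
      by_contra hcon
      push Not at hcon
      exact hmin v hv (Finset.eq_univ_iff_forall.2 hcon)
    obtain ⟨i, hi⟩ := h1
    have h2 : i ∈ car σ G := by rw [hc]; exact mem_univ i
    simp only [car, mem_biUnion, mem_erase, not_exists, not_and] at hi h2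
    obtain ⟨v', hv', hiv'⟩ := h2
    have h3 : v' = v := by
      by_contra hne
      exact hi v' ⟨hne, hv'⟩ hiv'
    subst h3
    exact ⟨i, hiv', fun w hw hne => hi w ⟨hne, hw⟩⟩
  have hne : ∀ v ∈ G, Nonempty (Fin d) := fun v hv => ⟨(hex v hv).choose⟩
  have hGne : G.Nonempty := by
    rw [Finset.nonempty_iff_ne_empty]
    rintro rfl
    have h1 : (univ : Finset (Fin d)).card = 0 := by
      rw [← hc]
      simp [car]
    rw [Finset.card_univ, Fintype.card_fin] at h1
    simp at hcard
    omega
  obtain ⟨v0, hv0⟩ := hGne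
  have : Nonempty (Fin d) := hne v0 hv0
  choose! π hπ1 hπ2 using hex
  have hinj : Set.InjOn π (G : Set (Fin n)) := by
    intro v hv v' hv' h
    by_contra hvv
    exact hπ2 v hv v' hv' (fun h' => hvv h'.symm) (h ▸ hπ1 v' hv')
  have himg : (G.image π).card = d - 1 := by
    rw [Finset.card_image_of_injOn hinj]
    omega
  obtain ⟨e, he⟩ : ∃ e : Fin d, e ∉ G.image π := by
    by_contra hcon
    push Not at hcon
    have h1 : G.image π = univ := Finset.eq_univ_iff_forall.2 hcon
    rw [h1, Finset.card_univ, Fintype.card_fin] at himg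
    omega
  have huniq : ∀ x : Fin d, x = e ∨ ∃ v ∈ G, π v = x := by
    intro x
    by_contra hcon
    push Not at hcon
    have h1 : x ∉ G.image π := by
      intro hx
      obtain ⟨v, hv, hvx⟩ := mem_image.1 hx
      exact hcon.2 v hv hvx
    have h2 : (insert x (insert e (G.image π))).card = d - 1 + 2 := by
      rw [Finset.card_insert_of_notMem, Finset.card_insert_of_notMem he, himg]
      rw [mem_insert, not_or]
      exact ⟨hcon.1, h1⟩
    have h3 : (insert x (insert e (G.image π))).card ≤ d := by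
      have := Finset.card_le_univ (insert x (insert e (G.image π)))
      rwa [Fintype.card_fin] at this
    omega
  have heG : e ∈ car σ G := by rw [hc]; exact mem_univ e
  obtain ⟨u, hu, heu⟩ := mem_biUnion.1 heG
  have hπe : ∀ v ∈ G, π v ≠ e := fun v hv h => he (mem_image.2 ⟨v, hv, h⟩)
  have hsub : ∀ v ∈ G, ∀ x ∈ σ v, x = π v ∨ x = e := by
    intro v hv x hx
    rcases huniq x with h | ⟨v', hv', rfl⟩
    · exact Or.inr h
    · left
      by_contra hne'
      have hvv : v ≠ v' := by
        rintro rfl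
        exact hne' rfl
      exact hπ2 v' hv' v hv hvv hx
  have hσu : σ u = {π u, e} := by
    ext x
    rw [mem_insert, mem_singleton]
    constructor
    · exact hsub u hu x
    · rintro (rfl | rfl)
      · exact hπ1 u hu
      · exact heu
  have hdiff : ∀ v ∈ G, v ≠ u → σ v \ σ u = {π v} := by
    intro v hv hvu
    ext x
    rw [mem_sdiff, mem_singleton]
    constructor
    · rintro ⟨h1, h2⟩
      rcases hsub v hv x h1 with h | h
      · exact h
      · subst h
        exact absurd heu h2
    · rintro rfl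
      exact ⟨hπ1 v hv, hπ2 v hv u hu (fun h => hvu h.symm)⟩
  refine ⟨u, G.erase u, Finset.notMem_erase u G, (Finset.insert_erase hu).symm, ?_, ?_, ?_, ?_⟩
  · rw [hσu, Finset.card_pair (hπe u hu)]
  · rw [Finset.insert_erase hu]
    exact hG
  · intro v hv
    obtain ⟨hvu, hvG⟩ := mem_erase.1 hv
    exact ⟨π v, mem_sdiff.2 ⟨mem_univ _, hπ2 v hvG u hu (fun h => hvu h.symm)⟩, hdiff v hvG hvu⟩
  · intro i hi
    have hiu : i ∉ σ u := (mem_sdiff.1 hi).2
    rcases huniq i with rfl | ⟨v, hv, rfl⟩
    · exact absurd heu hiu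
    · have hvu : v ≠ u := by
        rintro rfl
        exact hiu (hπ1 v hv)
      refine ⟨v, ⟨mem_erase.2 ⟨hvu, hv⟩, hdiff v hv hvu⟩, ?_⟩
      rintro w ⟨hw, hwi⟩
      obtain ⟨hwu, hwG⟩ := mem_erase.1 hw
      rw [hdiff w hwG hwu, Finset.singleton_inj] at hwi
      exact hinj hwG hv hwi

/-- For a rainbow face around `u`: the number of its vertices and its carrier. -/
theorem rain_card {u : Fin n} {T : Finset (Fin d)} {W : Finset (Fin n)}
    (hW : Rain Γ σ u T W) : #W = #T := by
  obtain ⟨-, h1, h2⟩ := hW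
  choose c hc1 hc2 using h1
  refine Finset.card_bij c (fun k hk => hc1 k hk) ?_ ?_
  · intro a ha b hb hab
    obtain ⟨y, -, hy⟩ := h2 (c a ha) (hc1 a ha)
    rw [hy a ⟨ha, hc2 a ha⟩, hy b ⟨hb, by rw [hc2 b hb, hab]⟩]
  · intro i hi
    obtain ⟨y, ⟨hyW, hyi⟩, -⟩ := h2 i hi
    refine ⟨y, hyW, ?_⟩
    have h3 := hc2 y hyW
    rw [hyi, Finset.singleton_inj] at h3
    exact h3.symm

theorem rain_car {u : Fin n} {T : Finset (Fin d)} {W : Finset (Fin n)}
    (hW : Rain Γ σ u T W) : car σ (insert u W) = σ u ∪ T := by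
  obtain ⟨-, h1, h2⟩ := hW
  ext x
  simp only [car, mem_biUnion, mem_insert, mem_union]
  constructor
  · rintro ⟨v, rfl | hv, hx⟩
    · exact Or.inl hx
    · by_cases hxu : x ∈ σ u
      · exact Or.inl hxu
      · right
        obtain ⟨i, hi, hvi⟩ := h1 v hv
        have h3 : x ∈ σ v \ σ u := mem_sdiff.2 ⟨hx, hxu⟩
        rw [hvi, mem_singleton] at h3
        rw [h3]
        exact hi
  · rintro (hx | hx)
    · exact ⟨u, Or.inl rfl, hx⟩
    · obtain ⟨y, ⟨hyW, hyi⟩, -⟩ := h2 x hx
      refine ⟨y, Or.inr hyW, ?_⟩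
      have h3 : x ∈ σ y \ σ u := by rw [hyi]; exact mem_singleton_self x
      exact (mem_sdiff.1 h3).1

/-- Proof. If some `G.erase v` is interior use `mon_mem_of_subset`. Otherwise `G = insert u W` by
`exists_rain`. Apply `rainbow_zero` with `B = MvPolynomial (Fin n) K ⧸ lowIdeal a σ Γ (d - 2)`
and `Y W = mk (C (∏ x ∈ W, w x) * mon (insert u W))`, `w x = ∑ i ∈ σ x \ σ u, a i x` (for a
vertex of colour `i` this is `a i x ≠ 0`). The hypothesis `hY` for `i ∉ σ u` and `W'`
(`Rain` for `(univ \ σ u).erase i`): take `row_mem` for `F = insert u W'`, `i ∉ car σ F`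
(`rain_car`); the terms with `σ x \ σ u ≠ {i}` are in `lowIdeal (d - 2)`: there is `l ≠ i`,
`l ∈ σ x \ σ u`, let `v ∈ W'` be the vertex of colour `l`, then `insert x (F.erase v)` is an interior
face with `d - 2` vertices inside `insert x F` (`mon_mem_of_subset`). Multiply the rest with
`C (∏ x ∈ W', w x)`; `∏ over insert x W'` is `a i x * ∏ over W'`. At the end `Y W = 0` and
`∏ x ∈ W, w x ≠ 0` give `mon G ∈ lowIdeal`. -/
theorem mon_mem_pred (ha : Generic a σ) (h : Tri Γ σ) (hd : 4 ≤ d) {G : Finset (Fin n)} (hG : G ∈ Γ)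
    (hc : car σ G = univ) (hcard : #G + 1 = d) :
    mon K G ∈ lowIdeal a σ Γ (d - 2) := by
  classical
  by_cases hmin : ∀ v ∈ G, car σ (G.erase v) ≠ univ
  swap
  · push Not at hmin
    obtain ⟨v, hv, hvc⟩ := hmin
    refine mon_mem_of_subset (h.down G hG _ (Finset.erase_subset v G)) hvc ?_
      (Finset.erase_subset v G)
    rw [Finset.card_erase_of_mem hv]
    omega
  obtain ⟨u, W, huW, rfl, hu2, hW⟩ := exists_rain hG hc hcard hmin
  set I := lowIdeal a σ Γ (d - 2) with hI
  let w : Fin n → K := fun x => ∑ i ∈ σ x \ σ u, a i x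
  let Y : Finset (Fin n) → MvPolynomial (Fin n) K ⧸ I := fun W =>
    Ideal.Quotient.mk I (MvPolynomial.C (∏ x ∈ W, w x) * mon K (insert u W))
  have hw : ∀ x i, σ x \ σ u = {i} → w x = a i x := by
    intro x i hx
    show ∑ i ∈ σ x \ σ u, a i x = a i x
    rw [hx, Finset.sum_singleton]
  have hsu : #(σ u) = 2 := hu2
  have hT : #((univ : Finset (Fin d)) \ σ u) = d - 2 := by
    rw [Finset.card_sdiff_of_subset (Finset.subset_univ _), Finset.card_univ, Fintype.card_fin, hsu]
  have hY : ∀ i, i ∉ σ u → ∀ W', Rain Γ σ u ((univ \ σ u).erase i) W' →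
      ∑ x ∈ univ.filter (fun x => σ x \ σ u = {i} ∧ insert x (insert u W') ∈ Γ),
        Y (insert x W') = 0 := by
    intro i hi W' hW'
    have hcF : car σ (insert u W') = σ u ∪ ((univ \ σ u).erase i) := rain_car hW'
    have hiF : i ∉ car σ (insert u W') := by
      rw [hcF, mem_union, not_or]
      exact ⟨hi, Finset.notMem_erase i _⟩
    have hiT : i ∈ (univ : Finset (Fin d)) \ σ u := mem_sdiff.2 ⟨mem_univ i, hi⟩
    have hcW' : #W' = d - 3 := by
      rw [rain_card hW', Finset.card_erase_of_mem hiT, hT]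
      omega
    have huW' : u ∉ W' := by
      intro hcon
      obtain ⟨j, -, hj⟩ := hW'.2.1 u hcon
      rw [Finset.sdiff_self] at hj
      exact absurd hj.symm (Finset.singleton_ne_empty j)
    have hcF' : #(insert u W') = d - 2 := by
      rw [Finset.card_insert_of_notMem huW', hcW']
      omega
    have hrow := row_mem ha (Γ := Γ) hiF
    have hrow' : ∑ x ∈ univ.filter (fun x => i ∈ σ x ∧ insert x (insert u W') ∈ Γ),
        MvPolynomial.C (a i x) * mon K (insert x (insert u W')) ∈ I :=
      relIdeal_le_lowIdeal _ hrow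
    -- the terms with another colour
    have hother : ∀ x, i ∈ σ x → insert x (insert u W') ∈ Γ → σ x \ σ u ≠ {i} →
        MvPolynomial.C (a i x) * mon K (insert x (insert u W')) ∈ I := by
      intro x hx hxΓ hxi
      apply Ideal.mul_mem_left
      have h1 : ∃ l, l ≠ i ∧ l ∈ σ x \ σ u := by
        by_contra hcon
        push Not at hcon
        apply hxi
        ext l
        rw [mem_singleton]
        constructor
        · intro hl
          by_contra hne
          exact hcon l hne hl
        · rintro rfl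
          exact mem_sdiff.2 ⟨hx, hi⟩
      obtain ⟨l, hli, hl⟩ := h1
      obtain ⟨hlx, hlu⟩ := mem_sdiff.1 hl
      obtain ⟨v, ⟨hvW, hvl⟩, -⟩ := hW'.2.2 l
        (mem_erase.2 ⟨hli, mem_sdiff.2 ⟨mem_univ l, hlu⟩⟩)
      have hvu : v ≠ u := fun hcon => huW' (hcon ▸ hvW)
      have hvF : v ∈ insert u W' := mem_insert_of_mem hvW
      refine mon_mem_of_subset (H := insert x ((insert u W').erase v)) ?_ ?_ ?_ ?_
      · exact h.down _ hxΓ _ (Finset.insert_subset_insert x (Finset.erase_subset v _))
      · rw [Finset.eq_univ_iff_forall]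
        intro j
        simp only [car, mem_biUnion, mem_insert, mem_erase]
        by_cases hju : j ∈ σ u
        · exact ⟨u, Or.inr ⟨fun hcon => hvu hcon.symm, Or.inl rfl⟩, hju⟩
        · by_cases hji : j = i
          · subst hji
            exact ⟨x, Or.inl rfl, hx⟩
          · by_cases hjl : j = l
            · subst hjl
              exact ⟨x, Or.inl rfl, hlx⟩
            · obtain ⟨y, ⟨hyW, hyj⟩, -⟩ := hW'.2.2 j
                (mem_erase.2 ⟨hji, mem_sdiff.2 ⟨mem_univ j, hju⟩⟩)
              refine ⟨y, Or.inr ⟨?_, Or.inr hyW⟩, ?_⟩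
              · rintro rfl
                rw [hvl, Finset.singleton_inj] at hyj
                exact hjl hyj.symm
              · have h3 : j ∈ σ y \ σ u := by rw [hyj]; exact mem_singleton_self j
                exact (mem_sdiff.1 h3).1
      · calc #(insert x ((insert u W').erase v)) ≤ #((insert u W').erase v) + 1 :=
              Finset.card_insert_le _ _
          _ ≤ d - 2 := by
              rw [Finset.card_erase_of_mem hvF, hcF']
              omega
      · exact Finset.insert_subset_insert x (Finset.erase_subset v _)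
    have hsplit : ∑ x ∈ univ.filter (fun x => σ x \ σ u = {i} ∧ insert x (insert u W') ∈ Γ),
        MvPolynomial.C (a i x) * mon K (insert x (insert u W')) ∈ I := by
      have h2 : ∑ x ∈ univ.filter (fun x => i ∈ σ x ∧ insert x (insert u W') ∈ Γ),
          MvPolynomial.C (a i x) * mon K (insert x (insert u W')) =
          ∑ x ∈ univ.filter (fun x => σ x \ σ u = {i} ∧ insert x (insert u W') ∈ Γ),
            MvPolynomial.C (a i x) * mon K (insert x (insert u W')) +
          ∑ x ∈ univ.filter (fun x => (i ∈ σ x ∧ insert x (insert u W') ∈ Γ) ∧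
              σ x \ σ u ≠ {i}),
            MvPolynomial.C (a i x) * mon K (insert x (insert u W')) := by
        rw [← Finset.sum_filter_add_sum_filter_not
          (univ.filter (fun x => i ∈ σ x ∧ insert x (insert u W') ∈ Γ))
          (fun x => σ x \ σ u = {i})]
        congr 1
        · apply Finset.sum_congr _ (fun _ _ => rfl)
          ext x
          simp only [mem_filter, mem_univ, true_and]
          constructor
          · rintro ⟨⟨-, h3⟩, h4⟩
            exact ⟨h4, h3⟩
          · rintro ⟨h4, h3⟩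
            have h5 : i ∈ σ x \ σ u := by rw [h4]; exact mem_singleton_self i
            exact ⟨⟨(mem_sdiff.1 h5).1, h3⟩, h4⟩
        · apply Finset.sum_congr _ (fun _ _ => rfl)
          ext x
          simp only [mem_filter, mem_univ, true_and, ne_eq]
      have h3 : ∑ x ∈ univ.filter (fun x => (i ∈ σ x ∧ insert x (insert u W') ∈ Γ) ∧
              σ x \ σ u ≠ {i}),
            MvPolynomial.C (a i x) * mon K (insert x (insert u W')) ∈ I := by
        apply Ideal.sum_mem
        intro x hx
        obtain ⟨-, ⟨h4, h5⟩, h6⟩ := mem_filter.1 hx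
        exact hother x h4 h5 h6
      rw [h2] at hrow'
      exact (Ideal.add_mem_iff_left I h3).1 hrow'
    have hterm : ∀ x ∈ univ.filter (fun x => σ x \ σ u = {i} ∧ insert x (insert u W') ∈ Γ),
        Y (insert x W') = Ideal.Quotient.mk I (MvPolynomial.C (∏ y ∈ W', w y) *
          (MvPolynomial.C (a i x) * mon K (insert x (insert u W')))) := by
      intro x hx
      obtain ⟨-, hx1, -⟩ := mem_filter.1 hx
      have hxW' : x ∉ W' := by
        intro hcon
        obtain ⟨j, hj, hxj⟩ := hW'.2.1 x hcon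
        rw [hx1, Finset.singleton_inj] at hxj
        subst hxj
        exact absurd hj (Finset.notMem_erase i _)
      show Ideal.Quotient.mk I (MvPolynomial.C (∏ y ∈ insert x W', w y) *
        mon K (insert u (insert x W'))) = _
      rw [Finset.prod_insert hxW', hw x i hx1, Finset.insert_comm u x W', MvPolynomial.C_mul]
      congr 1
      ring
    rw [Finset.sum_congr rfl hterm, ← map_sum, ← Finset.mul_sum]
    exact Ideal.Quotient.eq_zero_iff_mem.2 (Ideal.mul_mem_left I _ hsplit)
  have hYW : Y W = 0 := rainbow_zero h hd hsu Y hY hW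
  have hmem : MvPolynomial.C (∏ x ∈ W, w x) * mon K (insert u W) ∈ I :=
    Ideal.Quotient.eq_zero_iff_mem.1 hYW
  have hprod : ∏ x ∈ W, w x ≠ 0 := by
    rw [Finset.prod_ne_zero_iff]
    intro x hx
    obtain ⟨i, -, hxi⟩ := hW.2.1 x hx
    rw [hw x i hxi]
    apply aa_ne_zero ha
    have h3 : i ∈ σ x \ σ u := by rw [hxi]; exact mem_singleton_self i
    exact (mem_sdiff.1 h3).1
  have hfin := Ideal.mul_mem_left I (MvPolynomial.C (∏ x ∈ W, w x)⁻¹) hmem
  rw [← mul_assoc, ← MvPolynomial.C_mul, inv_mul_cancel₀ hprod, MvPolynomial.C_1, one_mul] at hfin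
  exact hfin

end Pool.Agent.Lib.MP_fd6ff4_co
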