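import Mathlib
import Pool.Agent.Lib.MP_fd6ff4_co.Step4
import Pool.Agent.Lib.MP_fd6ff4_co.Step3

/-!
# The local face module is generated in degrees at most `max (d / 2) (d - 2)`
-/

set_option autoImplicit false

open Finset

namespace Pool.Agent.Lib.MP_fd6ff4_co

variable {d n : ℕ} {K : Type*} [Field K] {a : Fin d → Fin n → K}
  {σ : Fin n → Finset (Fin d)}
  {Γ : Finset (Finset (Fin n))}

/-- the case `d = 3` of the step from `d - 1` to `d - 2` -/
theorem Final_three (ha : Generic a σ) (h : Tri Γ σ) (hd : d = 3) {G : Finset (Fin n)} (hG : G ∈ Γ)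
    (hc : car σ G = univ) (hcard : #G + 1 = d) : mon K G ∈ lowIdeal a σ Γ (d - 2) := by
  subst hd
  exact mon_mem_three ha h hG hc (by omega)

/-- All the monomials of the interior faces are in `lowIdeal (max (d / 2) (d - 2))`. Proof. Put
`N = max (d / 2) (d - 2)`. By `exists_small` and `mon_mem_of_subset` it is enough to show
`lowIdeal d ≤ lowIdeal N`. By `mon_mem_full` and `lowIdeal_le` `lowIdeal d ≤ lowIdeal (d - 1)`.
If `d ≤ 2` then `d - 1 ≤ N`. If `d = 3`: `mon_mem_three` gives `lowIdeal 2 ≤ lowIdeal 1`, `N = 1`.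
If `4 ≤ d`: `mon_mem_pred` gives `lowIdeal (d - 1) ≤ lowIdeal (d - 2)`, `N = d - 2`. -/
theorem generated (ha : Generic a σ) (h : Tri Γ σ) (hd : 1 ≤ d) : GeneratedLE a σ Γ (max (d / 2) (d - 2)) := by
  have h1 : lowIdeal a σ Γ d ≤ lowIdeal a σ Γ (d - 1) := by
    apply lowIdeal_le
    intro G hG hc hcard
    rcases Nat.lt_or_ge (#G) d with hlt | hge
    · exact mon_mem_of_subset hG hc (by omega) (Finset.Subset.refl _)
    · exact mon_mem_full ha h hd hG hc (by omega)
  have h2 : lowIdeal a σ Γ (d - 1) ≤ lowIdeal a σ Γ (max (d / 2) (d - 2)) := by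
    apply lowIdeal_le
    intro G hG hc hcard
    rcases Nat.lt_or_ge (max (d / 2) (d - 2)) (#G) with hlt | hge
    · have hcd : #G + 1 = d := by
        have h3 : d - 2 ≤ max (d / 2) (d - 2) := le_max_right _ _
        omega
      have h4 : d / 2 ≤ max (d / 2) (d - 2) := le_max_left _ _
      have hd3 : 3 ≤ d := by omega
      have key : mon K G ∈ lowIdeal a σ Γ (d - 2) := by
        rcases Nat.lt_or_ge d 4 with hlt4 | hge4
        · exact Final_three ha h (by omega) hG hc hcd
        · exact mon_mem_pred ha h hge4 hG hc hcd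
      have hle : lowIdeal a σ Γ (d - 2) ≤ lowIdeal a σ Γ (max (d / 2) (d - 2)) := by
        apply lowIdeal_le
        intro G' hG' hc' hcard'
        exact mon_mem_of_subset hG' hc' (le_trans hcard' (le_max_right _ _))
          (Finset.Subset.refl _)
      exact hle key
    · exact mon_mem_of_subset hG hc hge (Finset.Subset.refl _)
  apply generated_of
  intro G hG hc
  obtain ⟨H, hHG, hHΓ, hHc, hHd⟩ := exists_small h hG hc
  exact h2 (h1 (mon_mem_of_subset hHΓ hHc hHd hHG))

end Pool.Agent.Lib.MP_fd6ff4_co
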